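import Mathlib
import Pool.Agent.Q6.EV.Sub
import Pool.Agent.Y920.ETC.Iter

set_option autoImplicit false
set_option linter.unusedSectionVars false

/-!
# Value groups of finite quaternionic structures: basic counting
-/

namespace Pool.Agent.Q10.ETC3

open Finset
open Pool.Agent.H315R3.ETC Pool.Agent.TH673.VG Pool.Agent.Q6.EV
open Pool.Agent.Y920.ETC (Hr Bi)

open Classical

noncomputable section

/-- the product of two value groups -/
def PP (S : QData) [Fintype S.G] (a b : S.G) : Finset S.G :=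
  ((V S a) ×ˢ (V S b)).image fun p => p.1 * p.2

/-- the elements whose value group meets that of `a` nontrivially -/
def Bd (S : QData) [Fintype S.G] (a : S.G) : Finset S.G :=
  ((V S a).erase 1).biUnion fun x => V S x

variable {S : QData} (h : IsQuat S) [Fintype S.G]

theorem mem_PP {a b x : S.G} : x ∈ PP S a b ↔ ∃ u ∈ V S a, ∃ v ∈ V S b, u * v = x := by
  unfold PP
  rw [mem_image]
  constructor
  · rintro ⟨⟨u, v⟩, hp, rfl⟩
    rw [mem_product] at hp
    exact ⟨u, hp.1, v, hp.2, rfl⟩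
  · rintro ⟨u, hu, v, hv, rfl⟩
    exact ⟨(u, v), mem_product.2 ⟨hu, hv⟩, rfl⟩

include h in
theorem sq_cancel (a b : S.G) : a * (a * b) = b := by rw [← mul_assoc, h.exp2, one_mul]

include h in
theorem card_PP (a b : S.G) :
    (PP S a b).card * (V S a ∩ V S b).card = (V S a).card * (V S b).card := by
  have h1 := card_eq_sum_card_fiberwise (f := fun p : S.G × S.G => p.1 * p.2)
    (s := (V S a) ×ˢ (V S b)) (t := PP S a b) (by
      intro p hp
      exact mem_coe.2 (mem_image_of_mem _ (mem_coe.1 hp)))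
  rw [card_product] at h1
  rw [h1, sum_const_nat (m := (V S a ∩ V S b).card)]
  intro x hx
  obtain ⟨u, hu, v, hv, rfl⟩ := mem_PP.1 hx
  symm
  refine card_nbij' (fun c => (u * c, v * c)) (fun p => u * p.1) ?_ ?_ ?_ ?_
  · intro c hc
    have hc := mem_inter.1 (mem_coe.1 hc)
    refine mem_coe.2 (mem_filter.2 ⟨mem_product.2 ⟨mul_mem_V h hu hc.1, mul_mem_V h hv hc.2⟩, ?_⟩)
    show u * c * (v * c) = u * v
    have : u * c * (v * c) = u * v * (c * c) := by simp only [mul_comm, mul_left_comm]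
    rw [this, h.exp2, mul_one]
  · rintro ⟨p, r⟩ hp
    have hp := mem_filter.1 (mem_coe.1 hp)
    have hp1 := mem_product.1 hp.1
    have hp2 : p * r = u * v := hp.2
    refine mem_coe.2 (mem_inter.2 ⟨mul_mem_V h hu hp1.1, ?_⟩)
    have : u * p = v * r := by
      have e1 : u * p * (v * r) = 1 := by
        have : u * p * (v * r) = (u * v) * (p * r) := by simp only [mul_comm, mul_left_comm]
        rw [this, hp2, h.exp2]
      exact eq_of_mul h _ _ e1
    show u * p ∈ V S b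
    rw [this]
    exact mul_mem_V h hv hp1.2
  · intro c _
    exact sq_cancel h u c
  · rintro ⟨p, r⟩ hp
    have hp := mem_filter.1 (mem_coe.1 hp)
    have hp2 : p * r = u * v := hp.2
    refine Prod.ext (sq_cancel h u p) ?_
    show v * (u * p) = r
    have e1 : v * (u * p) * r = 1 := by
      have : v * (u * p) * r = (u * v) * (p * r) := by simp only [mul_comm, mul_left_comm]
      rw [this, hp2, h.exp2]
    exact eq_of_mul h _ _ e1

include h in
theorem V_pow (a : S.G) : ∃ n, (V S a).card = 2 ^ n := by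
  obtain ⟨n, hn⟩ := Pool.Agent.Q6.EV.card_pow h
  have := V_dvd h a
  rw [hn] at this
  obtain ⟨m, _, hm⟩ := (Nat.dvd_prime_pow Nat.prime_two).1 this
  exact ⟨m, hm⟩

include h in
theorem DD_pow {t : S.Q} (ht : (X S t).Nonempty) : ∃ n, (DD S t).card = 2 ^ n := by
  obtain ⟨n, hn⟩ := Pool.Agent.Q6.EV.card_pow h
  have := DD_dvd h ht
  rw [hn] at this
  obtain ⟨m, _, hm⟩ := (Nat.dvd_prime_pow Nat.prime_two).1 this
  exact ⟨m, hm⟩

theorem two_mul_le {a b m n : ℕ} (ha : a = 2 ^ m) (hb : b = 2 ^ n) (hab : a < b) : 2 * a ≤ b := by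
  subst ha hb
  have : m < n := (Nat.pow_lt_pow_iff_right (by norm_num)).1 hab
  calc 2 * 2 ^ m = 2 ^ (m + 1) := by rw [pow_succ, mul_comm]
    _ ≤ 2 ^ n := Nat.pow_le_pow_right (by norm_num) this

include h in
theorem pow_dvd_four {a n : ℕ} (ha : a = 2 ^ n) (h4 : 4 ≤ a) : 4 ∣ a := by
  subst ha
  have : 2 ≤ n := by
    by_contra hc
    have : 2 ^ n ≤ 2 ^ 1 := Nat.pow_le_pow_right (by norm_num) (by omega)
    omega
  exact pow_dvd_pow 2 this

include h in
theorem DD_sub {t : S.Q} {x y : S.G} (hx : x ∈ X S t) (hy : y ∈ DD S t) :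
    ∃ c ∈ C S t x, y ∈ PP S x c := by
  rw [mem_DD] at hy
  obtain ⟨x2, hx2, hy2⟩ := hy
  obtain ⟨z, e1, e2⟩ := exists_common h hx hx2
  obtain ⟨u, c, k1, k2, k3⟩ := D_dec h e1 e2 (mem_V.1 hy2)
  exact ⟨c, mem_C.2 k2, mem_PP.2 ⟨u, mem_V.2 k1, u * y, mem_V.2 k3, sq_cancel h u y⟩⟩

include h in
theorem PP_sub {t : S.Q} {x c : S.G} (hc : c ∈ C S t x) : PP S x c ⊆ DD S t := by
  intro y hy
  obtain ⟨u, hu, v, hv, rfl⟩ := mem_PP.1 hy
  rw [mem_C] at hc
  refine DD_mul h (mem_DD.2 ⟨x, mem_X.2 ⟨c, hc⟩, hu⟩) (mem_DD.2 ⟨c, mem_X.2 ⟨x, ?_⟩, hv⟩)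
  rw [h.qs2]; exact hc

include h in
theorem V_sub_PP_left (a b : S.G) : V S a ⊆ PP S a b := fun x hx =>
  mem_PP.2 ⟨x, hx, 1, one_mem_V h b, mul_one x⟩

include h in
theorem V_sub_PP_right (a b : S.G) : V S b ⊆ PP S a b := fun x hx =>
  mem_PP.2 ⟨1, one_mem_V h a, x, hx, one_mul x⟩

include h in
theorem card_V_pos (a : S.G) : 0 < (V S a).card := card_pos.2 ⟨1, one_mem_V h a⟩

theorem card_PP_le (a b : S.G) : (PP S a b).card ≤ (V S a).card * (V S b).card := by
  unfold PP
  exact card_image_le.trans (card_product _ _).le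

include h in
/-- the order of the value group of a quaternion -/
theorem card_DD_le {t : S.Q} {x : S.G} (hx : x ∈ X S t) {M : ℕ}
    (hM : ∀ c ∈ C S t x, (V S c).card ≤ M) :
    (DD S t).card ≤ (V S x).card + (V S x).card * ((V S x).card * M - (V S x).card) := by
  obtain ⟨z, hz⟩ := mem_X.1 hx
  have hsub : DD S t ⊆ V S x ∪ (C S t x).biUnion fun c => PP S x c \ V S x := by
    intro y hy
    rw [mem_union, mem_biUnion]
    by_cases hyx : y ∈ V S x
    · exact Or.inl hyx
    · obtain ⟨c, hc, hyc⟩ := DD_sub h hx hy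
      exact Or.inr ⟨c, hc, mem_sdiff.2 ⟨hyc, hyx⟩⟩
  refine (card_le_card hsub).trans ((card_union_le _ _).trans (Nat.add_le_add_left ?_ _))
  rw [← card_C h hz]
  refine card_biUnion_le_card_mul _ _ _ fun c hc => ?_
  rw [card_sdiff_of_subset (V_sub_PP_left h x c), card_C h hz]
  exact Nat.sub_le_sub_right ((card_PP_le x c).trans (Nat.mul_le_mul_left _ (hM c hc))) _

include h in
theorem q_cong {a x y : S.G} : S.q a x = S.q a y ↔ x * y ∈ V S a := by
  rw [mem_V]; exact h.qs3 _ _ _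

include h in
/-- the common part of three value groups -/
theorem V_inf {a b x : S.G} (h1 : x ∈ V S a) (h2 : x ∈ V S b) : x ∈ V S (a * b) := by
  rw [V_symm h] at h1 h2 ⊢
  exact mul_mem_V h h1 h2

include h in
theorem neg_mul_mem (a : S.G) : S.neg * a ∈ V S a := mem_V.2 (h.qs1 a)

theorem mem_Bd {a y : S.G} : y ∈ Bd S a ↔ ∃ x, x ≠ 1 ∧ x ∈ V S a ∧ y ∈ V S x := by
  unfold Bd
  rw [mem_biUnion]
  constructor
  · rintro ⟨x, hx, hy⟩
    rw [mem_erase] at hx
    exact ⟨x, hx.1, hx.2, hy⟩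
  · rintro ⟨x, h1, h2, h3⟩
    exact ⟨x, mem_erase.2 ⟨h1, h2⟩, h3⟩

include h in
theorem not_Bd {a y x : S.G} (hy : y ∉ Bd S a) (h1 : x ∈ V S a) (h2 : x ∈ V S y) : x = 1 := by
  by_contra hx
  exact hy (mem_Bd.2 ⟨x, hx, h1, (V_symm h).1 h2⟩)

include h in
/-- few elements have a value group meeting that of `a` -/
theorem card_Bd {a : S.G} (ha : a ≠ 1) {N : ℕ} (hN2 : 2 ≤ N)
    (hN : ∀ b : S.G, b ≠ 1 → (V S b).card ≤ N) :
    (Bd S a).card ≤ 2 + (N - 1) * (N - 2) := by
  have hsub : Bd S a ⊆ {1, a} ∪ ((V S a).erase 1).biUnion fun x => V S x \ {1, a} := by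
    intro y hy
    obtain ⟨x, h1, h2, h3⟩ := mem_Bd.1 hy
    rw [mem_union, mem_biUnion]
    by_cases hya : y ∈ ({1, a} : Finset S.G)
    · exact Or.inl hya
    · exact Or.inr ⟨x, mem_erase.2 ⟨h1, h2⟩, mem_sdiff.2 ⟨h3, hya⟩⟩
  refine (card_le_card hsub).trans ((card_union_le _ _).trans (Nat.add_le_add card_le_two ?_))
  refine (card_biUnion_le_card_mul _ _ (N - 2) fun x hx => ?_).trans
    (Nat.mul_le_mul_right _ ?_)
  · rw [mem_erase] at hx
    have hsub2 : ({1, a} : Finset S.G) ⊆ V S x := by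
      intro y hy
      rw [mem_insert, mem_singleton] at hy
      rcases hy with rfl | rfl
      · exact one_mem_V h x
      · exact (V_symm h).1 hx.2
    rw [card_sdiff_of_subset hsub2, card_pair ha.symm]
    exact Nat.sub_le_sub_right (hN x hx.1) _
  · rw [card_erase_of_mem (one_mem_V h a)]
    exact Nat.sub_le_sub_right (hN a ha) _

theorem vs_eq (a : S.G) : Pool.Agent.Y920.ETC.vs S a = (V S a).card := by
  have : {b : S.G | S.q a b = S.zero} = ((V S a : Finset S.G) : Set S.G) := by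
    ext b; simp [V]
  rw [Pool.Agent.Y920.ETC.vs, this, Set.ncard_coe_finset]

include h in
/-- value groups with at most three elements -/
theorem hr_of_le {a : S.G} (hs : (V S a).card ≤ 3) (ha : a ≠ S.neg) : Hr S a :=
  Pool.Agent.Y920.ETC.hr_of_small h (by rw [vs_eq]; exact hs) ha

theorem hr_iff {a : S.G} (hr : Hr S a) {x : S.G} (hx : x ∈ V S a) : x = 1 ∨ x = S.neg * a :=
  hr x (mem_V.1 hx)

include h in
theorem nn (a : S.G) : S.neg * (S.neg * a) = a := sq_cancel h _ _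

include h in
theorem mul_right_cancel' (a b : S.G) : a * b * b = a := by rw [mul_assoc, h.exp2, mul_one]

end

end Pool.Agent.Q10.ETC3
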