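import Mathlib

set_option autoImplicit false

/-!
# Overlaps of many sets in a small set
-/

namespace Pool.Agent.Q10.ETC3

open Finset

/-- `N` sets with at least `k - 2` elements each in a set with `k ^ 2 / 2 - 2` elements have large
intersections. -/
theorem overlap {ι α : Type} [DecidableEq ι] [DecidableEq α] (I : Finset ι) (A : Finset α) (B : ι → Finset α) {k N : ℕ}
    (hk : k = 4 ∨ 8 ≤ k) (hkN : k ≤ N) (hI : I.card = N)
    (hB : ∀ i ∈ I, B i ⊆ A) (hc : ∀ i ∈ I, k ≤ (B i).card + 2) (hA : 2 * A.card + 4 ≤ k ^ 2) :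
    2 * N * (N - 3) ≤ 3 * ∑ i ∈ I, ∑ j ∈ I.erase i, (B i ∩ B j).card := by
  have hk4 : 4 ≤ k := by omega
  -- subsets of exact size
  have hex : ∀ i : ι, ∃ B' : Finset α, B' ⊆ B i ∧ (i ∈ I → B'.card = k - 2) := by
    intro i
    by_cases hi : i ∈ I
    · obtain ⟨B', h1, h2⟩ := exists_subset_card_eq (show k - 2 ≤ (B i).card by
        have := hc i hi; omega)
      exact ⟨B', h1, fun _ => h2⟩
    · exact ⟨B i, subset_rfl, fun h => absurd h hi⟩
  choose B' hB' hc' using hex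
  have hle : ∑ i ∈ I, ∑ j ∈ I.erase i, (B' i ∩ B' j).card ≤
      ∑ i ∈ I, ∑ j ∈ I.erase i, (B i ∩ B j).card :=
    sum_le_sum fun i _ => sum_le_sum fun j _ =>
      card_le_card (inter_subset_inter (hB' i) (hB' j))
  refine le_trans ?_ (Nat.mul_le_mul_left 3 hle)
  -- double counting
  let m : α → ℕ := fun s => (I.filter fun i => s ∈ B' i).card
  have h1 : ∑ s ∈ A, m s = N * (k - 2) := by
    have := sum_card_bipartiteAbove_eq_sum_card_bipartiteBelow (s := A) (t := I)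
      (r := fun s i => s ∈ B' i)
    have e1 : ∑ s ∈ A, m s = ∑ a ∈ A, (bipartiteAbove (fun s i => s ∈ B' i) I a).card := rfl
    rw [e1, this, ← hI, ← smul_eq_mul, ← sum_const]
    refine sum_congr rfl fun i hi => ?_
    rw [← hc' i hi]
    congr 1
    ext s
    simp only [bipartiteBelow, mem_filter]
    exact ⟨fun hs => hs.2, fun hs => ⟨hB i hi (hB' i hs), hs⟩⟩
  have h2 : ∑ s ∈ A, m s ^ 2 = N * (k - 2) + ∑ i ∈ I, ∑ j ∈ I.erase i, (B' i ∩ B' j).card := by
    have e1 : ∀ s, m s ^ 2 = ∑ i ∈ I, ∑ j ∈ I, (if s ∈ B' i ∧ s ∈ B' j then 1 else 0) := by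
      intro s
      show (I.filter fun i => s ∈ B' i).card ^ 2 = _
      rw [card_filter, sq, sum_mul_sum]
      refine sum_congr rfl fun x _ => sum_congr rfl fun x' _ => ?_
      by_cases h1 : s ∈ B' x <;> by_cases h2 : s ∈ B' x' <;> simp [h1, h2]
    have e2 : ∑ s ∈ A, m s ^ 2 = ∑ i ∈ I, ∑ j ∈ I, (B' i ∩ B' j).card := by
      rw [sum_congr rfl fun s _ => e1 s, sum_comm]
      refine sum_congr rfl fun i hi => ?_
      rw [sum_comm]
      refine sum_congr rfl fun j hj => ?_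
      rw [← card_filter]
      congr 1
      ext s
      simp only [mem_filter, mem_inter]
      exact ⟨fun hs => hs.2, fun hs => ⟨hB i hi (hB' i hs.1), hs⟩⟩
    rw [e2]
    have e3 : ∀ i ∈ I, ∑ j ∈ I, (B' i ∩ B' j).card = (k - 2) + ∑ j ∈ I.erase i,
        (B' i ∩ B' j).card := by
      intro i hi
      rw [← add_sum_erase _ _ hi, inter_self, hc' i hi]
    rw [sum_congr rfl e3, sum_add_distrib, sum_const, hI, smul_eq_mul]
  obtain ⟨O, hO⟩ : ∃ O, O = ∑ i ∈ I, ∑ j ∈ I.erase i, (B' i ∩ B' j).card := ⟨_, rfl⟩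
  rw [← hO] at h2 ⊢
  have h3 : (∑ s ∈ A, m s) ^ 2 ≤ A.card * ∑ s ∈ A, m s ^ 2 := sq_sum_le_card_mul_sum_sq
  rw [h1, h2] at h3
  -- arithmetic
  obtain ⟨c, rfl⟩ : ∃ c, k = c + 2 := ⟨k - 2, by omega⟩
  have e0 : c + 2 - 2 = c := by omega
  rw [e0] at h3
  have hA2 : 2 * A.card ≤ c * (c + 4) := by
    have : (c + 2) ^ 2 = c * (c + 4) + 4 := by ring
    omega
  have h4 : 2 * (N * c) ^ 2 ≤ c * (c + 4) * (N * c + O) := by
    calc 2 * (N * c) ^ 2 ≤ 2 * (A.card * (N * c + O)) := Nat.mul_le_mul_left _ h3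
      _ = (2 * A.card) * (N * c + O) := by ring
      _ ≤ _ := Nat.mul_le_mul_right _ hA2
  have hc0 : 0 < c := by omega
  have h5 : 2 * N ^ 2 * c ≤ (c + 4) * (N * c + O) := by
    have : c * (2 * N ^ 2 * c) ≤ c * ((c + 4) * (N * c + O)) := by
      calc c * (2 * N ^ 2 * c) = 2 * (N * c) ^ 2 := by ring
        _ ≤ _ := h4
        _ = _ := by ring
    exact Nat.le_of_mul_le_mul_left this hc0
  -- `2 N (N - 3) ≤ 3 O`
  obtain ⟨r, rfl⟩ : ∃ r, N = r + 3 := ⟨N - 3, by omega⟩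
  have e1 : r + 3 - 3 = r := by omega
  rw [e1]
  have h6 : (c + 4) * (2 * (r + 3) * r) ≤ (c + 4) * (3 * O) := by
    zify at h5 ⊢
    have hkN' : (c : ℤ) + 2 ≤ r + 3 := by exact_mod_cast hkN
    have hr0 : (0 : ℤ) ≤ r := by positivity
    rcases hk with hk | hk
    · have hc2 : c = 2 := by omega
      subst hc2
      push_cast at h5 ⊢
      nlinarith
    · have hc6 : (6 : ℤ) ≤ c := by exact_mod_cast (show 6 ≤ c by omega)
      have h7 : 0 ≤ ((c : ℤ) - 2) * (4 * (r + 3) - 3 * (c + 2) - 6) := by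
        apply mul_nonneg
        · linarith
        · linarith
      nlinarith [mul_nonneg (show (0 : ℤ) ≤ r + 3 by linarith) h7]
  exact Nat.le_of_mul_le_mul_left h6 (by omega)

/-- the case of four sets with two elements in a set with six elements -/
theorem overlap4 {ι α : Type} [DecidableEq ι] [DecidableEq α] (I : Finset ι) (A : Finset α)
    (B : ι → Finset α) (hI : I.card = 4)
    (hB : ∀ i ∈ I, B i ⊆ A) (hc : ∀ i ∈ I, (B i).card = 2) (hA : A.card ≤ 6) :
    4 ≤ ∑ i ∈ I, ∑ j ∈ I.erase i, (B i ∩ B j).card := by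
  let m : α → ℕ := fun s => (I.filter fun i => s ∈ B i).card
  have h1 : ∑ s ∈ A, m s = 8 := by
    have := sum_card_bipartiteAbove_eq_sum_card_bipartiteBelow (s := A) (t := I)
      (r := fun s i => s ∈ B i)
    have e1 : ∑ s ∈ A, m s = ∑ a ∈ A, (bipartiteAbove (fun s i => s ∈ B i) I a).card := rfl
    rw [e1, this]
    have e2 : ∑ i ∈ I, (bipartiteBelow (fun s i => s ∈ B i) A i).card = ∑ i ∈ I, 2 := by
      refine sum_congr rfl fun i hi => ?_
      rw [← hc i hi]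
      congr 1
      ext s
      simp only [bipartiteBelow, mem_filter]
      exact ⟨fun hs => hs.2, fun hs => ⟨hB i hi hs, hs⟩⟩
    rw [e2, sum_const, hI]
    rfl
  have h2 : ∑ s ∈ A, m s ^ 2 = 8 + ∑ i ∈ I, ∑ j ∈ I.erase i, (B i ∩ B j).card := by
    have e1 : ∀ s, m s ^ 2 = ∑ i ∈ I, ∑ j ∈ I, (if s ∈ B i ∧ s ∈ B j then 1 else 0) := by
      intro s
      show (I.filter fun i => s ∈ B i).card ^ 2 = _
      rw [card_filter, sq, sum_mul_sum]
      refine sum_congr rfl fun x _ => sum_congr rfl fun x' _ => ?_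
      by_cases h1 : s ∈ B x <;> by_cases h2 : s ∈ B x' <;> simp [h1, h2]
    have e2 : ∑ s ∈ A, m s ^ 2 = ∑ i ∈ I, ∑ j ∈ I, (B i ∩ B j).card := by
      rw [sum_congr rfl fun s _ => e1 s, sum_comm]
      refine sum_congr rfl fun i hi => ?_
      rw [sum_comm]
      refine sum_congr rfl fun j hj => ?_
      rw [← card_filter]
      congr 1
      ext s
      simp only [mem_filter, mem_inter]
      exact ⟨fun hs => hs.2, fun hs => ⟨hB i hi hs.1, hs⟩⟩
    rw [e2]
    have e3 : ∀ i ∈ I, ∑ j ∈ I, (B i ∩ B j).card = 2 + ∑ j ∈ I.erase i, (B i ∩ B j).card := by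
      intro i hi
      rw [← add_sum_erase _ _ hi, inter_self, hc i hi]
    rw [sum_congr rfl e3, sum_add_distrib, sum_const, hI]
    rfl
  have h3 : ∀ s : α, 3 * m s ≤ m s ^ 2 + 2 := by
    intro s
    generalize m s = x
    rcases Nat.lt_or_ge x 2 with hx | hx
    · interval_cases x <;> norm_num
    · nlinarith
  have h4 : 3 * ∑ s ∈ A, m s ≤ ∑ s ∈ A, m s ^ 2 + A.card * 2 := by
    rw [mul_sum, ← smul_eq_mul (a := A.card), ← sum_const, ← sum_add_distrib]
    exact sum_le_sum fun s _ => h3 s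
  omega

end Pool.Agent.Q10.ETC3
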