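import Mathlib
import Pool.Agent.Q10.ETC3.Base
import Pool.Agent.Q10.ETC3.CS

set_option autoImplicit false
set_option linter.unusedSectionVars false

/-!
# Structures without rigid elements are small
-/

namespace Pool.Agent.Q10.ETC3

open Finset
open Pool.Agent.H315R3.ETC Pool.Agent.TH673.VG Pool.Agent.Q6.EV
open Pool.Agent.Y920.ETC (Hr Bi)

open Classical

noncomputable section

variable {S : QData} (h : IsQuat S) [Fintype S.G]

/-- the quotient by a value group -/
abbrev Qt (h : IsQuat S) (v : S.G) : Type := S.G ⧸ D h v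

instance instQt (v : S.G) : Fintype (Qt h v) := Fintype.ofFinite _

/-- the projection -/
def pr (v : S.G) : S.G →* Qt h v := QuotientGroup.mk' (D h v)

theorem pr_eq {v x y : S.G} : pr h v x = pr h v y ↔ x * y ∈ V S v := by
  unfold pr
  rw [QuotientGroup.mk'_apply, QuotientGroup.mk'_apply, QuotientGroup.eq, inv_eq h, mem_V]
  exact Iff.rfl

theorem pr_one {v x : S.G} : pr h v x = 1 ↔ x ∈ V S v := by
  rw [← map_one (pr h v), pr_eq, mul_one]

theorem pr_surj (v : S.G) : Function.Surjective (pr h v) := QuotientGroup.mk'_surjective _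

/-- the elements of a coset -/
def cs (v : S.G) (c : Qt h v) : Finset S.G := univ.filter fun x => pr h v x = c

theorem mem_cs {v x : S.G} {c : Qt h v} : x ∈ cs h v c ↔ pr h v x = c := by simp [cs]

theorem cs_shift {v u x : S.G} : x ∈ cs h v (pr h v u) ↔ u * x ∈ V S v := by
  rw [mem_cs, pr_eq, mul_comm]

theorem card_cs (v : S.G) (c : Qt h v) : (cs h v c).card = (V S v).card := by
  obtain ⟨u, rfl⟩ := pr_surj h v c
  refine card_nbij' (fun x => u * x) (fun x => u * x) ?_ ?_ ?_ ?_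
  · intro x hx
    exact mem_coe.2 ((cs_shift h).1 (mem_coe.1 hx))
  · intro x hx
    refine mem_coe.2 ((cs_shift h).2 ?_)
    rw [sq_cancel h]
    exact mem_coe.1 hx
  · intro x _
    exact sq_cancel h u x
  · intro x _
    exact sq_cancel h u x

theorem card_Qt (v : S.G) : Fintype.card (Qt h v) * (V S v).card = Fintype.card S.G := by
  have h1 := card_eq_sum_card_fiberwise (f := pr h v) (s := (univ : Finset S.G))
    (t := (univ : Finset (Qt h v))) (fun _ _ => mem_coe.2 (mem_univ _))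
  rw [card_univ] at h1
  rw [h1, sum_const_nat (m := (V S v).card), card_univ]
  intro c _
  exact card_cs h v c

/-- the image of a value group -/
def Vb (v u : S.G) : Finset (Qt h v) := (V S u).image (pr h v)

theorem mem_Vb {v u : S.G} {s : Qt h v} : s ∈ Vb h v u ↔ ∃ x ∈ V S u, pr h v x = s := by
  unfold Vb; rw [mem_image]

theorem one_mem_Vb (v u : S.G) : (1 : Qt h v) ∈ Vb h v u :=
  (mem_Vb h).2 ⟨1, one_mem_V h u, map_one _⟩

theorem neg_mem_Vb (v u : S.G) : pr h v S.neg * pr h v u ∈ Vb h v u :=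
  (mem_Vb h).2 ⟨S.neg * u, neg_mul_mem h u, map_mul _ _ _⟩

theorem card_Vb {v u : S.G} (hu : u ∉ Bd S v) : (Vb h v u).card = (V S u).card := by
  unfold Vb
  refine card_image_of_injOn fun x hx y hy hxy => ?_
  have h1 : x * y ∈ V S v := (pr_eq h).1 hxy
  have h2 : x * y ∈ V S u := mul_mem_V h (mem_coe.1 hx) (mem_coe.1 hy)
  exact eq_of_mul h _ _ (not_Bd h hu h1 h2)

theorem card_Vb_le (v u : S.G) : (Vb h v u).card ≤ (V S u).card := card_image_le

/-- the trivial elements -/
def E (v : S.G) (c : Qt h v) : Finset (Qt h v) := {1, pr h v S.neg * c}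

theorem E_sub (v u : S.G) : E h v (pr h v u) ⊆ Vb h v u := by
  intro s hs
  unfold E at hs
  rw [mem_insert, mem_singleton] at hs
  rcases hs with rfl | rfl
  · exact one_mem_Vb h v u
  · exact neg_mem_Vb h v u

theorem card_E {v : S.G} {c : Qt h v} (hc : c ≠ pr h v S.neg) : (E h v c).card = 2 := by
  unfold E
  refine card_pair fun e => hc ?_
  have h1 : pr h v S.neg * pr h v S.neg = 1 := by rw [← map_mul, h.exp2, map_one]
  have h2 : pr h v S.neg * (pr h v S.neg * c) = pr h v S.neg := by rw [← e, mul_one]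
  rw [← mul_assoc, h1, one_mul] at h2
  exact h2

/-- good cosets -/
def GG (v : S.G) : Finset (Qt h v) :=
  univ.filter fun c => (∀ u, pr h v u = c → u ∉ Bd S v) ∧ c ≠ pr h v S.neg

theorem mem_GG {v : S.G} {c : Qt h v} :
    c ∈ GG h v ↔ (∀ u, pr h v u = c → u ∉ Bd S v) ∧ c ≠ pr h v S.neg := by simp [GG]

/-- the number of good cosets -/
theorem card_GG (v : S.G) : Fintype.card (Qt h v) ≤ (GG h v).card + ((Bd S v).card + 1) := by
  have hsub : (univ : Finset (Qt h v)) ⊆ GG h v ∪ ((Bd S v).image (pr h v) ∪ {pr h v S.neg}) := by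
    intro c _
    rw [mem_union, mem_union, mem_image, mem_singleton, mem_GG]
    by_cases h1 : c = pr h v S.neg
    · exact Or.inr (Or.inr h1)
    by_cases h2 : ∀ u, pr h v u = c → u ∉ Bd S v
    · exact Or.inl ⟨h2, h1⟩
    · push Not at h2
      obtain ⟨u, hu, hB⟩ := h2
      exact Or.inr (Or.inl ⟨u, hB, hu⟩)
  have := card_le_card hsub
  rw [card_univ] at this
  refine this.trans ((card_union_le _ _).trans (Nat.add_le_add_left ?_ _))
  refine (card_union_le _ _).trans (Nat.add_le_add card_image_le ?_)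
  rw [card_singleton]

/-- overlaps -/
def Ov (v u w : S.G) : Finset (Qt h v) :=
  (Vb h v u \ E h v (pr h v u)) ∩ (Vb h v (u * w) \ E h v (pr h v u))

section max

variable {N : ℕ} (hN : ∀ b : S.G, b ≠ 1 → (V S b).card ≤ N) (hN4 : 4 ≤ N)
  {v : S.G} (hv1 : v ≠ 1) (hv : (V S v).card = N)

include h hN4 hv in
theorem one_mem_Bd : (1 : S.G) ∈ Bd S v := by
  have h1 : ∃ x ∈ V S v, x ≠ 1 := by
    by_contra hc
    push Not at hc
    have hsub : V S v ⊆ {1} := fun x hx => mem_singleton.2 (hc x hx)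
    have := card_le_card hsub
    rw [card_singleton] at this
    omega
  obtain ⟨x, hx, hx1⟩ := h1
  exact mem_Bd.2 ⟨x, hx1, hx, one_mem_V h x⟩

include hv hN4 in
theorem GG_prop {c : Qt h v} (hc : c ∈ GG h v) {u : S.G} (hu : pr h v u = c) :
    u ∉ Bd S v ∧ u ≠ 1 ∧ u ≠ S.neg ∧ u ∉ V S v := by
  rw [mem_GG] at hc
  refine ⟨hc.1 u hu, ?_, ?_, ?_⟩
  · rintro rfl
    exact hc.1 1 hu (one_mem_Bd h hN4 hv)
  · rintro rfl
    exact hc.2 hu.symm
  · intro h1
    rw [(pr_one h).2 h1] at hu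
    exact hc.1 1 (by rw [map_one, hu]) (one_mem_Bd h hN4 hv)

include h hN hN4 hv1 hv in
/-- overlaps in a good coset -/
theorem good_overlap (hR : ∀ a : S.G, a ≠ 1 → a ≠ S.neg → 4 ≤ (V S a).card)
    {c : Qt h v} (hc : c ∈ GG h v) :
    2 * N * (N - 3) ≤ 3 * ∑ u ∈ cs h v c, ∑ w ∈ (V S v).erase 1, (Ov h v u w).card := by
  have hcne : c ≠ pr h v S.neg := ((mem_GG h).1 hc).2
  have hne : (cs h v c).Nonempty := by
    rw [← card_pos, card_cs, hv]; omega
  obtain ⟨u, hu, hmin⟩ := exists_min_image (cs h v c) (fun x => (V S x).card) hne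
  have hu' : pr h v u = c := (mem_cs h).1 hu
  obtain ⟨huB, hu1, hun, huv⟩ := GG_prop h hN4 hv hc hu'
  obtain ⟨k, hk⟩ : ∃ k, k = (V S u).card := ⟨_, rfl⟩
  obtain ⟨a, ha⟩ := V_pow h u
  rw [← hk] at ha
  have hk4 : 4 ≤ k := by rw [hk]; exact hR u hu1 hun
  have hk48 : k = 4 ∨ 8 ≤ k := by
    have := two_mul_le (a := 4) (m := 2) (by norm_num) ha
    omega
  have hkN : k ≤ N := by rw [hk]; exact hN u hu1
  obtain ⟨t, ht⟩ : ∃ t, t = S.q v u := ⟨_, rfl⟩
  have ht0 : t ≠ S.zero := by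
    intro e
    exact huv (mem_V.2 (ht ▸ e))
  have huX : u ∈ X S t := mem_X.2 ⟨v, by rw [h.qs2, ht]⟩
  have hDD := card_DD_le h huX (M := N) (fun c' hc' => hN c' (by
    rintro rfl
    rw [mem_C, q_one h] at hc'
    exact ht0 hc'.symm))
  rw [← hk] at hDD
  obtain ⟨b, hb⟩ := DD_pow h ⟨u, huX⟩
  obtain ⟨d, hd⟩ := V_pow h v
  rw [hv] at hd
  have hlt : (DD S t).card < k ^ 2 * N := by
    refine lt_of_le_of_lt hDD ?_
    have h1 : k ≤ k * N := Nat.le_mul_of_pos_right k (by omega)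
    obtain ⟨r, hr⟩ : ∃ r, k * N = k + r := ⟨k * N - k, by omega⟩
    have h2 : k * N - k = r := by omega
    rw [h2]
    have h3 : k ^ 2 * N = k * (k * N) := by ring
    rw [h3, hr]
    nlinarith
  have h2DD : 2 * (DD S t).card ≤ k ^ 2 * N := by
    refine two_mul_le hb (n := 2 * a + d) ?_ hlt
    rw [ha, hd]; ring
  -- the image of `DD`
  have him : ((DD S t).image (pr h v)).card * N ≤ (DD S t).card := by
    have h1 := card_eq_sum_card_fiberwise (f := pr h v) (s := DD S t)
      (t := (DD S t).image (pr h v)) (fun x hx => mem_coe.2 (mem_image_of_mem _ (mem_coe.1 hx)))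
    rw [h1]
    refine (card_nsmul_le_sum _ _ N fun s hs => ?_)
    obtain ⟨x, hx, rfl⟩ := mem_image.1 hs
    rw [← hv, ← card_cs h v (pr h v x)]
    refine card_le_card fun y hy => ?_
    rw [mem_filter]
    refine ⟨?_, (mem_cs h).1 hy⟩
    have h2 : x * y ∈ V S v := (cs_shift h).1 hy
    have h3 : x * y ∈ DD S t := mem_DD.2 ⟨v, mem_X.2 ⟨u, ht.symm⟩, h2⟩
    have h4 := DD_mul h hx h3
    rwa [sq_cancel h] at h4
  have h2im : 2 * ((DD S t).image (pr h v)).card ≤ k ^ 2 := by
    have : 2 * ((DD S t).image (pr h v)).card * N ≤ k ^ 2 * N := by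
      calc 2 * ((DD S t).image (pr h v)).card * N = 2 * (((DD S t).image (pr h v)).card * N) := by
            ring
        _ ≤ 2 * (DD S t).card := Nat.mul_le_mul_left _ him
        _ ≤ _ := h2DD
    exact Nat.le_of_mul_le_mul_right this (by omega)
  have hVsub : ∀ u' ∈ cs h v c, Vb h v u' ⊆ (DD S t).image (pr h v) := by
    intro u' hu'c
    refine image_subset_image fun y hy => ?_
    refine mem_DD.2 ⟨u', mem_X.2 ⟨v, ?_⟩, hy⟩
    rw [h.qs2, ht, q_cong h, mul_comm, ← cs_shift h, hu']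
    exact hu'c
  have hEc : ∀ u' ∈ cs h v c, E h v c ⊆ Vb h v u' := by
    intro u' hu'c
    have := E_sub h v u'
    rwa [(mem_cs h).1 hu'c] at this
  have hov := overlap (cs h v c) ((DD S t).image (pr h v) \ E h v c)
    (fun u' => Vb h v u' \ E h v c) hk48 hkN ((card_cs h v c).trans hv)
    (fun u' hu'c => sdiff_subset_sdiff (hVsub u' hu'c) subset_rfl)
    (by
      intro u' hu'c
      obtain ⟨h1, h2, h3, h4⟩ := GG_prop h hN4 hv hc ((mem_cs h).1 hu'c)
      rw [card_sdiff_of_subset (hEc u' hu'c), card_E h hcne, card_Vb h h1]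
      have h5 : k ≤ (V S u').card := by rw [hk]; exact hmin u' hu'c
      omega)
    (by
      rw [card_sdiff_of_subset ((hEc u hu).trans (hVsub u hu)), card_E h hcne]
      have h1 := card_le_card ((hEc u hu).trans (hVsub u hu))
      rw [card_E h hcne] at h1
      omega)
  refine hov.trans (Nat.mul_le_mul_left _ (sum_le_sum fun x hx => ?_))
  have hx' : pr h v x = c := (mem_cs h).1 hx
  refine le_of_eq ?_
  symm
  refine sum_nbij' (fun w => x * w) (fun y => x * y) ?_ ?_ ?_ ?_ ?_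
  · intro w hw
    rw [mem_erase] at hw ⊢
    refine ⟨fun e => hw.1 (mul_eq_left.1 e), ?_⟩
    rw [← hx', cs_shift h, sq_cancel h]
    exact hw.2
  · intro y hy
    rw [mem_erase] at hy ⊢
    refine ⟨fun e => hy.1 (eq_of_mul h _ _ e).symm, ?_⟩
    rw [← cs_shift h, hx']
    exact hy.2
  · intro w _
    exact sq_cancel h x w
  · intro y _
    exact sq_cancel h x y
  · intro w _
    show (Ov h v x w).card = ((Vb h v x \ E h v c) ∩ (Vb h v (x * w) \ E h v c)).card
    unfold Ov
    rw [hx']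

include h in
/-- the key relation -/
theorem key_rel {u w y z : S.G} (hy : y ∈ V S u) (hyz : y * z ∈ V S (u * w)) :
    u * w ∈ PP S z (z * w) := by
  have e1 : S.q (u * w) y = S.q (u * w) z := (h.qs3 _ _ _).2 (mem_V.1 hyz)
  have e2 : S.q y (u * w) = S.q y w := q_shift h _ (mem_V.1 ((V_symm h).1 hy))
  have e3 : S.q w y = S.q z (u * w) := by
    rw [h.qs2 w y, ← e2, h.qs2 y, e1, h.qs2]
  obtain ⟨x, h1, h2⟩ := h.qs4 _ _ _ _ e3
  refine mem_PP.2 ⟨u * w * x, ?_, x, ?_, ?_⟩
  · exact (q_cong h).1 h2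
  · rw [mem_V]
    have : S.q z x = S.q w x := by rw [← h2, ← h1, e3]
    exact (q_eq_iff h z w x).1 this
  · exact mul_right_cancel' h _ _

include h hN hv1 hv in
theorem card_PP_half {z w : S.G} (hz : z ∈ V S v) (hw : w ∈ V S v) (hz1 : z ≠ 1) (hzw : z ≠ w) :
    2 * (PP S z (z * w)).card ≤ N ^ 2 := by
  have h1 := card_PP h z (z * w)
  have h2 : 2 ≤ (V S z ∩ V S (z * w)).card := by
    rw [← card_pair hv1]
    refine card_le_card fun x hx => ?_
    rw [mem_insert, mem_singleton] at hx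
    rw [mem_inter]
    rcases hx with rfl | rfl
    · exact ⟨(V_symm h).1 hz, (V_symm h).1 (mul_mem_V h hz hw)⟩
    · exact ⟨one_mem_V h _, one_mem_V h _⟩
  have h3 := hN z hz1
  have h4 := hN (z * w) (fun e => hzw (eq_of_mul h _ _ e))
  calc 2 * (PP S z (z * w)).card ≤ (V S z ∩ V S (z * w)).card * (PP S z (z * w)).card :=
        Nat.mul_le_mul_right _ h2
    _ = (V S z).card * (V S (z * w)).card := by rw [mul_comm, h1]
    _ ≤ N * N := Nat.mul_le_mul h3 h4
    _ = N ^ 2 := by ring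

include h hN hN4 hv in
/-- overlaps of good elements: the injective case -/
theorem Ov_le_z {c : Qt h v} (hc : c ∈ GG h v) {u w : S.G} (hu : pr h v u = c) (hw : w ∈ V S v)
    (huw : u ∉ Bd S w) :
    (Ov h v u w).card ≤ ((V S v \ {1, w}).filter fun z => u * w ∈ PP S z (z * w)).card := by
  have hww : ∀ x, x ∈ V S u → x ∈ V S (u * w) → x = 1 := by
    intro x h1 h2
    have h3 := V_inf h h1 h2
    rw [sq_cancel h] at h3
    exact not_Bd h huw h3 h1
  refine card_le_card_of_forall_subsingleton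
    (fun s z => ∃ y ∈ V S u, pr h v y = s ∧ y * z ∈ V S (u * w)) ?_ ?_
  · intro s hs
    unfold Ov at hs
    rw [mem_inter, mem_sdiff, mem_sdiff, mem_Vb, mem_Vb] at hs
    obtain ⟨⟨⟨y, hy, hys⟩, hsE⟩, ⟨y', hy', hys'⟩, -⟩ := hs
    have hzv : y * y' ∈ V S v := (pr_eq h).1 (hys.trans hys'.symm)
    have hyz : y * (y * y') = y' := sq_cancel h _ _
    unfold E at hsE
    rw [mem_insert, mem_singleton, not_or] at hsE
    have hz1 : y * y' ≠ 1 := by
      intro e
      have e' := eq_of_mul h _ _ e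
      apply hsE.1
      rw [← hys, hww y hy (by rw [e']; exact hy'), map_one]
    have hzw : y * y' ≠ w := by
      intro e
      apply hsE.2
      have h1 : S.neg * u * y ∈ V S u := mul_mem_V h (neg_mul_mem h u) hy
      have h2 : S.neg * u * y ∈ V S (u * w) := by
        have h3 := mul_mem_V h (neg_mul_mem h (u * w)) hy'
        have h4 : S.neg * (u * w) * y' = S.neg * u * y := by
          have h5 : S.neg * (u * w) * y' = S.neg * u * y * (y' * y') := by
            rw [← e]; simp only [mul_comm, mul_left_comm]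
          rw [h5, h.exp2, mul_one]
        rwa [h4] at h3
      have h3 := hww _ h1 h2
      have h4 : S.neg * u = y := eq_of_mul h _ _ h3
      rw [← hys, ← map_mul, h4]
    refine ⟨y * y', mem_filter.2 ⟨mem_sdiff.2 ⟨hzv, ?_⟩, ?_⟩, y, hy, hys, by rw [hyz]; exact hy'⟩
    · rw [mem_insert, mem_singleton, not_or]
      exact ⟨hz1, hzw⟩
    · exact key_rel h hy (by rw [hyz]; exact hy')
  · intro z hz s1 hs1 s2 hs2
    obtain ⟨-, y1, hy1, e1, f1⟩ := hs1
    obtain ⟨-, y2, hy2, e2, f2⟩ := hs2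
    have h1 : y1 * y2 ∈ V S (u * w) := by
      have h2 := mul_mem_V h f1 f2
      have h3 : y1 * z * (y2 * z) = y1 * y2 * (z * z) := by simp only [mul_comm, mul_left_comm]
      rwa [h3, h.exp2, mul_one] at h2
    have h2 := hww _ (mul_mem_V h hy1 hy2) h1
    rw [← e1, ← e2, eq_of_mul h _ _ h2]

include h hN hN4 hv in
theorem Ov_le_N {c : Qt h v} (hc : c ∈ GG h v) {u w : S.G} (hu : pr h v u = c) :
    (Ov h v u w).card ≤ N - 2 := by
  obtain ⟨h1, h2, h3, h4⟩ := GG_prop h hN4 hv hc hu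
  have hcne : c ≠ pr h v S.neg := ((mem_GG h).1 hc).2
  unfold Ov
  refine (card_le_card inter_subset_left).trans ?_
  rw [card_sdiff_of_subset (E_sub h v u), hu, card_E h hcne, card_Vb h h1]
  exact Nat.sub_le_sub_right (hN u h2) _

include h hN hN4 hv1 hv in
/-- the number of overlaps for a fixed `w` -/
theorem sum_Ov {w : S.G} (hw : w ∈ V S v) (hw1 : w ≠ 1) :
    2 * ∑ u ∈ univ.filter (fun u => pr h v u ∈ GG h v), (Ov h v u w).card ≤
      (N - 2) * (N ^ 2 + 2 * (2 + (N - 1) * (N - 2))) := by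
  have h1 : ∑ u ∈ univ.filter (fun u => pr h v u ∈ GG h v), (Ov h v u w).card ≤
      ∑ u : S.G, ((V S v \ {1, w}).filter fun z => u * w ∈ PP S z (z * w)).card +
        ∑ u ∈ Bd S w, (N - 2) := by
    have e1 : ∑ u ∈ Bd S w, (N - 2) = ∑ u : S.G, if u ∈ Bd S w then (N - 2) else 0 := by
      rw [sum_ite_mem, univ_inter]
    rw [e1, ← sum_add_distrib]
    refine (sum_le_sum (g := fun u => ((V S v \ {1, w}).filter
      fun z => u * w ∈ PP S z (z * w)).card + if u ∈ Bd S w then (N - 2) else 0) ?_).trans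
        (sum_le_sum_of_subset (filter_subset _ _))
    intro u hu
    have hu := (mem_filter.1 hu).2
    by_cases hB : u ∈ Bd S w
    · rw [if_pos hB]
      exact (Ov_le_N h hN hN4 hv hu rfl).trans (Nat.le_add_left _ _)
    · rw [if_neg hB]
      exact Ov_le_z h hN hN4 hv hu rfl hw hB
  have h2 : 2 * ∑ u : S.G, ((V S v \ {1, w}).filter fun z => u * w ∈ PP S z (z * w)).card ≤
      (N - 2) * N ^ 2 := by
    rw [double (univ : Finset S.G) (V S v \ {1, w}) (fun u z => u * w ∈ PP S z (z * w)), mul_sum]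
    have hc : (V S v \ {1, w}).card = N - 2 := by
      rw [card_sdiff_of_subset, card_pair hw1.symm, hv]
      intro x hx
      rw [mem_insert, mem_singleton] at hx
      rcases hx with rfl | rfl
      · exact one_mem_V h v
      · exact hw
    rw [← hc, ← smul_eq_mul (a := (V S v \ {1, w}).card), ← sum_const]
    refine sum_le_sum fun z hz => ?_
    rw [mem_sdiff, mem_insert, mem_singleton, not_or] at hz
    refine le_trans (Nat.mul_le_mul_left _ ?_) (card_PP_half h hN hv1 hv hz.1 hw hz.2.1 hz.2.2)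
    refine card_le_card_of_injOn (fun u => u * w) ?_ ?_
    · intro u hu
      exact (mem_filter.1 (mem_coe.1 hu)).2
    · intro a _ b _ hab
      exact mul_right_cancel hab
  have h3 : ∑ u ∈ Bd S w, (N - 2) ≤ (2 + (N - 1) * (N - 2)) * (N - 2) := by
    rw [sum_const, smul_eq_mul]
    exact Nat.mul_le_mul_right _ (card_Bd h hw1 (by omega) hN)
  calc _ ≤ 2 * (∑ u : S.G, ((V S v \ {1, w}).filter fun z => u * w ∈ PP S z (z * w)).card +
        ∑ u ∈ Bd S w, (N - 2)) := Nat.mul_le_mul_left _ h1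
    _ = 2 * ∑ u : S.G, ((V S v \ {1, w}).filter fun z => u * w ∈ PP S z (z * w)).card +
        2 * ∑ u ∈ Bd S w, (N - 2) := by ring
    _ ≤ (N - 2) * N ^ 2 + 2 * ((2 + (N - 1) * (N - 2)) * (N - 2)) :=
        Nat.add_le_add h2 (Nat.mul_le_mul_left _ h3)
    _ = _ := by ring

include h hN hN4 hv1 hv in
/-- **Structures without rigid elements are small.** -/
theorem small_of_no_rigid (hR : ∀ a : S.G, a ≠ 1 → a ≠ S.neg → 4 ≤ (V S a).card) :
    Fintype.card S.G < 4 * N ^ 3 := by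
  by_contra hcon
  push Not at hcon
  have h1 : (GG h v).card * (2 * N * (N - 3)) ≤
      3 * ∑ c ∈ GG h v, ∑ u ∈ cs h v c, ∑ w ∈ (V S v).erase 1, (Ov h v u w).card := by
    rw [mul_sum, ← smul_eq_mul (a := (GG h v).card), ← sum_const]
    exact sum_le_sum fun c hc => good_overlap h hN hN4 hv1 hv hR hc
  have h2 : ∑ c ∈ GG h v, ∑ u ∈ cs h v c, ∑ w ∈ (V S v).erase 1, (Ov h v u w).card =
      ∑ w ∈ (V S v).erase 1, ∑ u ∈ univ.filter (fun u => pr h v u ∈ GG h v),
        (Ov h v u w).card := by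
    rw [sum_comm (s := (V S v).erase 1)]
    rw [← sum_fiberwise_of_maps_to (s := univ.filter (fun u => pr h v u ∈ GG h v))
      (t := GG h v) (g := pr h v) (fun u hu => (mem_filter.1 hu).2)]
    refine sum_congr rfl fun c hc => ?_
    refine sum_congr ?_ fun _ _ => rfl
    ext u
    rw [mem_cs, mem_filter, mem_filter]
    constructor
    · intro e
      exact ⟨⟨mem_univ _, by rw [e]; exact hc⟩, e⟩
    · intro e
      exact e.2
  have h3 : 2 * ∑ w ∈ (V S v).erase 1, ∑ u ∈ univ.filter (fun u => pr h v u ∈ GG h v),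
      (Ov h v u w).card ≤ (N - 1) * ((N - 2) * (N ^ 2 + 2 * (2 + (N - 1) * (N - 2)))) := by
    have hc : ((V S v).erase 1).card = N - 1 := by
      rw [card_erase_of_mem (one_mem_V h v), hv]
    rw [mul_sum]
    refine (sum_le_card_nsmul _ _ ((N - 2) * (N ^ 2 + 2 * (2 + (N - 1) * (N - 2))))
      fun w hw => ?_).trans ?_
    · rw [mem_erase] at hw
      exact sum_Ov h hN hN4 hv1 hv hw.2 hw.1
    · rw [hc, smul_eq_mul]
  rw [h2] at h1
  have h4 : 2 * ((GG h v).card * (2 * N * (N - 3))) ≤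
      3 * ((N - 1) * ((N - 2) * (N ^ 2 + 2 * (2 + (N - 1) * (N - 2))))) := by omega
  have h5 := card_Qt h v
  rw [hv] at h5
  have h6 : 4 * N ^ 2 ≤ Fintype.card (Qt h v) := by
    have : (4 * N ^ 2) * N ≤ Fintype.card (Qt h v) * N := by
      rw [h5]
      calc (4 * N ^ 2) * N = 4 * N ^ 3 := by ring
        _ ≤ _ := hcon
    exact Nat.le_of_mul_le_mul_right this (by omega)
  have h7 := card_GG h v
  have h8 := card_Bd h hv1 (by omega) hN
  have h9 : 4 * N ^ 2 ≤ (GG h v).card + ((2 + (N - 1) * (N - 2)) + 1) := by omega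
  obtain ⟨m, rfl⟩ : ∃ m, N = m + 4 := ⟨N - 4, by omega⟩
  have a1 : m + 4 - 1 = m + 3 := by omega
  have a2 : m + 4 - 2 = m + 2 := by omega
  have a3 : m + 4 - 3 = m + 1 := by omega
  rw [a1, a2] at h9
  rw [a1, a2, a3] at h4
  have h10 := Nat.mul_le_mul_right (2 * (2 * (m + 4) * (m + 1))) h9
  obtain ⟨M, hM⟩ : ∃ M, M = (GG h v).card := ⟨_, rfl⟩
  rw [← hM] at h4 h10
  have h11 : 4 * (m + 4) ^ 2 * (2 * (2 * (m + 4) * (m + 1))) ≤
      3 * ((m + 3) * ((m + 2) * ((m + 4) ^ 2 + 2 * (2 + (m + 3) * (m + 2))))) +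
        (2 + (m + 3) * (m + 2) + 1) * (2 * (2 * (m + 4) * (m + 1))) := by
    calc _ ≤ _ := h10
      _ = 2 * (M * (2 * (m + 4) * (m + 1))) +
          (2 + (m + 3) * (m + 2) + 1) * (2 * (2 * (m + 4) * (m + 1))) := by ring
      _ ≤ _ := Nat.add_le_add_right h4 _
  clear * - h11
  have e1 := Nat.zero_le (m ^ 4)
  have e2 := Nat.zero_le (m ^ 3)
  have e3 := Nat.zero_le (m ^ 2)
  nlinarith

end max

end

end Pool.Agent.Q10.ETC3
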