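import Mathlib
import Pool.Agent.Q10.ETC3.NoRigid

set_option autoImplicit false
set_option linter.unusedSectionVars false
set_option linter.unusedVariables false

/-!
# Structures without rigid elements: the sharper bound
-/

namespace Pool.Agent.Q10.ETC3

open Finset
open Pool.Agent.H315R3.ETC Pool.Agent.TH673.VG Pool.Agent.Q6.EV
open Pool.Agent.Y920.ETC (Hr Bi)

open Classical

noncomputable section

variable {S : QData} (h : IsQuat S) [Fintype S.G]

section max

variable {N : ℕ} (hN : ∀ b : S.G, b ≠ 1 → (V S b).card ≤ N) (hN4 : 4 ≤ N)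
  {v : S.G} (hv1 : v ≠ 1) (hv : (V S v).card = N)

include h hN hN4 hv1 hv in
theorem coset_data (hR : ∀ a : S.G, a ≠ 1 → a ≠ S.neg → 4 ≤ (V S a).card)
    {c : Qt h v} (hc : c ∈ GG h v) :
    ∃ (k : ℕ) (A : Finset (Qt h v)), (k = 4 ∨ 8 ≤ k) ∧ k ≤ N ∧
      (∀ u ∈ cs h v c, Vb h v u \ E h v c ⊆ A) ∧
      (∀ u ∈ cs h v c, k ≤ (Vb h v u \ E h v c).card + 2) ∧ 2 * A.card + 4 ≤ k ^ 2 := by
  have hcne : c ≠ pr h v S.neg := ((mem_GG h).1 hc).2
  have hne : (cs h v c).Nonempty := by
    rw [← card_pos, card_cs, hv]; omega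
  obtain ⟨u, hu, hmin⟩ := exists_min_image (cs h v c) (fun x => (V S x).card) hne
  have hu' : pr h v u = c := (mem_cs h).1 hu
  obtain ⟨huB, hu1, hun, huv⟩ := GG_prop h hN4 hv hc hu'
  obtain ⟨k, hk⟩ : ∃ k, k = (V S u).card := ⟨_, rfl⟩
  obtain ⟨a, ha⟩ := V_pow h u
  rw [← hk] at ha
  have hk4 : 4 ≤ k := by rw [hk]; exact hR u hu1 hun
  have hk48 : k = 4 ∨ 8 ≤ k := by
    have := two_mul_le (a := 4) (m := 2) (by norm_num) ha
    omega
  have hkN : k ≤ N := by rw [hk]; exact hN u hu1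
  obtain ⟨t, ht⟩ : ∃ t, t = S.q v u := ⟨_, rfl⟩
  have ht0 : t ≠ S.zero := by
    intro e
    exact huv (mem_V.2 (ht ▸ e))
  have huX : u ∈ X S t := mem_X.2 ⟨v, by rw [h.qs2, ht]⟩
  have hDD := card_DD_le h huX (M := N) (fun c' hc' => hN c' (by
    rintro rfl
    rw [mem_C, q_one h] at hc'
    exact ht0 hc'.symm))
  rw [← hk] at hDD
  obtain ⟨b, hb⟩ := DD_pow h ⟨u, huX⟩
  obtain ⟨d, hd⟩ := V_pow h v
  rw [hv] at hd
  have hlt : (DD S t).card < k ^ 2 * N := by
    refine lt_of_le_of_lt hDD ?_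
    have h1 : k ≤ k * N := Nat.le_mul_of_pos_right k (by omega)
    obtain ⟨r, hr⟩ : ∃ r, k * N = k + r := ⟨k * N - k, by omega⟩
    have h2 : k * N - k = r := by omega
    rw [h2]
    have h3 : k ^ 2 * N = k * (k * N) := by ring
    rw [h3, hr]
    nlinarith
  have h2DD : 2 * (DD S t).card ≤ k ^ 2 * N := by
    refine two_mul_le hb (n := 2 * a + d) ?_ hlt
    rw [ha, hd]; ring
  have him : ((DD S t).image (pr h v)).card * N ≤ (DD S t).card := by
    have h1 := card_eq_sum_card_fiberwise (f := pr h v) (s := DD S t)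
      (t := (DD S t).image (pr h v)) (fun x hx => mem_coe.2 (mem_image_of_mem _ (mem_coe.1 hx)))
    rw [h1]
    refine (card_nsmul_le_sum _ _ N fun s hs => ?_)
    obtain ⟨x, hx, rfl⟩ := mem_image.1 hs
    rw [← hv, ← card_cs h v (pr h v x)]
    refine card_le_card fun y hy => ?_
    rw [mem_filter]
    refine ⟨?_, (mem_cs h).1 hy⟩
    have h2 : x * y ∈ V S v := (cs_shift h).1 hy
    have h3 : x * y ∈ DD S t := mem_DD.2 ⟨v, mem_X.2 ⟨u, ht.symm⟩, h2⟩
    have h4 := DD_mul h hx h3
    rwa [sq_cancel h] at h4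
  have h2im : 2 * ((DD S t).image (pr h v)).card ≤ k ^ 2 := by
    have : 2 * ((DD S t).image (pr h v)).card * N ≤ k ^ 2 * N := by
      calc 2 * ((DD S t).image (pr h v)).card * N = 2 * (((DD S t).image (pr h v)).card * N) := by
            ring
        _ ≤ 2 * (DD S t).card := Nat.mul_le_mul_left _ him
        _ ≤ _ := h2DD
    exact Nat.le_of_mul_le_mul_right this (by omega)
  have hVsub : ∀ u' ∈ cs h v c, Vb h v u' ⊆ (DD S t).image (pr h v) := by
    intro u' hu'c
    refine image_subset_image fun y hy => ?_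
    refine mem_DD.2 ⟨u', mem_X.2 ⟨v, ?_⟩, hy⟩
    rw [h.qs2, ht, q_cong h, mul_comm, ← cs_shift h, hu']
    exact hu'c
  have hEc : ∀ u' ∈ cs h v c, E h v c ⊆ Vb h v u' := by
    intro u' hu'c
    have := E_sub h v u'
    rwa [(mem_cs h).1 hu'c] at this
  refine ⟨k, (DD S t).image (pr h v) \ E h v c, hk48, hkN,
    fun u' hu'c => sdiff_subset_sdiff (hVsub u' hu'c) subset_rfl, ?_, ?_⟩
  · intro u' hu'c
    obtain ⟨h1, h2, h3, h4⟩ := GG_prop h hN4 hv hc ((mem_cs h).1 hu'c)
    rw [card_sdiff_of_subset (hEc u' hu'c), card_E h hcne, card_Vb h h1]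
    have h5 : k ≤ (V S u').card := by rw [hk]; exact hmin u' hu'c
    omega
  · rw [card_sdiff_of_subset ((hEc u hu).trans (hVsub u hu)), card_E h hcne]
    have h1 := card_le_card ((hEc u hu).trans (hVsub u hu))
    rw [card_E h hcne] at h1
    omega

theorem sum_conv {c : Qt h v} :
    ∑ u ∈ cs h v c, ∑ u' ∈ (cs h v c).erase u,
        ((Vb h v u \ E h v c) ∩ (Vb h v u' \ E h v c)).card =
      ∑ u ∈ cs h v c, ∑ w ∈ (V S v).erase 1, (Ov h v u w).card := by
  refine sum_congr rfl fun x hx => ?_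
  have hx' : pr h v x = c := (mem_cs h).1 hx
  symm
  refine sum_nbij' (fun w => x * w) (fun y => x * y) ?_ ?_ ?_ ?_ ?_
  · intro w hw
    rw [mem_erase] at hw ⊢
    refine ⟨fun e => hw.1 (mul_eq_left.1 e), ?_⟩
    rw [← hx', cs_shift h, sq_cancel h]
    exact hw.2
  · intro y hy
    rw [mem_erase] at hy ⊢
    refine ⟨fun e => hy.1 (eq_of_mul h _ _ e).symm, ?_⟩
    rw [← cs_shift h, hx']
    exact hy.2
  · intro w _
    exact sq_cancel h x w
  · intro y _
    exact sq_cancel h x y
  · intro w _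
    unfold Ov
    rw [hx']

include h hN hN4 hv1 hv in
/-- the case `N = 4` -/
theorem good_overlap4 (hR : ∀ a : S.G, a ≠ 1 → a ≠ S.neg → 4 ≤ (V S a).card) (h4 : N = 4)
    {c : Qt h v} (hc : c ∈ GG h v) :
    4 ≤ ∑ u ∈ cs h v c, ∑ w ∈ (V S v).erase 1, (Ov h v u w).card := by
  obtain ⟨k, A, hk, hkN, hA, hc', hcA⟩ := coset_data h hN hN4 hv1 hv hR hc
  have hcne : c ≠ pr h v S.neg := ((mem_GG h).1 hc).2
  have hk4 : k = 4 := by omega
  subst hk4
  rw [← sum_conv h]
  refine overlap4 (cs h v c) A (fun u' => Vb h v u' \ E h v c) ((card_cs h v c).trans (by omega))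
    hA ?_ (by omega)
  intro u hu
  have h1 := hc' u hu
  obtain ⟨h2, h3, h5, h6⟩ := GG_prop h hN4 hv hc ((mem_cs h).1 hu)
  have hEc : E h v c ⊆ Vb h v u := by
    have := E_sub h v u
    rwa [(mem_cs h).1 hu] at this
  have h7 := hN u h3
  rw [card_sdiff_of_subset hEc, card_E h hcne, card_Vb h h2] at h1 ⊢
  omega

include h hv in
/-- the image of a value group -/
theorem two_Vb_le {w : S.G} (hw : w ∈ V S v) (hwv : w ≠ S.neg * v) :
    2 * (Vb h v w).card ≤ (V S w).card := by
  have h1 := card_eq_sum_card_fiberwise (f := pr h v) (s := V S w)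
    (t := Vb h v w) (fun x hx => mem_coe.2 (mem_image_of_mem _ (mem_coe.1 hx)))
  rw [h1, mul_comm]
  refine (card_nsmul_le_sum _ _ 2 fun s hs => ?_)
  obtain ⟨y, hy, rfl⟩ := (mem_Vb h).1 hs
  have hp1 : S.neg * v * w ∈ V S w := by
    have a1 := neg_mul_mem h w
    have a2 := (V_symm h).1 hw
    have a3 := mul_mem_V h a1 a2
    have : S.neg * w * v = S.neg * v * w := by simp only [mul_comm, mul_left_comm]
    rwa [this] at a3
  have hp2 : S.neg * v * w ∈ V S v := mul_mem_V h (neg_mul_mem h v) hw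
  have hp3 : S.neg * v * w ≠ 1 := fun e => hwv (eq_of_mul h _ _ e).symm
  have hne : y ≠ y * (S.neg * v * w) := fun e => hp3 (by rwa [eq_comm, mul_eq_left] at e)
  rw [← card_pair hne]
  refine card_le_card fun x hx => ?_
  rw [mem_insert, mem_singleton] at hx
  rw [mem_filter]
  rcases hx with rfl | rfl
  · exact ⟨hy, rfl⟩
  · refine ⟨mul_mem_V h hy hp1, ?_⟩
    rw [map_mul, (pr_one h).2 hp2, mul_one]

include h hN hN4 hv1 hv in
/-- the number of bad cosets -/
theorem card_bad_cosets :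
    2 * ((Bd S v).image (pr h v)).card ≤ 2 * N + (N - 2) ^ 2 := by
  obtain ⟨m, hm⟩ := V_pow h v
  rw [hv] at hm
  have hsub : (Bd S v).image (pr h v) ⊆ {1} ∪ ((V S v).erase 1).biUnion fun w =>
      Vb h v w \ {1} := by
    intro s hs
    obtain ⟨y, hy, rfl⟩ := mem_image.1 hs
    obtain ⟨w, hw1, hw, hyw⟩ := mem_Bd.1 hy
    rw [mem_union, mem_singleton, mem_biUnion]
    by_cases h1 : pr h v y = 1
    · exact Or.inl h1
    · right
      refine ⟨w, mem_erase.2 ⟨hw1, hw⟩, mem_sdiff.2 ⟨(mem_Vb h).2 ⟨y, hyw, rfl⟩, ?_⟩⟩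
      rw [mem_singleton]; exact h1
  have h1 := (card_le_card hsub).trans ((card_union_le _ _).trans
    (Nat.add_le_add_left card_biUnion_le _))
  rw [card_singleton] at h1
  have h2 : 2 * ∑ w ∈ (V S v).erase 1, (Vb h v w \ {1}).card ≤
      ∑ w ∈ (V S v).erase 1, ((N - 2) + if w = S.neg * v then N else 0) := by
    rw [mul_sum]
    refine sum_le_sum fun w hw => ?_
    rw [mem_erase] at hw
    rw [card_sdiff_of_subset (singleton_subset_iff.2 (one_mem_Vb h v w)), card_singleton]
    have h3 := hN w hw.1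
    by_cases e : w = S.neg * v
    · rw [if_pos e]
      have h4 := card_Vb_le h v w
      omega
    · rw [if_neg e]
      have h4 := two_Vb_le h hv hw.2 e
      omega
  have h3 : ∑ w ∈ (V S v).erase 1, ((N - 2) + if w = S.neg * v then N else 0) ≤
      (N - 1) * (N - 2) + N := by
    rw [sum_add_distrib, sum_const, card_erase_of_mem (one_mem_V h v), hv, smul_eq_mul]
    refine Nat.add_le_add_left ?_ _
    rw [sum_ite_eq']
    split_ifs
    · exact le_rfl
    · exact Nat.zero_le _
  have h4 := h2.trans h3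
  clear h2 h3
  obtain ⟨a, rfl⟩ : ∃ a, N = a + 2 := ⟨N - 2, by omega⟩
  have e1 : a + 2 - 1 = a + 1 := by omega
  have e2 : a + 2 - 2 = a := by omega
  rw [e1, e2] at h4
  rw [e2]
  nlinarith

theorem good_neg {c : Qt h v} (hc : ∀ u, pr h v u = c → u ∉ Bd S v) (hn1 : (1 : S.G) ∈ Bd S v) :
    c ≠ pr h v S.neg := by
  rintro rfl
  obtain ⟨x, hx1, hx, -⟩ := mem_Bd.1 hn1
  refine hc v ?_ (mem_Bd.2 ⟨x, hx1, hx, (V_symm h).1 hx⟩)
  rw [pr_eq, mul_comm]
  exact neg_mul_mem h v

include h hN hN4 hv1 hv in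
/-- the number of good cosets -/
theorem card_GG' :
    2 * Fintype.card (Qt h v) ≤ 2 * (GG h v).card + (2 * N + (N - 2) ^ 2) := by
  have hsub : (univ : Finset (Qt h v)) ⊆ GG h v ∪ (Bd S v).image (pr h v) := by
    intro c _
    rw [mem_union, mem_image, mem_GG]
    by_cases h2 : ∀ u, pr h v u = c → u ∉ Bd S v
    · exact Or.inl ⟨h2, good_neg h h2 (one_mem_Bd h hN4 hv)⟩
    · push Not at h2
      obtain ⟨u, hu, hB⟩ := h2
      exact Or.inr ⟨u, hB, hu⟩
  have h1 := card_le_card hsub
  rw [card_univ] at h1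
  have h2 := card_union_le (GG h v) ((Bd S v).image (pr h v))
  have h3 := card_bad_cosets h hN hN4 hv1 hv
  omega

include h hN hN4 hv in
/-- overlaps of two good elements -/
theorem Ov_sharp {c : Qt h v} (hc : c ∈ GG h v) {u w : S.G} (hu : pr h v u = c)
    (hw : w ∈ V S v) (hw1 : w ≠ 1) :
    2 * (Ov h v u w).card ≤
      2 * ((V S v \ {1, w}).filter fun z => u * w ∈ PP S z (z * w)).card +
        ((V S u ∩ V S w).erase 1).card * N := by
  obtain ⟨huB, hu1, hun, huv⟩ := GG_prop h hN4 hv hc hu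
  have hcne : c ≠ pr h v S.neg := ((mem_GG h).1 hc).2
  have hprw : pr h v (u * w) = c := by rw [map_mul, hu, (pr_one h).2 hw, mul_one]
  obtain ⟨huwB, -, -, -⟩ := GG_prop h hN4 hv hc hprw
  obtain ⟨K, hK⟩ : ∃ K, K = V S u ∩ V S w := ⟨_, rfl⟩
  obtain ⟨Z, hZ⟩ : ∃ Z : Finset S.G, Z = (V S v).filter fun z => ∃ y ∈ V S u, y * z ∈ V S (u * w) :=
    ⟨_, rfl⟩
  obtain ⟨M, hM⟩ : ∃ M : Finset S.G, M = (V S u).filter fun y => ∃ z ∈ V S v, y * z ∈ V S (u * w) :=
    ⟨_, rfl⟩
  have hww : ∀ x, x ∈ V S u → x ∈ V S (u * w) → x ∈ V S w := by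
    intro x h1 h2
    have h3 := V_inf h h1 h2
    rwa [sq_cancel h] at h3
  -- the size of `M`
  have hMZ : M.card = Z.card * K.card := by
    have hd := double (V S u) (V S v) (fun y z => y * z ∈ V S (u * w))
    have e1 : ∑ y ∈ V S u, ((V S v).filter fun z => y * z ∈ V S (u * w)).card = M.card := by
      rw [hM, card_filter]
      refine sum_congr rfl fun y hy => ?_
      split_ifs with hex
      · obtain ⟨z, hz, hyz⟩ := hex
        rw [card_eq_one]
        refine ⟨z, ?_⟩
        ext z'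
        rw [mem_filter, mem_singleton]
        constructor
        · rintro ⟨hz', hyz'⟩
          have h1 := mul_mem_V h hyz hyz'
          have h2 : y * z * (y * z') = z * z' * (y * y) := by simp only [mul_comm, mul_left_comm]
          rw [h2, h.exp2, mul_one] at h1
          exact (eq_of_mul h _ _ (not_Bd h huwB (mul_mem_V h hz hz') h1)).symm
        · rintro rfl
          exact ⟨hz, hyz⟩
      · rw [card_eq_zero, filter_eq_empty_iff]
        intro z hz hyz
        exact hex ⟨z, hz, hyz⟩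
    have e2 : ∑ z ∈ V S v, ((V S u).filter fun y => y * z ∈ V S (u * w)).card =
        Z.card * K.card := by
      rw [hZ, card_filter, sum_mul]
      refine sum_congr rfl fun z hz => ?_
      split_ifs with hex
      · obtain ⟨y, hy, hyz⟩ := hex
        rw [one_mul]
        refine card_nbij' (fun y' => y * y') (fun y' => y * y') ?_ ?_ ?_ ?_
        · intro y' hy'
          have hy' := mem_filter.1 (mem_coe.1 hy')
          have h1 := mul_mem_V h hyz hy'.2
          have h2 : y * z * (y' * z) = y * y' * (z * z) := by simp only [mul_comm, mul_left_comm]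
          rw [h2, h.exp2, mul_one] at h1
          have h3 := mul_mem_V h hy hy'.1
          rw [hK]
          exact mem_coe.2 (mem_inter.2 ⟨h3, hww _ h3 h1⟩)
        · intro k hk
          have hk := mem_coe.1 hk
          rw [hK, mem_inter] at hk
          refine mem_coe.2 (mem_filter.2 ⟨mul_mem_V h hy hk.1, ?_⟩)
          have h1 := mul_mem_V h hyz (V_inf h hk.1 hk.2)
          have h2 : y * z * k = y * k * z := by simp only [mul_comm, mul_left_comm]
          rwa [h2] at h1
        · intro y' _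
          exact sq_cancel h y y'
        · intro y' _
          exact sq_cancel h y y'
      · rw [zero_mul, card_eq_zero, filter_eq_empty_iff]
        intro y hy hyz
        exact hex ⟨y, hy, hyz⟩
    rw [← e1, hd, e2]
  have hMN : M.card ≤ N := by
    refine le_trans (card_le_card ?_) (hN u hu1)
    rw [hM]
    exact filter_subset _ _
  -- overlaps and `M`
  have hOM : (Ov h v u w).card + 2 ≤ M.card := by
    have h1 : Ov h v u w ∪ E h v c ⊆ M.image (pr h v) := by
      intro s hs
      rw [mem_union] at hs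
      have key : s ∈ Vb h v u → s ∈ Vb h v (u * w) → s ∈ M.image (pr h v) := by
        intro h1 h2
        obtain ⟨y, hy, hys⟩ := (mem_Vb h).1 h1
        obtain ⟨y', hy', hys'⟩ := (mem_Vb h).1 h2
        rw [mem_image]
        refine ⟨y, ?_, hys⟩
        rw [hM, mem_filter]
        exact ⟨hy, y * y', (pr_eq h).1 (hys.trans hys'.symm), by rw [sq_cancel h]; exact hy'⟩
      rcases hs with hs | hs
      · unfold Ov at hs
        rw [mem_inter, mem_sdiff, mem_sdiff] at hs
        exact key hs.1.1 hs.2.1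
      · refine key ?_ ?_
        · have := E_sub h v u
          rw [hu] at this
          exact this hs
        · have := E_sub h v (u * w)
          rw [hprw] at this
          exact this hs
    have h2 : Disjoint (Ov h v u w) (E h v c) := by
      rw [disjoint_left]
      intro s hs hs'
      unfold Ov at hs
      rw [mem_inter, mem_sdiff, hu] at hs
      exact hs.1.2 hs'
    have h3 := (card_le_card h1).trans card_image_le
    rw [card_union_of_disjoint h2, card_E h hcne] at h3
    exact h3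
  -- `Z`
  have hZc : Z.card ≤ 2 + ((V S v \ {1, w}).filter fun z => u * w ∈ PP S z (z * w)).card := by
    have hsub : Z ⊆ {1, w} ∪ (V S v \ {1, w}).filter fun z => u * w ∈ PP S z (z * w) := by
      intro z hz
      rw [hZ, mem_filter] at hz
      obtain ⟨hzv, y, hy, hyz⟩ := hz
      rw [mem_union, mem_filter, mem_sdiff]
      by_cases hz1 : z ∈ ({1, w} : Finset S.G)
      · exact Or.inl hz1
      · exact Or.inr ⟨⟨hzv, hz1⟩, key_rel h hy hyz⟩
    refine (card_le_card hsub).trans ((card_union_le _ _).trans (Nat.add_le_add_right ?_ _))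
    exact card_le_two
  have hKc : ((V S u ∩ V S w).erase 1).card + 1 = K.card := by
    rw [hK]
    exact card_erase_add_one (mem_inter.2 ⟨one_mem_V h u, one_mem_V h w⟩)
  obtain ⟨kk, hkk⟩ : ∃ kk, kk = ((V S u ∩ V S w).erase 1).card := ⟨_, rfl⟩
  rw [← hkk] at hKc ⊢
  obtain ⟨cc, hcc⟩ : ∃ cc, cc = ((V S v \ {1, w}).filter
    fun z => u * w ∈ PP S z (z * w)).card := ⟨_, rfl⟩
  rw [← hcc] at hZc ⊢
  rw [hMZ, ← hKc] at hOM hMN
  -- arithmetic
  rcases Nat.eq_zero_or_pos kk with h0 | h0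
  · subst h0
    omega
  · have h2Z : 2 * Z.card ≤ N := by
      refine le_trans ?_ hMN
      rw [mul_comm]
      exact Nat.mul_le_mul_left _ (by omega)
    have h3 : 2 * (kk * Z.card) ≤ kk * N := by
      calc 2 * (kk * Z.card) = kk * (2 * Z.card) := by ring
        _ ≤ kk * N := Nat.mul_le_mul_left _ h2Z
    have h4 : Z.card * (kk + 1) = kk * Z.card + Z.card := by ring
    omega

include h hN hN4 hv1 hv in
/-- the number of common elements -/
theorem sum_common {w : S.G} (hw : w ∈ V S v) (hw1 : w ≠ 1) :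
    ∑ u ∈ univ.filter (fun u => pr h v u ∈ GG h v), ((V S u ∩ V S w).erase 1).card ≤
      (N - 2) * (N - 2) := by
  have h1 := double (univ.filter (fun u => pr h v u ∈ GG h v)) ((V S w).erase 1)
    (fun u x => x ∈ V S u)
  have h2 : ∀ u, (V S u ∩ V S w).erase 1 = ((V S w).erase 1).filter fun x => x ∈ V S u := by
    intro u
    ext x
    simp only [mem_erase, mem_inter, mem_filter]
    tauto
  rw [sum_congr rfl (fun u _ => by rw [h2 u]), h1]
  have hvw : v ∈ (V S w).erase 1 := mem_erase.2 ⟨hv1, (V_symm h).1 hw⟩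
  rw [← add_sum_erase _ _ hvw]
  have h0 : ((univ.filter (fun u => pr h v u ∈ GG h v)).filter fun u => v ∈ V S u).card = 0 := by
    rw [card_eq_zero, filter_eq_empty_iff]
    intro u hu hvu
    obtain ⟨-, -, -, h4⟩ := GG_prop h hN4 hv (mem_filter.1 hu).2 rfl
    exact h4 ((V_symm h).1 hvu)
  rw [h0, zero_add]
  refine (sum_le_card_nsmul _ _ (N - 2) fun x hx => ?_).trans ?_
  · rw [mem_erase, mem_erase] at hx
    have hsub : (univ.filter (fun u => pr h v u ∈ GG h v)).filter (fun u => x ∈ V S u) ⊆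
        V S x \ {1, w} := by
      intro u hu
      rw [mem_filter, mem_filter] at hu
      obtain ⟨-, h3, -, h4⟩ := GG_prop h hN4 hv hu.1.2 rfl
      rw [mem_sdiff, mem_insert, mem_singleton, not_or]
      refine ⟨(V_symm h).1 hu.2, h3, ?_⟩
      rintro rfl
      exact h4 hw
    refine (card_le_card hsub).trans ?_
    rw [card_sdiff_of_subset, card_pair hw1.symm]
    · exact Nat.sub_le_sub_right (hN x hx.2.1) _
    · intro y hy
      rw [mem_insert, mem_singleton] at hy
      rcases hy with rfl | rfl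
      · exact one_mem_V h x
      · exact (V_symm h).1 hx.2.2
  · rw [smul_eq_mul]
    refine Nat.mul_le_mul_right _ ?_
    rw [card_erase_of_mem hvw, card_erase_of_mem (one_mem_V h w)]
    have := hN w hw1
    omega

include h hN hN4 hv1 hv in
/-- the number of overlaps for a fixed `w`, sharper -/
theorem sum_Ov' {w : S.G} (hw : w ∈ V S v) (hw1 : w ≠ 1) :
    2 * ∑ u ∈ univ.filter (fun u => pr h v u ∈ GG h v), (Ov h v u w).card ≤
      (N - 2) * N ^ 2 + (N - 2) * (N - 2) * N := by
  have h2 : 2 * ∑ u : S.G, ((V S v \ {1, w}).filter fun z => u * w ∈ PP S z (z * w)).card ≤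
      (N - 2) * N ^ 2 := by
    rw [double (univ : Finset S.G) (V S v \ {1, w}) (fun u z => u * w ∈ PP S z (z * w)), mul_sum]
    have hc : (V S v \ {1, w}).card = N - 2 := by
      rw [card_sdiff_of_subset, card_pair hw1.symm, hv]
      intro x hx
      rw [mem_insert, mem_singleton] at hx
      rcases hx with rfl | rfl
      · exact one_mem_V h v
      · exact hw
    rw [← hc, ← smul_eq_mul (a := (V S v \ {1, w}).card), ← sum_const]
    refine sum_le_sum fun z hz => ?_
    rw [mem_sdiff, mem_insert, mem_singleton, not_or] at hz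
    refine le_trans (Nat.mul_le_mul_left _ ?_) (card_PP_half h hN hv1 hv hz.1 hw hz.2.1 hz.2.2)
    refine card_le_card_of_injOn (fun u => u * w) ?_ ?_
    · intro u hu
      exact (mem_filter.1 (mem_coe.1 hu)).2
    · intro a _ b _ hab
      exact mul_right_cancel hab
  have h3 := sum_common h hN hN4 hv1 hv hw hw1
  calc _ = ∑ u ∈ univ.filter (fun u => pr h v u ∈ GG h v), 2 * (Ov h v u w).card := by
        rw [mul_sum]
    _ ≤ ∑ u ∈ univ.filter (fun u => pr h v u ∈ GG h v),
        (2 * ((V S v \ {1, w}).filter fun z => u * w ∈ PP S z (z * w)).card +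
          ((V S u ∩ V S w).erase 1).card * N) := sum_le_sum fun u hu =>
            Ov_sharp h hN hN4 hv (mem_filter.1 hu).2 rfl hw hw1
    _ = 2 * ∑ u ∈ univ.filter (fun u => pr h v u ∈ GG h v),
          ((V S v \ {1, w}).filter fun z => u * w ∈ PP S z (z * w)).card +
        (∑ u ∈ univ.filter (fun u => pr h v u ∈ GG h v), ((V S u ∩ V S w).erase 1).card) * N := by
        rw [sum_add_distrib, mul_sum, sum_mul]
    _ ≤ (N - 2) * N ^ 2 + (N - 2) * (N - 2) * N := by
        refine Nat.add_le_add (le_trans (Nat.mul_le_mul_left _ ?_) h2) (Nat.mul_le_mul_right _ h3)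
        exact sum_le_sum_of_subset (filter_subset _ _)

include h hN hN4 hv1 hv in
/-- **Structures without rigid elements are small.** -/
theorem small_of_no_rigid' (hR : ∀ a : S.G, a ≠ 1 → a ≠ S.neg → 4 ≤ (V S a).card) :
    Fintype.card S.G < 2 * N ^ 3 := by
  by_contra hcon
  push Not at hcon
  obtain ⟨T, hT⟩ : ∃ T, T = ∑ c ∈ GG h v, ∑ u ∈ cs h v c, ∑ w ∈ (V S v).erase 1,
    (Ov h v u w).card := ⟨_, rfl⟩
  have h2 : T = ∑ w ∈ (V S v).erase 1, ∑ u ∈ univ.filter (fun u => pr h v u ∈ GG h v),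
        (Ov h v u w).card := by
    rw [hT, sum_comm (s := (V S v).erase 1)]
    rw [← sum_fiberwise_of_maps_to (s := univ.filter (fun u => pr h v u ∈ GG h v))
      (t := GG h v) (g := pr h v) (fun u hu => (mem_filter.1 hu).2)]
    refine sum_congr rfl fun c hc => ?_
    refine sum_congr ?_ fun _ _ => rfl
    ext u
    rw [mem_cs, mem_filter, mem_filter]
    constructor
    · intro e
      exact ⟨⟨mem_univ _, by rw [e]; exact hc⟩, e⟩
    · intro e
      exact e.2
  have h3 : 2 * T ≤ (N - 1) * ((N - 2) * N ^ 2 + (N - 2) * (N - 2) * N) := by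
    have hc : ((V S v).erase 1).card = N - 1 := by
      rw [card_erase_of_mem (one_mem_V h v), hv]
    rw [h2, mul_sum]
    refine (sum_le_card_nsmul _ _ ((N - 2) * N ^ 2 + (N - 2) * (N - 2) * N)
      fun w hw => ?_).trans ?_
    · rw [mem_erase] at hw
      exact sum_Ov' h hN hN4 hv1 hv hw.2 hw.1
    · rw [hc, smul_eq_mul]
  have h5 := card_Qt h v
  rw [hv] at h5
  have h6 : 2 * N ^ 2 ≤ Fintype.card (Qt h v) := by
    have : (2 * N ^ 2) * N ≤ Fintype.card (Qt h v) * N := by
      rw [h5]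
      calc (2 * N ^ 2) * N = 2 * N ^ 3 := by ring
        _ ≤ _ := hcon
    exact Nat.le_of_mul_le_mul_right this (by omega)
  have h7 := card_GG' h hN hN4 hv1 hv
  obtain ⟨m, hm⟩ := V_pow h v
  rw [hv] at hm
  by_cases hN4' : N = 4
  · have h8 : (GG h v).card * 4 ≤ T := by
      rw [hT]
      exact card_nsmul_le_sum _ _ 4 fun c hc => good_overlap4 h hN hN4 hv1 hv hR hN4' hc
    subst hN4'
    norm_num at h3 h6 h7
    omega
  · have hN8 : 8 ≤ N := by
      have := two_mul_le (a := 4) (m := 2) (by norm_num) hm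
      omega
    have h1 : (GG h v).card * (2 * N * (N - 3)) ≤ 3 * T := by
      rw [hT, mul_sum, ← smul_eq_mul (a := (GG h v).card), ← sum_const]
      exact sum_le_sum fun c hc => good_overlap h hN hN4 hv1 hv hR hc
    clear * - h1 h3 h6 h7 hN8
    obtain ⟨G, hG⟩ : ∃ G, G = (GG h v).card := ⟨_, rfl⟩
    rw [← hG] at h1 h7
    obtain ⟨a, rfl⟩ : ∃ a, N = a + 8 := ⟨N - 8, by omega⟩
    have e1 : a + 8 - 1 = a + 7 := by omega
    have e2 : a + 8 - 2 = a + 6 := by omega
    have e3 : a + 8 - 3 = a + 5 := by omega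
    rw [e1, e2] at h3
    rw [e2] at h7
    rw [e3] at h1
    have h8 : 4 * (a + 8) ^ 2 ≤ 2 * G + (2 * (a + 8) + (a + 6) ^ 2) := by omega
    have h9 := Nat.mul_le_mul_right (2 * (a + 8) * (a + 5)) h8
    have h10 : 4 * (a + 8) ^ 2 * (2 * (a + 8) * (a + 5)) ≤
        3 * ((a + 7) * ((a + 6) * (a + 8) ^ 2 + (a + 6) * (a + 6) * (a + 8))) +
          (2 * (a + 8) + (a + 6) ^ 2) * (2 * (a + 8) * (a + 5)) := by
      calc _ ≤ _ := h9
        _ = 2 * (G * (2 * (a + 8) * (a + 5))) +
            (2 * (a + 8) + (a + 6) ^ 2) * (2 * (a + 8) * (a + 5)) := by ring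
        _ ≤ 2 * (3 * T) + (2 * (a + 8) + (a + 6) ^ 2) * (2 * (a + 8) * (a + 5)) :=
            Nat.add_le_add_right (Nat.mul_le_mul_left _ h1) _
        _ = 3 * (2 * T) + (2 * (a + 8) + (a + 6) ^ 2) * (2 * (a + 8) * (a + 5)) := by ring
        _ ≤ _ := Nat.add_le_add_right (Nat.mul_le_mul_left _ h3) _
    clear * - h10
    have f1 := Nat.zero_le (a ^ 4)
    have f2 := Nat.zero_le (a ^ 3)
    have f3 := Nat.zero_le (a ^ 2)
    nlinarith

end max

end

end Pool.Agent.Q10.ETC3
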