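import Mathlib
import Pool.Agent.Q10.ETC3.Base

set_option autoImplicit false
set_option linter.unusedSectionVars false
set_option linter.unusedVariables false

/-!
# Structures with a rigid element
-/

namespace Pool.Agent.Q10.ETC3

open Finset
open Pool.Agent.H315R3.ETC Pool.Agent.TH673.VG Pool.Agent.Q6.EV
open Pool.Agent.Y920.ETC (Hr Bi)

open Classical

noncomputable section

/-- the rigid elements -/
def RR (S : QData) [Fintype S.G] : Finset S.G := univ.filter fun y => y ≠ 1 ∧ y ≠ S.neg ∧ Hr S y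

variable {S : QData} (h : IsQuat S) [Fintype S.G]

theorem mem_RR {y : S.G} : y ∈ RR S ↔ y ≠ 1 ∧ y ≠ S.neg ∧ Hr S y := by simp [RR]

theorem V_RR {x z : S.G} (hx : x ∈ RR S) (hz : z ∈ V S x) : z = 1 ∨ z = S.neg * x :=
  hr_iff (mem_RR.1 hx).2.2 hz

include h in
theorem PP_mul {a b x y : S.G} (hx : x ∈ PP S a b) (hy : y ∈ PP S a b) : x * y ∈ PP S a b := by
  obtain ⟨u, hu, v, hv, rfl⟩ := mem_PP.1 hx
  obtain ⟨u', hu', v', hv', rfl⟩ := mem_PP.1 hy
  exact mem_PP.2 ⟨u * u', mul_mem_V h hu hu', v * v', mul_mem_V h hv hv', by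
    simp only [mul_comm, mul_left_comm]⟩

include h in
/-- the value group of `q(x,y)` for `x` rigid -/
theorem DD_rigid {x y z : S.G} (hx : x ∈ RR S) (hz : z ∈ DD S (S.q x y)) :
    z ∈ PP S x y ∨ z ∈ PP S x (S.neg * x * y) := by
  obtain ⟨c, hc, hzc⟩ := DD_sub h (mem_X.2 ⟨y, rfl⟩) hz
  rw [mem_C, q_cong h] at hc
  rcases V_RR hx hc with h1 | h1
  · rw [eq_of_mul h _ _ h1] at hzc
    exact Or.inl hzc
  · right
    have : c = S.neg * x * y := by
      rw [← h1, mul_right_cancel' h]
    rwa [this] at hzc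

include h in
theorem rig_split {x : S.G} (hx : x ∈ RR S) (y : S.G) :
    PP S x y ⊆ PP S x (S.neg * x * y) ∨ PP S x (S.neg * x * y) ⊆ PP S x y := by
  by_contra hcon
  rw [not_or, not_subset, not_subset] at hcon
  obtain ⟨⟨a, ha, ha'⟩, ⟨b, hb, hb'⟩⟩ := hcon
  have h1 : a ∈ DD S (S.q x y) := PP_sub h (mem_C.2 rfl) ha
  have h2 : b ∈ DD S (S.q x y) := PP_sub h (mem_C.2 (by
    rw [mul_assoc, ← mul_assoc]
    exact q_shift h _ (h.qs1 x))) hb
  rcases DD_rigid h hx (DD_mul h h1 h2) with h3 | h3
  · apply hb'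
    have := PP_mul h ha h3
    rwa [sq_cancel h] at this
  · apply ha'
    have := PP_mul h h3 hb
    rwa [mul_right_cancel' h] at this

include h in
theorem half {x a b : S.G} (hx : x ∈ RR S) (hs : V S a ⊆ PP S x b) :
    (V S a).card ≤ 2 * (V S a ∩ V S b).card := by
  by_cases hsub : V S a ⊆ V S b
  · rw [inter_eq_left.2 hsub]; omega
  rw [not_subset] at hsub
  obtain ⟨z0, h0, h0'⟩ := hsub
  have key : ∀ z ∈ V S a, z ∉ V S b → z0 * z ∈ V S b := by
    have aux : ∀ z ∈ V S a, z ∉ V S b → S.neg * x * z ∈ V S b := by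
      intro z hz hz'
      obtain ⟨u, hu, v, hv, rfl⟩ := mem_PP.1 (hs hz)
      rcases V_RR hx hu with rfl | rfl
      · rw [one_mul] at hz'
        exact absurd hv hz'
      · rwa [sq_cancel h]
    intro z hz hz'
    have h1 := mul_mem_V h (aux z0 h0 h0') (aux z hz hz')
    have h2 : S.neg * x * z0 * (S.neg * x * z) = z0 * z * ((S.neg * x) * (S.neg * x)) := by
      simp only [mul_comm, mul_left_comm]
    rwa [h2, h.exp2, mul_one] at h1
  have hsub2 : V S a ⊆ (V S a ∩ V S b) ∪ (V S a ∩ V S b).image (fun z => z0 * z) := by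
    intro z hz
    rw [mem_union, mem_image]
    by_cases hzb : z ∈ V S b
    · exact Or.inl (mem_inter.2 ⟨hz, hzb⟩)
    · exact Or.inr ⟨z0 * z, mem_inter.2 ⟨mul_mem_V h h0 hz, key z hz hzb⟩, sq_cancel h _ _⟩
  have := card_le_card hsub2
  refine this.trans ((card_union_le _ _).trans ?_)
  have := card_image_le (s := V S a ∩ V S b) (f := fun z => z0 * z)
  omega

include h in
theorem exists_ne_one {a b : S.G} (hc : 4 ≤ (V S a).card)
    (hh : (V S a).card ≤ 2 * (V S a ∩ V S b).card) : ∃ z, z ≠ 1 ∧ z ∈ V S a ∧ z ∈ V S b := by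
  by_contra hcon
  push Not at hcon
  have hsub : V S a ∩ V S b ⊆ {1} := by
    intro z hz
    rw [mem_inter] at hz
    rw [mem_singleton]
    by_contra hz1
    exact hcon z hz1 hz.1 hz.2
  have := card_le_card hsub
  rw [card_singleton] at this
  omega

include h in
/-- elements in general position to a rigid element -/
theorem claim1 {x y : S.G} (hx : x ∈ RR S) (hB : y ∉ Bd S (S.neg * x)) (hn : y ≠ S.neg)
    (hyx : y ≠ x) : y ∈ RR S ∨ S.neg * x * y ∈ RR S := by
  have hx1 := (mem_RR.1 hx).1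
  have hxV : x ∈ V S (S.neg * x) := (V_symm h).1 (neg_mul_mem h x)
  have hone : ∀ z, z ∈ V S y → z ∈ V S (S.neg * x * y) → z = 1 := by
    intro z h1 h2
    have h3 := V_inf h h2 h1
    rw [mul_right_cancel' h] at h3
    exact not_Bd h hB h3 h1
  have hcard1 : (V S y ∩ V S (S.neg * x * y)).card ≤ 1 := by
    rw [card_le_one]
    intro a ha b hb
    rw [mem_inter] at ha hb
    rw [hone a ha.1 ha.2, hone b hb.1 hb.2]
  rcases rig_split h hx y with h1 | h1
  · left
    have h2 := half h hx ((V_sub_PP_right h x y).trans h1)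
    refine mem_RR.2 ⟨?_, hn, hr_of_le h (by omega) hn⟩
    rintro rfl
    exact hB (mem_Bd.2 ⟨x, hx1, hxV, one_mem_V h x⟩)
  · right
    have h2 := half h hx ((V_sub_PP_right h x _).trans h1)
    rw [inter_comm] at h2
    have h3 : S.neg * x * y ≠ S.neg := by
      intro e
      apply hyx
      rw [mul_assoc] at e
      exact (eq_of_mul h _ _ (mul_eq_left.1 e)).symm
    refine mem_RR.2 ⟨?_, h3, hr_of_le h (by omega) h3⟩
    intro e
    have e' : y = S.neg * x := (eq_of_mul h _ _ e).symm
    exact hB (mem_Bd.2 ⟨x, hx1, hxV, by rw [e']; exact neg_mul_mem h x⟩)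

/-- the defect -/
def df (S : QData) [Fintype S.G] (a : S.G) : ℕ := ((RR S).filter fun y => a * y ∉ RR S).card

theorem df_mul (a b : S.G) : df S (a * b) ≤ df S a + df S b := by
  have hsub : ((RR S).filter fun y => a * b * y ∉ RR S) ⊆
      ((RR S).filter fun y => b * y ∉ RR S) ∪
        ((RR S).filter fun y => b * y ∈ RR S ∧ a * b * y ∉ RR S) := by
    intro y hy
    rw [mem_filter] at hy
    rw [mem_union, mem_filter, mem_filter]
    by_cases hb : b * y ∈ RR S
    · exact Or.inr ⟨hy.1, hb, hy.2⟩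
    · exact Or.inl ⟨hy.1, hb⟩
  have h1 := card_le_card hsub
  have h2 : ((RR S).filter fun y => b * y ∈ RR S ∧ a * b * y ∉ RR S).card ≤ df S a := by
    refine card_le_card_of_injOn (fun y => b * y) ?_ ?_
    · intro y hy
      have hy := mem_filter.1 (mem_coe.1 hy)
      refine mem_coe.2 (mem_filter.2 ⟨hy.2.1, ?_⟩)
      rw [← mul_assoc]
      exact hy.2.2
    · intro u _ w _ huw
      exact mul_left_cancel huw
  have h3 : df S b = ((RR S).filter fun y => b * y ∉ RR S).card := rfl
  have h4 := card_union_le ((RR S).filter fun y => b * y ∉ RR S)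
    ((RR S).filter fun y => b * y ∈ RR S ∧ a * b * y ∉ RR S)
  unfold df at *
  omega

section main

variable {N : ℕ} (hN2 : 2 ≤ N) (hN : ∀ b : S.G, b ≠ 1 → (V S b).card ≤ N)
  (hno : ∀ a : S.G, ¬ Bi S a)

include hno in
theorem RR_neg {y : S.G} (hy : y ∈ RR S) : S.neg * y ∉ RR S := by
  intro hc
  rw [mem_RR] at hy hc
  exact hno y ⟨hy.1, hy.2.1, hy.2.2, hc.2.2⟩

include h hN2 hN in
theorem card_Bd' {x : S.G} (hx : x ∈ RR S) :
    (Bd S (S.neg * x)).card ≤ 2 + (N - 1) * (N - 2) := by
  refine card_Bd h (fun e => ?_) hN2 hN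
  exact (mem_RR.1 hx).2.1 (eq_of_mul h _ _ e).symm

include h hN2 hN in
theorem card_ge {x : S.G} (hx : x ∈ RR S) :
    Fintype.card S.G ≤ 2 * (RR S).card + (4 + (N - 1) * (N - 2)) := by
  have hsub : (univ : Finset S.G) ⊆
      (RR S ∪ (RR S).image (fun z => S.neg * x * z)) ∪ (Bd S (S.neg * x) ∪ {S.neg, x}) := by
    intro y _
    rw [mem_union, mem_union, mem_union, mem_image, mem_insert, mem_singleton]
    by_contra hcon
    rw [not_or, not_or, not_or, not_or] at hcon
    obtain ⟨⟨h1, h2⟩, h3, h4, h5⟩ := hcon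
    rcases claim1 h hx h3 h4 h5 with h6 | h6
    · exact h1 h6
    · exact h2 ⟨_, h6, sq_cancel h _ _⟩
  have h1 := card_le_card hsub
  rw [card_univ] at h1
  have h2 := card_union_le (RR S ∪ (RR S).image (fun z => S.neg * x * z))
    (Bd S (S.neg * x) ∪ {S.neg, x})
  have h3 := card_union_le (RR S) ((RR S).image (fun z => S.neg * x * z))
  have h4 := card_union_le (Bd S (S.neg * x)) {S.neg, x}
  have h5 := card_Bd' h hN2 hN hx
  have h6 := card_image_le (s := RR S) (f := fun z => S.neg * x * z)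
  have h7 : ({S.neg, x} : Finset S.G).card ≤ 2 := card_le_two
  omega

include h hN2 hN hno in
theorem df_RR {x : S.G} (hx : x ∈ RR S) : df S x ≤ 4 + (N - 1) * (N - 2) := by
  have hsub : ((RR S).filter fun y => x * y ∉ RR S) ⊆
      (Bd S (S.neg * x) ∪ {x}).image (fun z => S.neg * z) := by
    intro y hy
    rw [mem_filter] at hy
    rw [mem_image]
    refine ⟨S.neg * y, ?_, nn h y⟩
    rw [mem_union, mem_singleton]
    by_contra hcon
    rw [not_or] at hcon
    rcases claim1 h hx hcon.1 (fun e => (mem_RR.1 hy.1).1 (mul_eq_left.1 e)) hcon.2 with h1 | h1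
    · exact RR_neg hno hy.1 h1
    · apply hy.2
      have : S.neg * x * (S.neg * y) = x * y * (S.neg * S.neg) := by
        simp only [mul_comm, mul_left_comm]
      rwa [this, h.exp2, mul_one] at h1
  have h1 := (card_le_card hsub).trans (card_image_le.trans (card_union_le _ _))
  have h2 := card_Bd' h hN2 hN hx
  rw [card_singleton] at h1
  unfold df
  omega

variable (hg : 9 * (4 + (N - 1) * (N - 2)) < Fintype.card S.G)

/-- the elements with small defect -/
def TT (S : QData) [Fintype S.G] (N : ℕ) : Finset S.G :=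
  univ.filter fun a => df S a ≤ 2 * (4 + (N - 1) * (N - 2))

theorem mem_TT {a : S.G} : a ∈ TT S N ↔ df S a ≤ 2 * (4 + (N - 1) * (N - 2)) := by simp [TT]

include h hN2 hN hg in
theorem card_RR {r : S.G} (hr : r ∈ RR S) : 4 * (4 + (N - 1) * (N - 2)) < (RR S).card := by
  have := card_ge h hN2 hN hr
  omega

include h hN2 hN hno in
theorem RR_sub {x : S.G} (hx : x ∈ RR S) : x ∈ TT S N := by
  have := df_RR h hN2 hN hno hx
  rw [mem_TT]
  omega

include h hN2 hN hno hg in
theorem TT_mul {r : S.G} (hr : r ∈ RR S) {a b : S.G} (ha : a ∈ TT S N) (hb : b ∈ TT S N) :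
    a * b ∈ TT S N := by
  rw [mem_TT] at ha hb
  have h1 := df_mul a b
  have h2 := card_RR h hN2 hN hg hr
  have h3 : ∃ y ∈ RR S, a * b * y ∈ RR S := by
    by_contra hcon
    push Not at hcon
    have : ((RR S).filter fun y => a * b * y ∉ RR S) = RR S := filter_true_of_mem hcon
    unfold df at *
    rw [this] at h1
    omega
  obtain ⟨y, hy, hy'⟩ := h3
  have h4 : a * b = (a * b * y) * y := (mul_right_cancel' h _ _).symm
  rw [h4, mem_TT]
  have h5 := df_mul (a * b * y) y
  have h6 := df_RR h hN2 hN hno hy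
  have h7 := df_RR h hN2 hN hno hy'
  omega

include h hN2 hN hno hg in
theorem neg_notin {r : S.G} (hr : r ∈ RR S) : S.neg ∉ TT S N := by
  rw [mem_TT]
  have : ((RR S).filter fun y => S.neg * y ∉ RR S) = RR S :=
    filter_true_of_mem fun y hy => RR_neg hno hy
  unfold df
  rw [this]
  have := card_RR h hN2 hN hg hr
  omega

include h hN2 hN hno hg in
theorem TT_neg {r : S.G} (hr : r ∈ RR S) {a : S.G} (ha : a ∈ TT S N) : S.neg * a ∉ TT S N := by
  intro hc
  apply neg_notin h hN2 hN hno hg hr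
  have := TT_mul h hN2 hN hno hg hr hc ha
  rwa [mul_right_cancel' h] at this

include h hN2 hN hno hg in
theorem TT_or {r : S.G} (hr : r ∈ RR S) (y : S.G) : y ∈ TT S N ∨ S.neg * y ∈ TT S N := by
  obtain ⟨A, hA⟩ : ∃ A, A = RR S ∪ (RR S).image (fun z => S.neg * z) := ⟨_, rfl⟩
  have hAc : A.card = 2 * (RR S).card := by
    rw [hA, card_union_of_disjoint, card_image_of_injective _ (mul_right_injective S.neg)]
    · ring
    · rw [disjoint_left]
      intro z hz hz'
      rw [mem_image] at hz'
      obtain ⟨w, hw, rfl⟩ := hz'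
      exact RR_neg hno hw hz
  have hge := card_ge h hN2 hN hr
  have hco : (univ \ A).card ≤ 4 + (N - 1) * (N - 2) := by
    rw [card_sdiff_of_subset (subset_univ _), card_univ]
    omega
  have hmem : ∀ a ∈ A, a ∈ TT S N ∨ S.neg * a ∈ TT S N := by
    intro a ha
    rw [hA, mem_union, mem_image] at ha
    rcases ha with ha | ⟨w, hw, rfl⟩
    · exact Or.inl (RR_sub h hN2 hN hno ha)
    · right
      rw [nn h]
      exact RR_sub h hN2 hN hno hw
  have hex : ∃ a, a ∈ A ∧ y * a ∈ A := by
    by_contra hcon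
    push Not at hcon
    have hsub : (univ : Finset S.G) ⊆ (univ \ A) ∪ (univ \ A).image (fun z => y * z) := by
      intro a _
      rw [mem_union, mem_image]
      by_cases ha : a ∈ A
      · right
        refine ⟨y * a, mem_sdiff.2 ⟨mem_univ _, hcon a ha⟩, sq_cancel h _ _⟩
      · exact Or.inl (mem_sdiff.2 ⟨mem_univ _, ha⟩)
    have h1 := (card_le_card hsub).trans ((card_union_le _ _).trans
      (Nat.add_le_add_left card_image_le _))
    rw [card_univ] at h1
    omega
  obtain ⟨a, ha, hya⟩ := hex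
  have hy : y = a * (y * a) := by
    rw [mul_comm y a, sq_cancel h]
  rcases hmem a ha with h1 | h1 <;> rcases hmem _ hya with h2 | h2
  · left
    have := TT_mul h hN2 hN hno hg hr h1 h2
    rwa [← hy] at this
  · right
    have := TT_mul h hN2 hN hno hg hr h1 h2
    have e : a * (S.neg * (y * a)) = S.neg * y := by
      have : a * (S.neg * (y * a)) = S.neg * y * (a * a) := by simp only [mul_comm, mul_left_comm]
      rw [this, h.exp2, mul_one]
    rwa [e] at this
  · right
    have := TT_mul h hN2 hN hno hg hr h1 h2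
    have e : S.neg * a * (y * a) = S.neg * y := by
      have : S.neg * a * (y * a) = S.neg * y * (a * a) := by simp only [mul_comm, mul_left_comm]
      rw [this, h.exp2, mul_one]
    rwa [e] at this
  · left
    have := TT_mul h hN2 hN hno hg hr h1 h2
    have e : S.neg * a * (S.neg * (y * a)) = y := by
      have : S.neg * a * (S.neg * (y * a)) = y * (a * a) * (S.neg * S.neg) := by
        simp only [mul_comm, mul_left_comm]
      rw [this, h.exp2, h.exp2, mul_one, mul_one]
    rwa [e] at this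

include h hN2 hN hno hg in
theorem four_le {y : S.G} (hy : y ∉ TT S N) (hyn : y ≠ S.neg) : 4 ≤ (V S y).card := by
  by_contra hcon
  push Not at hcon
  have hr := hr_of_le h (a := y) (by omega) hyn
  apply hy
  refine RR_sub h hN2 hN hno (mem_RR.2 ⟨?_, hyn, hr⟩)
  rintro rfl
  apply hy
  rw [mem_TT]
  have : ((RR S).filter fun y => 1 * y ∉ RR S) = ∅ := by
    rw [filter_eq_empty_iff]
    intro y hy hc
    rw [one_mul] at hc
    exact hc hy
  unfold df
  rw [this, card_empty]
  exact Nat.zero_le _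

include h hN2 hN hno hg in
/-- many pairs of rigid elements -/
theorem card_M {r : S.G} (hr : r ∈ RR S) {y : S.G} (hy : y ∉ TT S N) :
    3 + (N - 1) * (N - 2) < ((RR S).filter fun x => S.neg * x * y ∈ RR S).card := by
  have h1 : S.neg * y ∈ TT S N := (TT_or h hN2 hN hno hg hr y).resolve_left hy
  rw [mem_TT] at h1
  have h2 : ((RR S).filter fun x => S.neg * x * y ∈ RR S).card + df S (S.neg * y) =
      (RR S).card := by
    rw [← card_filter_add_card_filter_not (s := RR S) (fun x => S.neg * x * y ∈ RR S)]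
    unfold df
    congr 2
    refine filter_congr fun x _ => ?_
    have : S.neg * y * x = S.neg * x * y := by simp only [mul_comm, mul_left_comm]
    rw [this]
  have h3 := card_ge h hN2 hN hr
  omega

include h hN2 hN hno hg in
theorem V_sub_TT {r : S.G} (hr : r ∈ RR S) {y : S.G} (hy : y ∉ TT S N) (hyn : y ≠ S.neg) {v : S.G}
    (hv : v ∈ V S y) : v ∈ TT S N := by
  by_contra hvT
  have hy1 : y ≠ 1 := by
    rintro rfl
    apply hy
    have := TT_mul h hN2 hN hno hg hr (RR_sub h hN2 hN hno hr) (RR_sub h hN2 hN hno hr)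
    rwa [h.exp2] at this
  have hM := card_M h hN2 hN hno hg hr hy
  have hsub : ((RR S).filter fun x => S.neg * x * y ∈ RR S) ⊆
      (Bd S y ∪ {S.neg}).image (fun z => v * z) := by
    intro x hx
    rw [mem_filter] at hx
    rw [mem_image]
    refine ⟨v * x, ?_, sq_cancel h _ _⟩
    rw [mem_union, mem_singleton]
    by_cases hn : v * x = S.neg
    · exact Or.inr hn
    left
    have hxT : v * x ∉ TT S N := by
      intro hc
      apply hvT
      have := TT_mul h hN2 hN hno hg hr hc (RR_sub h hN2 hN hno hx.1)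
      rwa [mul_right_cancel' h] at this
    have h4 := four_le h hN2 hN hno hg hxT hn
    have hsl : V S (v * x) ⊆ PP S x y := by
      intro z hz
      have h5 : z ∈ DD S (S.q x y) := by
        refine mem_DD.2 ⟨v * x, mem_X.2 ⟨y, ?_⟩, hz⟩
        rw [h.qs2, q_shift h _ (mem_V.1 hv), h.qs2]
      rcases DD_rigid h hx.1 h5 with h6 | h6
      · exact h6
      · obtain ⟨a, ha, b, hb, rfl⟩ := mem_PP.1 h6
        refine PP_mul h (V_sub_PP_left h x y ha) ?_
        rcases V_RR hx.2 hb with rfl | rfl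
        · exact V_sub_PP_left h x y (one_mem_V h x)
        · refine mem_PP.2 ⟨S.neg * x, neg_mul_mem h x, S.neg * y, neg_mul_mem h y, ?_⟩
          simp only [mul_comm, mul_left_comm]
    obtain ⟨z, hz1, hz2, hz3⟩ := exists_ne_one h h4 (half h hx.1 hsl)
    exact mem_Bd.2 ⟨z, hz1, hz3, (V_symm h).1 hz2⟩
  have h1 := (card_le_card hsub).trans (card_image_le.trans (card_union_le _ _))
  have h2 := card_Bd h hy1 hN2 hN
  rw [card_singleton] at h1
  omega

include h hN2 hN hno hg in
theorem no_rigid (r : S.G) : r ∉ RR S := by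
  intro hr
  have hrT := RR_sub h hN2 hN hno hr
  obtain ⟨y, hy⟩ : ∃ y, y = S.neg * r := ⟨_, rfl⟩
  have hyT : y ∉ TT S N := by rw [hy]; exact TT_neg h hN2 hN hno hg hr hrT
  have hyn : y ≠ S.neg := by
    rw [hy]
    intro e
    exact (mem_RR.1 hr).1 (mul_eq_left.1 e)
  have h4 := four_le h hN2 hN hno hg hyT hyn
  obtain ⟨σ, hσ, hσ'⟩ : ∃ σ ∈ V S y, σ ∉ ({1, S.neg * y} : Finset S.G) := by
    by_contra hcon
    push Not at hcon
    have := card_le_card (s := V S y) (t := {1, S.neg * y}) hcon
    have h5 : ({1, S.neg * y} : Finset S.G).card ≤ 2 := card_le_two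
    omega
  rw [mem_insert, mem_singleton, not_or] at hσ'
  have hσT := V_sub_TT h hN2 hN hno hg hr hyT hyn hσ
  have hM := card_M h hN2 hN hno hg hr hyT
  have hsub : ((RR S).filter fun x => S.neg * x * y ∈ RR S) ⊆
      (Bd S σ).image (fun z => S.neg * z) ∪ {σ} := by
    intro x hx
    rw [mem_filter] at hx
    rw [mem_union, mem_image, mem_singleton]
    by_cases hxσ : x = σ
    · exact Or.inr hxσ
    left
    refine ⟨S.neg * x, ?_, nn h x⟩
    have hxT := RR_sub h hN2 hN hno hx.1
    have hmT : S.neg * x * σ ∉ TT S N := by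
      rw [mul_assoc]
      exact TT_neg h hN2 hN hno hg hr (TT_mul h hN2 hN hno hg hr hxT hσT)
    have hmn : S.neg * x * σ ≠ S.neg := by
      intro e
      rw [mul_assoc] at e
      exact hxσ (eq_of_mul h _ _ (mul_eq_left.1 e))
    rcases rig_split h hx.1 σ with h1 | h1
    · exfalso
      have hyσ : y ∈ V S σ := (V_symm h).1 hσ
      obtain ⟨a, ha, b, hb, hab⟩ := mem_PP.1 (h1 (V_sub_PP_right h x σ hyσ))
      rcases V_RR hx.1 ha with rfl | rfl
      · rw [one_mul] at hab
        rw [hab] at hb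
        exact hmT (V_sub_TT h hN2 hN hno hg hr hyT hyn ((V_symm h).1 hb))
      · have hb' : b = S.neg * x * y := by rw [← hab, sq_cancel h]
        rw [hb'] at hb
        rcases V_RR hx.2 ((V_symm h).1 hb) with h2 | h2
        · have h3 : S.neg * x = σ := eq_of_mul h _ _ h2
          exact TT_neg h hN2 hN hno hg hr hxT (by rw [h3]; exact hσT)
        · apply hσ'.2
          have h3 : S.neg * (S.neg * x * y) = x * y := by
            have : S.neg * (S.neg * x * y) = x * y * (S.neg * S.neg) := by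
              simp only [mul_comm, mul_left_comm]
            rw [this, h.exp2, mul_one]
          rw [h3] at h2
          have h4 : σ = (S.neg * x) * (S.neg * x * σ) := (sq_cancel h _ _).symm
          rw [h4, h2]
          have : S.neg * x * (x * y) = S.neg * y * (x * x) := by
            simp only [mul_comm, mul_left_comm]
          rw [this, h.exp2, mul_one]
    · have h2 := half h hx.1 ((V_sub_PP_right h x _).trans h1)
      obtain ⟨z, hz1, hz2, hz3⟩ := exists_ne_one h (four_le h hN2 hN hno hg hmT hmn) h2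
      have hz4 := V_inf h hz2 hz3
      rw [mul_right_cancel' h] at hz4
      exact mem_Bd.2 ⟨z, hz1, hz3, (V_symm h).1 hz4⟩
  have h1 := (card_le_card hsub).trans ((card_union_le _ _).trans
    (Nat.add_le_add_right card_image_le _))
  have hσ1 : σ ≠ 1 := hσ'.1
  have h2 := card_Bd h hσ1 hN2 hN
  rw [card_singleton] at h1
  omega

end main

include h in
/-- **Structures with a rigid element have a birigid element unless they are small.** -/
theorem exists_bi_of_rigid {N : ℕ} (hN2 : 2 ≤ N) (hN : ∀ b : S.G, b ≠ 1 → (V S b).card ≤ N)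
    (hg : 9 * (4 + (N - 1) * (N - 2)) < Fintype.card S.G) {r : S.G} (hr1 : r ≠ 1)
    (hrn : r ≠ S.neg) (hr : Hr S r) : ∃ a : S.G, Bi S a := by
  by_contra hcon
  push Not at hcon
  exact no_rigid h hN2 hN hcon hg r (mem_RR.2 ⟨hr1, hrn, hr⟩)

end

end Pool.Agent.Q10.ETC3
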