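import Mathlib
import Pool.Agent.Q10.ETC3.NoRigid

set_option autoImplicit false
set_option linter.unusedSectionVars false
set_option linter.unusedVariables false

/-!
# Structures without rigid elements and with a small value group
-/

namespace Pool.Agent.Q10.ETC3

open Finset
open Pool.Agent.H315R3.ETC Pool.Agent.TH673.VG Pool.Agent.Q6.EV
open Pool.Agent.Y920.ETC (Hr Bi)

open Classical

noncomputable section

variable {S : QData} (h : IsQuat S) [Fintype S.G]

/-- elements giving an overlap for `w` -/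
def Pw (S : QData) [Fintype S.G] (v w : S.G) : Finset S.G :=
  Bd S w ∪ (V S v \ {1, w}).biUnion fun z => (PP S z (z * w)).image fun y => y * w

/-- elements giving an overlap -/
def Oo (S : QData) [Fintype S.G] (v : S.G) : Finset S.G :=
  ((V S v).erase 1).biUnion fun w => Pw S v w

/-- an overlap of two good elements -/
theorem mem_Pw_of_Ov {v u w : S.G} (hw : w ∈ V S v) (hne : (Ov h v u w).Nonempty) :
    u ∈ Pw S v w := by
  by_contra hu
  unfold Pw at hu
  rw [mem_union, mem_biUnion, not_or] at hu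
  obtain ⟨huw, hu2⟩ := hu
  push Not at hu2
  have hww : ∀ x, x ∈ V S u → x ∈ V S (u * w) → x = 1 := by
    intro x h1 h2
    have h3 := V_inf h h1 h2
    rw [sq_cancel h] at h3
    exact not_Bd h huw h3 h1
  obtain ⟨s, hs⟩ := hne
  unfold Ov at hs
  rw [mem_inter, mem_sdiff, mem_sdiff, mem_Vb, mem_Vb] at hs
  obtain ⟨⟨⟨y, hy, hys⟩, hsE⟩, ⟨y', hy', hys'⟩, -⟩ := hs
  have hzv : y * y' ∈ V S v := (pr_eq h).1 (hys.trans hys'.symm)
  have hyz : y * (y * y') = y' := sq_cancel h _ _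
  unfold E at hsE
  rw [mem_insert, mem_singleton, not_or] at hsE
  have hz1 : y * y' ≠ 1 := by
    intro e
    have e' := eq_of_mul h _ _ e
    apply hsE.1
    rw [← hys, hww y hy (by rw [e']; exact hy'), map_one]
  have hzw : y * y' ≠ w := by
    intro e
    apply hsE.2
    have h1 : S.neg * u * y ∈ V S u := mul_mem_V h (neg_mul_mem h u) hy
    have h2 : S.neg * u * y ∈ V S (u * w) := by
      have h3 := mul_mem_V h (neg_mul_mem h (u * w)) hy'
      have h4 : S.neg * (u * w) * y' = S.neg * u * y := by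
        have h5 : S.neg * (u * w) * y' = S.neg * u * y * (y' * y') := by
          rw [← e]; simp only [mul_comm, mul_left_comm]
        rw [h5, h.exp2, mul_one]
      rwa [h4] at h3
    have h3 := hww _ h1 h2
    have h4 : S.neg * u = y := eq_of_mul h _ _ h3
    rw [← hys, ← map_mul, h4]
  refine hu2 (y * y') (mem_sdiff.2 ⟨hzv, ?_⟩) (mem_image.2 ⟨u * w, ?_, mul_right_cancel' h _ _⟩)
  · rw [mem_insert, mem_singleton, not_or]
    exact ⟨hz1, hzw⟩
  · exact key_rel h hy (by rw [hyz]; exact hy')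

theorem Ov_symm {v u w : S.G} (hw : w ∈ V S v) (hne : (Ov h v u w).Nonempty) :
    (Ov h v (u * w) w).Nonempty := by
  obtain ⟨s, hs⟩ := hne
  refine ⟨s, ?_⟩
  have hpr : pr h v (u * w) = pr h v u := by
    rw [pr_eq]
    have : u * w * u = w := by rw [mul_comm u w, mul_right_cancel' h]
    rw [this]; exact hw
  unfold Ov at hs ⊢
  rw [hpr, mul_right_cancel' h, inter_comm]
  exact hs

section small

variable {N n : ℕ} (hN : ∀ b : S.G, b ≠ 1 → (V S b).card ≤ N) (hN2 : 2 ≤ N)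
  {v : S.G} (hv1 : v ≠ 1) (hv : (V S v).card = n)

include h hN hN2 hv1 hv in
theorem card_Pw {w : S.G} (hw : w ∈ V S v) (hw1 : w ≠ 1) :
    2 * (Pw S v w).card ≤ 2 * (2 + (N - 1) * (N - 2)) + (n - 2) * N ^ 2 := by
  unfold Pw
  have hc : (V S v \ {1, w}).card = n - 2 := by
    rw [card_sdiff_of_subset, card_pair hw1.symm, hv]
    intro x hx
    rw [mem_insert, mem_singleton] at hx
    rcases hx with rfl | rfl
    · exact one_mem_V h v
    · exact hw
  have h1 := card_Bd h hw1 hN2 hN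
  have h2 : 2 * ((V S v \ {1, w}).biUnion
      fun z => (PP S z (z * w)).image fun y => y * w).card ≤ (n - 2) * N ^ 2 := by
    refine (Nat.mul_le_mul_left 2 card_biUnion_le).trans ?_
    rw [mul_sum, ← hc, ← smul_eq_mul (a := (V S v \ {1, w}).card), ← sum_const]
    refine sum_le_sum fun z hz => ?_
    rw [mem_sdiff, mem_insert, mem_singleton, not_or] at hz
    refine (Nat.mul_le_mul_left 2 card_image_le).trans ?_
    have h3 := card_PP h z (z * w)
    have h4 : 2 ≤ (V S z ∩ V S (z * w)).card := by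
      rw [← card_pair hv1]
      refine card_le_card fun x hx => ?_
      rw [mem_insert, mem_singleton] at hx
      rw [mem_inter]
      rcases hx with rfl | rfl
      · exact ⟨(V_symm h).1 hz.1, (V_symm h).1 (mul_mem_V h hz.1 hw)⟩
      · exact ⟨one_mem_V h _, one_mem_V h _⟩
    have h5 := hN z hz.2.1
    have h6 := hN (z * w) (fun e => hz.2.2 (eq_of_mul h _ _ e))
    calc 2 * (PP S z (z * w)).card ≤ (V S z ∩ V S (z * w)).card * (PP S z (z * w)).card :=
          Nat.mul_le_mul_right _ h4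
      _ = (V S z).card * (V S (z * w)).card := by rw [mul_comm, h3]
      _ ≤ N * N := Nat.mul_le_mul h5 h6
      _ = N ^ 2 := by ring
  have h3 := card_union_le (Bd S w) ((V S v \ {1, w}).biUnion
      fun z => (PP S z (z * w)).image fun y => y * w)
  omega

include h hN hN2 hv1 hv in
theorem card_Oo : 2 * (Oo S v).card ≤
    (n - 1) * (2 * (2 + (N - 1) * (N - 2)) + (n - 2) * N ^ 2) := by
  unfold Oo
  refine (Nat.mul_le_mul_left 2 card_biUnion_le).trans ?_
  rw [mul_sum]
  refine (sum_le_card_nsmul _ _ (2 * (2 + (N - 1) * (N - 2)) + (n - 2) * N ^ 2)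
    fun w hw => ?_).trans ?_
  · rw [mem_erase] at hw
    exact card_Pw h hN hN2 hv1 hv hw.2 hw.1
  · rw [card_erase_of_mem (one_mem_V h v), hv, smul_eq_mul]

include h hv in
/-- clean cosets contradict divisibility by four -/
theorem clean_false (hn4 : 4 ≤ n)
    (hR : ∀ a : S.G, a ≠ 1 → a ≠ S.neg → 4 ≤ (V S a).card)
    {c : Qt h v} (hc : c ∈ GG h v)
    (hcl : ∀ u ∈ cs h v c, ∀ w ∈ V S v, w ≠ 1 → Ov h v u w = ∅) : False := by
  have hcne : c ≠ pr h v S.neg := ((mem_GG h).1 hc).2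
  have hne : (cs h v c).Nonempty := by
    rw [← card_pos, card_cs, hv]; omega
  obtain ⟨u, hu⟩ := hne
  have hu' : pr h v u = c := (mem_cs h).1 hu
  obtain ⟨t, ht⟩ : ∃ t, t = S.q v u := ⟨_, rfl⟩
  have huX : u ∈ X S t := mem_X.2 ⟨v, by rw [h.qs2, ht]⟩
  have hvX : v ∈ X S t := mem_X.2 ⟨u, ht.symm⟩
  have h4c : ∀ u' ∈ cs h v c, 4 ≤ (V S u').card ∧ 4 ∣ (V S u').card := by
    intro u' hu'c
    obtain ⟨h1, h2, h3, h4⟩ := GG_prop h (N := n) hn4 hv hc ((mem_cs h).1 hu'c)
    have h5 := hR u' h2 h3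
    obtain ⟨m, hm⟩ := V_pow h u'
    exact ⟨h5, pow_dvd_four h hm h5⟩
  have hmemD : ∀ {x y : S.G}, x ∈ DD S t → y ∈ cs h v (pr h v x) → y ∈ DD S t := by
    intro x y hx hy
    have h2 : x * y ∈ V S v := (cs_shift h).1 hy
    have h3 : x * y ∈ DD S t := mem_DD.2 ⟨v, hvX, h2⟩
    have h4 := DD_mul h hx h3
    rwa [sq_cancel h] at h4
  have him : ((DD S t).image (pr h v)).card * n = (DD S t).card := by
    have h1 := card_eq_sum_card_fiberwise (f := pr h v) (s := DD S t)
      (t := (DD S t).image (pr h v)) (fun x hx => mem_coe.2 (mem_image_of_mem _ (mem_coe.1 hx)))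
    rw [h1, sum_const_nat (m := n)]
    intro s hs
    obtain ⟨x, hx, rfl⟩ := mem_image.1 hs
    rw [← hv, ← card_cs h v (pr h v x)]
    congr 1
    ext y
    rw [mem_filter, mem_cs]
    exact ⟨fun hy => hy.2, fun hy => ⟨hmemD hx ((mem_cs h).2 hy), hy⟩⟩
  obtain ⟨b, hb⟩ := DD_pow h ⟨u, huX⟩
  have hAdvd : ((DD S t).image (pr h v)).card ∣ 2 ^ b := by
    rw [← hb, ← him]; exact dvd_mul_right _ _
  obtain ⟨a, -, ha⟩ := (Nat.dvd_prime_pow Nat.prime_two).1 hAdvd
  have hVsub : ∀ u' ∈ cs h v c, Vb h v u' ⊆ (DD S t).image (pr h v) := by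
    intro u' hu'c
    refine image_subset_image fun y hy => ?_
    refine mem_DD.2 ⟨u', mem_X.2 ⟨v, ?_⟩, hy⟩
    rw [h.qs2, ht, q_cong h, mul_comm, ← cs_shift h, hu']
    exact hu'c
  have hEc : ∀ u' ∈ cs h v c, E h v c ⊆ Vb h v u' := by
    intro u' hu'c
    have := E_sub h v u'
    rwa [(mem_cs h).1 hu'c] at this
  have huB := (GG_prop h (N := n) hn4 hv hc hu').1
  have hA4 : 4 ∣ ((DD S t).image (pr h v)).card := by
    refine pow_dvd_four h ha ((h4c u hu).1.trans ?_)
    rw [← card_Vb h huB]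
    exact card_le_card (hVsub u hu)
  -- the disjoint union
  have hun : (DD S t).image (pr h v) \ E h v c =
      (cs h v c).biUnion fun u' => Vb h v u' \ E h v c := by
    ext s
    rw [mem_sdiff, mem_biUnion]
    constructor
    · rintro ⟨hs, hsE⟩
      obtain ⟨y, hy, rfl⟩ := mem_image.1 hs
      obtain ⟨c', hc', hyc⟩ := DD_sub h hvX hy
      obtain ⟨p, hp, r, hr, rfl⟩ := mem_PP.1 hyc
      refine ⟨c', ?_, mem_sdiff.2 ⟨(mem_Vb h).2 ⟨r, hr, ?_⟩, hsE⟩⟩
      · rw [← hu', cs_shift h, mul_comm, ← q_cong h, mem_C.1 hc', ht]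
      · rw [map_mul, (pr_one h).2 hp, one_mul]
    · rintro ⟨u', hu'c, hs⟩
      rw [mem_sdiff] at hs
      exact ⟨hVsub u' hu'c hs.1, hs.2⟩
  have hdis : ((cs h v c : Finset S.G) : Set S.G).PairwiseDisjoint
      (fun u' => Vb h v u' \ E h v c) := by
    intro x hx y hy hxy
    have hx := mem_coe.1 hx
    have hy := mem_coe.1 hy
    have hx' : pr h v x = c := (mem_cs h).1 hx
    have h1 := hcl x hx (x * y) (by
      rw [← pr_eq h, hx', (mem_cs h).1 hy]) (fun e => hxy (eq_of_mul h _ _ e))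
    unfold Ov at h1
    rw [hx', sq_cancel h] at h1
    exact disjoint_iff_inter_eq_empty.2 h1
  have hcard := congrArg card hun
  rw [card_biUnion hdis, card_sdiff_of_subset ((hEc u hu).trans (hVsub u hu)),
    card_E h hcne] at hcard
  have hsum : ∑ u' ∈ cs h v c, (Vb h v u' \ E h v c).card + 2 * n =
      ∑ u' ∈ cs h v c, (V S u').card := by
    have e1 : 2 * n = ∑ u' ∈ cs h v c, 2 := by
      rw [sum_const, card_cs, hv, smul_eq_mul, mul_comm]
    rw [e1, ← sum_add_distrib]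
    refine sum_congr rfl fun u' hu'c => ?_
    obtain ⟨h1, h2, h3, h4⟩ := GG_prop h (N := n) hn4 hv hc ((mem_cs h).1 hu'c)
    rw [card_sdiff_of_subset (hEc u' hu'c), card_E h hcne, card_Vb h h1]
    have := (h4c u' hu'c).1
    omega
  have hdv : 4 ∣ ∑ u' ∈ cs h v c, (V S u').card := dvd_sum fun u' hu'c => (h4c u' hu'c).2
  obtain ⟨m, hm⟩ := V_pow h v
  rw [hv] at hm
  have hn4' : 4 ∣ n := pow_dvd_four h hm hn4
  have hApos : 4 ≤ ((DD S t).image (pr h v)).card := Nat.le_of_dvd (by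
    rw [ha]; positivity) hA4
  omega

include h hN hN2 hv1 hv in
/-- **Structures without rigid elements and with a small value group are small.** -/
theorem small_of_small (hn4 : 4 ≤ n) (hnN : n ≤ N)
    (hR : ∀ a : S.G, a ≠ 1 → a ≠ S.neg → 4 ≤ (V S a).card)
    (hg : n ^ 3 * N ^ 2 ≤ 4 * Fintype.card S.G) : False := by
  -- the cosets with overlaps
  obtain ⟨B, hB⟩ : ∃ B : Finset (Qt h v), B = (GG h v).filter fun c =>
    ∃ u ∈ cs h v c, ∃ w ∈ V S v, w ≠ 1 ∧ (Ov h v u w).Nonempty := ⟨_, rfl⟩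
  have hGB : GG h v ⊆ B := by
    intro c hc
    rw [hB, mem_filter]
    refine ⟨hc, ?_⟩
    by_contra hcon
    push Not at hcon
    exact clean_false h hv hn4 hR hc hcon
  have h2B : B.card * 2 ≤ (Oo S v).card := by
    have h1 : ∑ c ∈ B, ((Oo S v).filter fun x => pr h v x = c).card =
        ((Oo S v).filter fun x => pr h v x ∈ B).card :=
      Finset.sum_card_fiberwise_eq_card_filter _ _ _
    refine le_trans ?_ (card_le_card (filter_subset (fun x => pr h v x ∈ B) (Oo S v)))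
    rw [← h1]
    refine (card_nsmul_le_sum _ _ 2 fun c hc => ?_)
    rw [hB, mem_filter] at hc
    obtain ⟨-, u, hu, w, hw, hw1, hO⟩ := hc
    have hu' := (mem_cs h).1 hu
    have e1 : u ∈ (Oo S v).filter fun x => pr h v x = c := by
      rw [mem_filter]
      exact ⟨mem_biUnion.2 ⟨w, mem_erase.2 ⟨hw1, hw⟩, mem_Pw_of_Ov h hw hO⟩, hu'⟩
    have e2 : u * w ∈ (Oo S v).filter fun x => pr h v x = c := by
      rw [mem_filter]
      refine ⟨mem_biUnion.2 ⟨w, mem_erase.2 ⟨hw1, hw⟩, mem_Pw_of_Ov h hw (Ov_symm h hw hO)⟩, ?_⟩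
      rw [map_mul, hu', (pr_one h).2 hw, mul_one]
    have e3 : u ≠ u * w := fun e => hw1 (by rwa [eq_comm, mul_eq_left] at e)
    have := card_le_card (s := ({u, u * w} : Finset S.G))
      (t := (Oo S v).filter fun x => pr h v x = c) (by
        intro x hx
        rw [mem_insert, mem_singleton] at hx
        rcases hx with rfl | rfl
        · exact e1
        · exact e2)
    rwa [card_pair e3] at this
  have h1 := card_GG h v
  have h2 := card_le_card hGB
  have h3 := card_Bd h hv1 hN2 hN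
  have h4 := card_Oo h hN hN2 hv1 hv
  have h5 := card_Qt h v
  rw [hv] at h5
  have h6 : n ^ 2 * N ^ 2 ≤ 4 * Fintype.card (Qt h v) := by
    have : n * (n ^ 2 * N ^ 2) ≤ n * (4 * Fintype.card (Qt h v)) := by
      calc n * (n ^ 2 * N ^ 2) = n ^ 3 * N ^ 2 := by ring
        _ ≤ _ := hg
        _ = 4 * (Fintype.card (Qt h v) * n) := by rw [h5]
        _ = _ := by ring
    exact Nat.le_of_mul_le_mul_left this (by omega)
  have h7 : n ^ 2 * N ^ 2 ≤ 4 * (2 + (N - 1) * (N - 2)) + 4 +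
      (n - 1) * (2 * (2 + (N - 1) * (N - 2)) + (n - 2) * N ^ 2) := by
    generalize (n - 1) * (2 * (2 + (N - 1) * (N - 2)) + (n - 2) * N ^ 2) = Z at h4 ⊢
    generalize n ^ 2 * N ^ 2 = Y at h6 ⊢
    omega
  clear * - h7 hn4 hnN
  obtain ⟨a, rfl⟩ : ∃ a, n = a + 4 := ⟨n - 4, by omega⟩
  obtain ⟨b, rfl⟩ : ∃ b, N = b + 4 := ⟨N - 4, by omega⟩
  have a1 : a + 4 - 1 = a + 3 := by omega
  have a2 : a + 4 - 2 = a + 2 := by omega
  have b1 : b + 4 - 1 = b + 3 := by omega
  have b2 : b + 4 - 2 = b + 2 := by omega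
  rw [a1, a2, b1, b2] at h7
  have e1 := Nat.zero_le (a * b)
  have e2 := Nat.zero_le (a * b ^ 2)
  have e3 := Nat.zero_le (b ^ 2)
  nlinarith

end small

end

end Pool.Agent.Q10.ETC3
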