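import Mathlib
import Pool.Agent.Q10.ETC3.Cubic
import Pool.Agent.Q10.ETC3.OneRigid
import Pool.Agent.Q10.ETC3.Parity
import Pool.Agent.Y920.ETC.Chain
import Pool.Agent.TH673.VG.Crit

set_option autoImplicit false

/-!
# Group extensions among finite quaternionic structures
-/

namespace Pool.Agent.Q10.ETC3

open Finset
open Pool.Agent.H315R3.ETC
open Pool.Agent.Q6.EV (V mem_V V_symm one_mem_V)
open Pool.Agent.Y920.ETC (Hr Bi vs restrN isQuat_restrN vs_restrN bi_ext hr_of_small iso_refl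
  iso_trans iso_ext two_le_vs)

variable {S : QData} (h : IsQuat S)

include h in
theorem vs_pow' [Finite S.G] (a : S.G) : ∃ n, vs S a = 2 ^ n := Pool.Agent.Y920.ETC.vs_pow h a

include h in
/-- a maximal value group -/
theorem exists_max [Finite S.G] (h1 : 1 < Nat.card S.G) :
    ∃ v : S.G, v ≠ 1 ∧ ∀ a : S.G, a ≠ 1 → vs S a ≤ vs S v := by
  classical
  have hf : Fintype S.G := Fintype.ofFinite _
  have hnt : Nontrivial S.G := Finite.one_lt_card_iff_nontrivial.1 h1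
  obtain ⟨b, hb⟩ := _root_.exists_ne (1 : S.G)
  have hne : ((univ : Finset S.G).filter (· ≠ 1)).Nonempty := ⟨b, by simpa using hb⟩
  obtain ⟨a0, ha0, hmax⟩ := Finset.exists_max_image _ (fun a => vs S a) hne
  exact ⟨a0, (Finset.mem_filter.1 ha0).2, fun a ha => hmax a (by simpa using ha)⟩

include h in
/-- value groups with at most three elements -/
theorem bi_of_le_three [Finite S.G] (h4 : 4 ≤ Nat.card S.G)
    (hsm : ∀ a : S.G, a ≠ 1 → vs S a ≤ 3) : ∃ a : S.G, Bi S a := by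
  obtain ⟨b0, hb0, hb1⟩ := Pool.Agent.Y920.ETC.exists_ne h h4
  refine ⟨b0, hb0, hb1, hr_of_small h (hsm _ hb0) hb1, hr_of_small h (hsm _ ?_) ?_⟩
  · intro e
    exact hb1 (eq_of_mul h _ _ e).symm
  · intro e
    exact hb0 (by rwa [mul_eq_left] at e)

include h in
/-- a structure with a rigid element -/
theorem bi_of_rigid [Finite S.G] {N : ℕ} (hN2 : 2 ≤ N) (hN : ∀ a : S.G, a ≠ 1 → vs S a ≤ N)
    (hg : 9 * (4 + (N - 1) * (N - 2)) < Nat.card S.G) {r : S.G} (hr1 : r ≠ 1)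
    (hrn : r ≠ S.neg) (hr : vs S r ≤ 3) : ∃ a : S.G, Bi S a := by
  have hf : Fintype S.G := Fintype.ofFinite _
  refine exists_bi_of_rigid h hN2 (fun b hb => ?_) ?_ hr1 hrn (hr_of_small h hr hrn)
  · rw [← vs_eq]; exact hN b hb
  · rw [← Nat.card_eq_fintype_card]; exact hg

include h in
/-- **Exponent three.** -/
theorem exists_bi3 [Finite S.G] (h1 : 2 < Nat.card S.G)
    (hs : ∀ a : S.G, a ≠ 1 → vs S a ^ 3 < Nat.card S.G) : ∃ a : S.G, Bi S a := by
  have hf : Fintype S.G := Fintype.ofFinite _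
  obtain ⟨v, hv1, hmax⟩ := exists_max h (by omega)
  obtain ⟨N, hNv⟩ : ∃ N, N = vs S v := ⟨_, rfl⟩
  rw [← hNv] at hmax
  have hv := hs v hv1
  rw [← hNv] at hv
  obtain ⟨k, hk⟩ := vs_pow' h v
  rw [← hNv] at hk
  obtain ⟨m, hm⟩ := Pool.Agent.Y920.ETC.card_pow h
  have h2N : 2 * N ^ 3 ≤ Nat.card S.G :=
    two_mul_le (a := N ^ 3) (m := k * 3) (by rw [hk, pow_mul]) hm hv
  have h4 : 4 ≤ Nat.card S.G := by
    have := two_mul_le (a := 2) (m := 1) (by norm_num) hm h1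
    omega
  have hN1 : 1 ≤ N := by rw [hk]; exact Nat.one_le_two_pow
  by_cases hN3 : N ≤ 3
  · exact bi_of_le_three h h4 fun a ha => (hmax a ha).trans hN3
  have hN4 : 4 ≤ N := by omega
  by_cases hR : ∀ a : S.G, a ≠ 1 → a ≠ S.neg → 4 ≤ vs S a
  · exfalso
    have := small_of_no_rigid' h (N := N) (fun b hb => by rw [← vs_eq]; exact hmax b hb) hN4 hv1
      (by rw [← vs_eq, hNv]) (fun a h1 h2 => by rw [← vs_eq]; exact hR a h1 h2)
    rw [← Nat.card_eq_fintype_card] at this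
    omega
  · push Not at hR
    obtain ⟨r, hr1, hrn, hr⟩ := hR
    refine bi_of_rigid h (by omega) hmax ?_ hr1 hrn (by omega)
    refine lt_of_lt_of_le ?_ h2N
    obtain ⟨b, rfl⟩ : ∃ b, N = b + 4 := ⟨N - 4, by omega⟩
    have b1 : b + 4 - 1 = b + 3 := by omega
    have b2 : b + 4 - 2 = b + 2 := by omega
    rw [b1, b2]
    have e1 := Nat.zero_le (b ^ 2)
    have e2 := Nat.zero_le (b ^ 3)
    nlinarith

include h in
/-- **Exponent two for structures with a small value group.** -/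
theorem exists_bi_small [Finite S.G] {x : S.G} (hx1 : x ≠ 1) (hxn : x ≠ S.neg)
    (hs : ∀ a : S.G, a ≠ 1 → 8 * vs S a ^ 2 < Nat.card S.G)
    (hs' : ∀ a : S.G, a ≠ 1 → vs S x ^ 3 * vs S a ^ 2 ≤ 4 * Nat.card S.G) :
    ∃ a : S.G, Bi S a := by
  have hf : Fintype S.G := Fintype.ofFinite _
  have h1 : 1 < Nat.card S.G := Finite.one_lt_card_iff_nontrivial.2 ⟨x, 1, hx1⟩
  obtain ⟨v, hv1, hmax⟩ := exists_max h h1
  obtain ⟨N, hNv⟩ : ∃ N, N = vs S v := ⟨_, rfl⟩
  rw [← hNv] at hmax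
  have hv := hs v hv1
  have hv' := hs' v hv1
  rw [← hNv] at hv hv'
  obtain ⟨k, hk⟩ := vs_pow' h v
  rw [← hNv] at hk
  obtain ⟨m, hm⟩ := Pool.Agent.Y920.ETC.card_pow h
  have h16 : 16 * N ^ 2 ≤ Nat.card S.G := by
    have := two_mul_le (a := 8 * N ^ 2) (m := 3 + k * 2) (by rw [hk, pow_add, pow_mul]; ring)
      hm hv
    omega
  have hN2 : 2 ≤ N := (two_le_vs h hxn).trans (hmax x hx1)
  have hg : 9 * (4 + (N - 1) * (N - 2)) < Nat.card S.G := by
    refine lt_of_lt_of_le ?_ h16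
    obtain ⟨b, rfl⟩ : ∃ b, N = b + 2 := ⟨N - 2, by omega⟩
    have b1 : b + 2 - 1 = b + 1 := by omega
    have b2 : b + 2 - 2 = b := by omega
    rw [b1, b2]
    nlinarith
  by_cases hR : ∀ a : S.G, a ≠ 1 → a ≠ S.neg → 4 ≤ vs S a
  · exfalso
    refine small_of_small h (N := N) (n := vs S x) (fun b hb => by rw [← vs_eq]; exact hmax b hb)
      hN2 hx1 (by rw [← vs_eq]) (hR x hx1 hxn) (hmax x hx1)
      (fun a h1 h2 => by rw [← vs_eq]; exact hR a h1 h2) ?_
    rw [← Nat.card_eq_fintype_card]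
    exact hv'
  · push Not at hR
    obtain ⟨r, hr1, hrn, hr⟩ := hR
    exact bi_of_rigid h hN2 hmax hg hr1 hrn (by omega)

include h in
/-- the basic part is small -/
theorem card_basic3 [Finite S.G] (B : Subgroup S.G) (hB : ∀ a : S.G, a ∈ B ↔ ¬ Bi S a)
    {N : ℕ} (hN0 : 2 ≤ N) (hN : ∀ a : S.G, a ≠ 1 → vs S a ≤ N) : Nat.card B ≤ N ^ 3 := by
  have hneg : S.neg ∈ B := (hB _).2 fun hb => hb.2.1 rfl
  have hK : ∀ a : S.G, a ∉ B → Bi S a := fun a ha => by
    by_contra hc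
    exact ha ((hB a).2 hc)
  obtain ⟨hq, hin⟩ := isQuat_restrN h B hneg hK
  by_contra hcN
  push Not at hcN
  have hN1 : 2 ^ 3 ≤ N ^ 3 := Nat.pow_le_pow_left hN0 3
  haveI : Finite (restrN S B hneg).G := inferInstanceAs (Finite B)
  obtain ⟨b, hb⟩ := exists_bi3 (S := restrN S B hneg) hq (by
      show 2 < Nat.card B
      omega) (by
    intro (a : B) ha
    have h5 := vs_restrN h B hneg hK a ha
    have h6 : (a : S.G) ≠ 1 := fun e => ha (Subtype.ext e)
    calc vs (restrN S B hneg) a ^ 3 = vs S a.1 ^ 3 := by rw [h5]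
      _ ≤ N ^ 3 := Nat.pow_le_pow_left (hN _ h6) 3
      _ < Nat.card B := by omega)
  obtain ⟨b1, b2, b3, b4⟩ := hb
  have hbB : (b : B).1 ∈ B := (b : B).2
  refine ((hB _).1 hbB) ⟨fun e => b1 (Subtype.ext e), fun e => b2 (Subtype.ext e), ?_, ?_⟩
  · intro e he
    have heB : e ∈ B := hin _ _ hbB (fun e => b1 (Subtype.ext e)) he
    rcases b3 ⟨e, heB⟩ he with h5 | h5
    · exact Or.inl (congrArg Subtype.val h5)
    · exact Or.inr (congrArg Subtype.val h5)
  · intro e he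
    have hnb : S.neg * (b : B).1 ∈ B := B.mul_mem hneg hbB
    have heB : e ∈ B := hin _ _ hnb
      (fun e => b2 (Subtype.ext (eq_of_mul h _ _ e).symm)) he
    rcases b4 ⟨e, heB⟩ he with h5 | h5
    · exact Or.inl (congrArg Subtype.val h5)
    · exact Or.inr (congrArg Subtype.val h5)

/-- iterated extensions of small structures -/
theorem iter3 {N : ℕ} (hN1 : 2 ≤ N) : ∀ n : ℕ, ∀ S : QData, IsQuat S → Finite S.G →
    Nat.card S.G ≤ n → (∀ a : S.G, a ≠ 1 → vs S a ≤ N) →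
    ∃ (T : QData) (k : ℕ), IsQuat T ∧ Finite T.G ∧ Nat.card T.G ≤ N ^ 3 ∧
      2 ^ k * Nat.card T.G = Nat.card S.G ∧ (∀ a : T.G, a ≠ 1 → vs T a ≤ N) ∧
      Iso (ext^[k] T) S := by
  intro n
  induction n with
  | zero =>
    intro S h hf hc
    have : 0 < Nat.card S.G := Nat.card_pos
    omega
  | succ n ih =>
    intro S h hf hc hN
    by_cases hs : Nat.card S.G ≤ N ^ 3
    · exact ⟨S, 0, h, hf, hs, by simp, hN, iso_refl S⟩
    push Not at hs
    have hN3 : 2 ^ 3 ≤ N ^ 3 := Nat.pow_le_pow_left hN1 3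
    obtain ⟨b, hb⟩ := exists_bi3 h (by omega) (fun a ha =>
      lt_of_le_of_lt (Nat.pow_le_pow_left (hN a ha) 3) hs)
    obtain ⟨T, hT, hTf, hTc, hTi, hTN⟩ := bi_ext h hb
    have hTpos : 0 < Nat.card T.G := Nat.card_pos
    obtain ⟨R, k, hR, hRf, hRc, hRk, hRN, hRi⟩ := ih T hT hTf (by omega) (hTN N hN)
    refine ⟨R, k + 1, hR, hRf, hRc, ?_, hRN, ?_⟩
    · rw [pow_succ, mul_comm (2 ^ k) 2, mul_assoc, hRk, hTc]
    · rw [Function.iterate_succ_apply']
      exact iso_trans (iso_ext hRi) hTi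

/-- structures with fewer than 32 elements -/
theorem elem_small (h : IsQuat S) [Finite S.G] (hc : Nat.card S.G < 32) : Elem S := by
  refine Pool.Agent.TH673.VG.elem_of_step h fun H hH hI => ?_
  by_cases hi : 8 ≤ H.index
  · have h1 := H.card_mul_index
    refine Pool.Agent.TH673.VG.stepTwo_of_card h H hH ?_
    by_contra hcon
    push Not at hcon
    have := Nat.mul_le_mul hcon hi
    omega
  · exact Pool.Agent.TH673.VG.stepTwo_of_step
      (Pool.Agent.TH673.VG.step_of_index h H hH (by omega))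

/-- extensions preserve elementary type -/
theorem elem_iterate {T : QData} (h : Elem T) : ∀ k : ℕ, Elem (ext^[k] T) := by
  intro k
  induction k with
  | zero => exact h
  | succ k ih =>
    rw [Function.iterate_succ_apply']
    exact Elem.ext _ ih

end Pool.Agent.Q10.ETC3
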