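import Mathlib
import Pool.Agent.Q10.ETC3.OneRigid

set_option autoImplicit false
set_option linter.unusedSectionVars false
set_option linter.unusedVariables false

/-!
# Value groups with at most four elements: structures with a rigid element
-/

namespace Pool.Agent.Q10.ETC3.Four

open Finset
open Pool.Agent.H315R3.ETC Pool.Agent.TH673.VG Pool.Agent.Q6.EV
open Pool.Agent.Y920.ETC (Hr Bi)

open Classical

noncomputable section

variable {S : QData} (h : IsQuat S) [Fintype S.G]
variable (hN : ∀ b : S.G, b ≠ 1 → (V S b).card ≤ 4)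

include h hN in
/-- value groups with a third element -/
theorem V_four {a x y : S.G} (ha1 : a ≠ 1) (hx : x ∈ V S a) (hx1 : x ≠ 1) (hxa : x ≠ S.neg * a)
    (han : a ≠ S.neg) (hy : y ∈ V S a) :
    y = 1 ∨ y = S.neg * a ∨ y = x ∨ y = S.neg * a * x := by
  have hna : S.neg * a ≠ 1 := fun e => han (eq_of_mul h _ _ e).symm
  have hsub : ({1, S.neg * a, x, S.neg * a * x} : Finset S.G) ⊆ V S a := by
    intro z hz
    simp only [mem_insert, mem_singleton] at hz
    rcases hz with rfl | rfl | rfl | rfl
    · exact one_mem_V h a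
    · exact neg_mul_mem h a
    · exact hx
    · exact mul_mem_V h (neg_mul_mem h a) hx
  have hc : ({1, S.neg * a, x, S.neg * a * x} : Finset S.G).card = 4 := by
    rw [card_insert_of_notMem, card_insert_of_notMem, card_insert_of_notMem, card_singleton]
    · rw [mem_singleton]
      intro e
      exact hna (by rwa [eq_comm, mul_eq_right] at e)
    · simp only [mem_insert, mem_singleton, not_or]
      refine ⟨hxa.symm, fun e => hx1 ?_⟩
      rwa [eq_comm, mul_eq_left] at e
    · simp only [mem_insert, mem_singleton, not_or]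
      exact ⟨hna.symm, hx1.symm, fun e => hxa (eq_of_mul h _ _ e.symm).symm⟩
  have heq := eq_of_subset_of_card_le hsub (by rw [hc]; exact hN a ha1)
  rw [← heq] at hy
  simp only [mem_insert, mem_singleton] at hy
  exact hy

variable (hno : ∀ a : S.G, ¬ Bi S a)

include hno in
theorem RR_neg {y : S.G} (hy : y ∈ RR S) : S.neg * y ∉ RR S :=
  Pool.Agent.Q10.ETC3.RR_neg hno hy

include h hno in
/-- the element `-x` for rigid `x` -/
theorem exists_b {x : S.G} (hx : x ∈ RR S) :
    ∃ b ∈ V S (S.neg * x), b ≠ 1 ∧ b ≠ x := by
  obtain ⟨h1, h2, h3⟩ := mem_RR.1 hx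
  by_contra hcon
  push Not at hcon
  apply RR_neg hno hx
  refine mem_RR.2 ⟨fun e => h2 (eq_of_mul h _ _ e).symm, fun e => h1 (mul_eq_left.1 e), ?_⟩
  intro e he
  by_cases he1 : e = 1
  · exact Or.inl he1
  · right
    rw [nn h]
    exact hcon e (mem_V.2 he) he1

include h hN hno in
/-- the set of elements orthogonal to some element of `V(-x)` -/
theorem card_Bd_rigid {x : S.G} (hx : x ∈ RR S) : (Bd S (S.neg * x)).card ≤ 6 := by
  obtain ⟨h1, h2, h3⟩ := mem_RR.1 hx
  have hnx : S.neg * x ≠ 1 := fun e => h2 (eq_of_mul h _ _ e).symm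
  have hxV : x ∈ V S (S.neg * x) := (V_symm h).1 (neg_mul_mem h x)
  have hxe : x ∈ (V S (S.neg * x)).erase 1 := mem_erase.2 ⟨h1, hxV⟩
  have hsub : Bd S (S.neg * x) ⊆ {1, S.neg * x} ∪
      (((V S (S.neg * x)).erase 1).erase x).biUnion fun z => V S z \ {1, S.neg * x} := by
    intro y hy
    obtain ⟨z, hz1, hz, hyz⟩ := mem_Bd.1 hy
    rw [mem_union, mem_biUnion]
    by_cases hy1 : y ∈ ({1, S.neg * x} : Finset S.G)
    · exact Or.inl hy1
    right
    refine ⟨z, mem_erase.2 ⟨?_, mem_erase.2 ⟨hz1, hz⟩⟩, mem_sdiff.2 ⟨hyz, hy1⟩⟩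
    rintro rfl
    apply hy1
    rw [mem_insert, mem_singleton]
    exact V_RR hx hyz
  have h4 := (card_le_card hsub).trans ((card_union_le _ _).trans
    (Nat.add_le_add card_le_two card_biUnion_le))
  have h5 : ∑ z ∈ ((V S (S.neg * x)).erase 1).erase x, (V S z \ {1, S.neg * x}).card ≤
      (((V S (S.neg * x)).erase 1).erase x).card * 2 := by
    refine (sum_le_card_nsmul _ _ 2 fun z hz => ?_).trans_eq (smul_eq_mul _ _)
    rw [mem_erase, mem_erase] at hz
    rw [card_sdiff_of_subset, card_pair hnx.symm]
    · have := hN z hz.2.1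
      omega
    · intro y hy
      rw [mem_insert, mem_singleton] at hy
      rcases hy with rfl | rfl
      · exact one_mem_V h z
      · exact (V_symm h).1 hz.2.2
  rw [card_erase_of_mem hxe, card_erase_of_mem (one_mem_V h _)] at h5
  have h6 := hN _ hnx
  omega

include h hN hno in
theorem card_ge {x : S.G} (hx : x ∈ RR S) :
    Fintype.card S.G ≤ 2 * (RR S).card + 6 := by
  have hsub : (univ : Finset S.G) ⊆
      ((RR S).erase x ∪ ((RR S).erase x).image (fun z => S.neg * x * z)) ∪
        (Bd S (S.neg * x) ∪ {S.neg, x}) := by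
    intro y _
    rw [mem_union, mem_union, mem_union, mem_image, mem_insert, mem_singleton]
    by_contra hcon
    rw [not_or, not_or, not_or, not_or] at hcon
    obtain ⟨⟨h1, h2⟩, h3, h4, h5⟩ := hcon
    rcases claim1 h hx h3 h4 h5 with h6 | h6
    · exact h1 (mem_erase.2 ⟨h5, h6⟩)
    · refine h2 ⟨_, mem_erase.2 ⟨?_, h6⟩, sq_cancel h _ _⟩
      intro e
      apply h4
      have : S.neg * x * y * x = S.neg * y := by
        have e2 : S.neg * x * y * x = S.neg * y * (x * x) := by
          simp only [mul_comm, mul_left_comm]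
        rw [e2, h.exp2, mul_one]
      rw [e, h.exp2] at this
      exact (eq_of_mul h _ _ this.symm).symm
  have h1 := card_le_card hsub
  rw [card_univ] at h1
  have h2 := card_union_le ((RR S).erase x ∪ ((RR S).erase x).image (fun z => S.neg * x * z))
    (Bd S (S.neg * x) ∪ {S.neg, x})
  have h3 := card_union_le ((RR S).erase x) (((RR S).erase x).image (fun z => S.neg * x * z))
  have h4 := card_union_le (Bd S (S.neg * x)) {S.neg, x}
  have h5 := card_Bd_rigid h hN hno hx
  have h6 := card_image_le (s := (RR S).erase x) (f := fun z => S.neg * x * z)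
  have h7 : ({S.neg, x} : Finset S.G).card ≤ 2 := card_le_two
  have h8 := card_erase_of_mem hx
  have h9 : 0 < (RR S).card := card_pos.2 ⟨x, hx⟩
  omega

include h hN hno in
theorem df_RR {x : S.G} (hx : x ∈ RR S) : df S x ≤ 3 := by
  obtain ⟨h1, h2, h3⟩ := mem_RR.1 hx
  have hnx : S.neg * x ≠ 1 := fun e => h2 (eq_of_mul h _ _ e).symm
  have hnxn : S.neg * x ≠ S.neg := fun e => h1 (mul_eq_left.1 e)
  obtain ⟨b, hb, hb1, hbx⟩ := exists_b h hno hx
  have hxV : x ∈ V S (S.neg * x) := (V_symm h).1 (neg_mul_mem h x)
  have hneg1 : S.neg ≠ 1 := by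
    intro e
    apply RR_neg hno hx
    rw [e, one_mul]; exact hx
  -- the elements of `V(-x)`
  have hV : ∀ z ∈ V S (S.neg * x), z = 1 ∨ z = x ∨ z = b ∨ z = x * b := by
    intro z hz
    have := V_four h hN hnx hb hb1 (by rw [nn h]; exact hbx) hnxn hz
    rw [nn h] at this
    exact this
  -- the value group of an element `z ≠ 1, x` of `V(-x)` different from `-1`
  have key : ∀ z ∈ V S (S.neg * x), z ≠ 1 → z ≠ x → z ≠ S.neg → z ≠ S.neg * x → ∀ y ∈ RR S,
      S.neg * y ∈ V S z → y = x ∨ y = S.neg * (x * z) := by
    intro z hz hz1 hzx hzn hzn' y hy hyz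
    have h5 := V_four h hN hz1 ((V_symm h).1 hz) hnx (fun e => hzx (mul_left_cancel e).symm) hzn hyz
    have hzR : z ∉ RR S := by
      intro hc
      rcases V_RR hc ((V_symm h).1 hz) with h6 | h6
      · exact hnx h6
      · exact hzx (mul_left_cancel h6).symm
    rcases h5 with h6 | h6 | h6 | h6
    · exact absurd (eq_of_mul h _ _ h6).symm (mem_RR.1 hy).2.1
    · exact absurd hy (by rw [mul_left_cancel h6]; exact hzR)
    · exact Or.inl (mul_left_cancel h6)
    · right
      have : S.neg * z * (S.neg * x) = S.neg * (S.neg * (x * z)) := by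
        simp only [mul_comm, mul_left_comm]
      rw [this] at h6
      exact mul_left_cancel h6
  have hsub : ∃ T : Finset S.G, T.card ≤ 3 ∧ ((RR S).filter fun y => x * y ∉ RR S) ⊆ T := by
    have hbase : ∀ y ∈ (RR S).filter (fun y => x * y ∉ RR S), y ∈ RR S ∧
        (y = x ∨ ∃ z, z ≠ 1 ∧ z ≠ x ∧ z ∈ V S (S.neg * x) ∧ S.neg * y ∈ V S z) := by
      intro y hy
      rw [mem_filter] at hy
      refine ⟨hy.1, ?_⟩
      by_cases hB : S.neg * y ∈ Bd S (S.neg * x)
      · obtain ⟨z, hz1, hz, hyz⟩ := mem_Bd.1 hB
        by_cases hzx : z = x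
        · left
          rw [hzx] at hyz
          rcases V_RR hx hyz with h5 | h5
          · exact absurd (eq_of_mul h _ _ h5).symm (mem_RR.1 hy.1).2.1
          · exact mul_left_cancel h5
        · exact Or.inr ⟨z, hz1, hzx, hz, hyz⟩
      · exfalso
        by_cases hyx : S.neg * y = x
        · have : y = S.neg * x := by rw [← hyx, nn h]
          exact RR_neg hno hx (by rw [← this]; exact hy.1)
        rcases claim1 h hx hB (fun e => (mem_RR.1 hy.1).1 (mul_eq_left.1 e)) hyx with h5 | h5
        · exact RR_neg hno hy.1 h5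
        · apply hy.2
          have : S.neg * x * (S.neg * y) = x * y * (S.neg * S.neg) := by
            simp only [mul_comm, mul_left_comm]
          rwa [this, h.exp2, mul_one] at h5
    by_cases hgen : b ≠ S.neg ∧ b ≠ S.neg * x
    · -- the generic case
      refine ⟨{x, S.neg * (x * b), S.neg * b}, card_le_three, ?_⟩
      intro y hy
      obtain ⟨hyR, h5⟩ := hbase y hy
      simp only [mem_insert, mem_singleton]
      rcases h5 with h5 | ⟨z, hz1, hzx, hz, hyz⟩
      · exact Or.inl h5
      rcases hV z hz with h6 | h6 | h6 | h6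
      · exact absurd h6 hz1
      · exact absurd h6 hzx
      · rw [h6] at hz1 hzx hz hyz
        rcases key b hz hz1 hzx hgen.1 hgen.2 y hyR hyz with h7 | h7
        · exact Or.inl h7
        · exact Or.inr (Or.inl h7)
      · rw [h6] at hz1 hzx hz hyz
        rcases key (x * b) hz hz1 hzx (fun e => hgen.2 (by
            rw [← e, mul_comm x b, mul_right_cancel' h])) (fun e => hgen.1 (by
            rw [mul_comm S.neg x] at e; exact mul_left_cancel e)) y hyR hyz with h7 | h7
        · exact Or.inl h7
        · rw [sq_cancel h] at h7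
          exact Or.inr (Or.inr h7)
    · -- `-1 ∈ V(-x)`
      have hset : ∀ z ∈ V S (S.neg * x), z ≠ 1 → z ≠ x → z = S.neg ∨ z = S.neg * x := by
        intro z hz hz1 hzx
        rw [not_and_or, not_not, not_not] at hgen
        rcases hV z hz with h6 | h6 | h6 | h6
        · exact absurd h6 hz1
        · exact absurd h6 hzx
        · rw [h6]; exact hgen
        · rcases hgen with h7 | h7
          · right
            rw [h6, h7, mul_comm]
          · left
            rw [h6, h7, mul_comm S.neg x, sq_cancel h]
      -- `V(-1)`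
      have hm1 : S.neg * x ∈ V S S.neg := by
        rw [not_and_or, not_not, not_not] at hgen
        rcases hgen with h7 | h7
        · have h8 := hb
          rw [h7] at h8
          exact (V_symm h).1 h8
        · have h8 : S.neg ∈ V S (S.neg * x) := by
            have := mul_mem_V h hb hxV
            rwa [h7, mul_right_cancel' h] at this
          exact (V_symm h).1 h8
      by_cases hp : ∃ p ∈ V S S.neg, p ≠ 1 ∧ p ≠ S.neg * x
      · obtain ⟨p, hpV, hp1, hpx⟩ := hp
        have hVn : ∀ y ∈ V S S.neg, y = 1 ∨ y = S.neg * x ∨ y = p ∨ y = S.neg * x * p := by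
          intro y hy
          have hs : ({1, S.neg * x, p, S.neg * x * p} : Finset S.G) ⊆ V S S.neg := by
            intro z hz
            simp only [mem_insert, mem_singleton] at hz
            rcases hz with rfl | rfl | rfl | rfl
            · exact one_mem_V h _
            · exact hm1
            · exact hpV
            · exact mul_mem_V h hm1 hpV
          have hc : ({1, S.neg * x, p, S.neg * x * p} : Finset S.G).card = 4 := by
            rw [card_insert_of_notMem, card_insert_of_notMem, card_insert_of_notMem,
              card_singleton]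
            · rw [mem_singleton]
              intro e
              exact hnx (by rwa [eq_comm, mul_eq_right] at e)
            · simp only [mem_insert, mem_singleton, not_or]
              refine ⟨hpx.symm, fun e => hp1 ?_⟩
              rwa [eq_comm, mul_eq_left] at e
            · simp only [mem_insert, mem_singleton, not_or]
              exact ⟨hnx.symm, hp1.symm, fun e => hpx (eq_of_mul h _ _ e.symm).symm⟩
          have heq := eq_of_subset_of_card_le hs (by rw [hc]; exact hN _ hneg1)
          rw [← heq] at hy
          simp only [mem_insert, mem_singleton] at hy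
          exact hy
        refine ⟨{x, S.neg * p, x * p}, card_le_three, ?_⟩
        intro y hy
        obtain ⟨hyR, h5⟩ := hbase y hy
        simp only [mem_insert, mem_singleton]
        rcases h5 with h5 | ⟨z, hz1, hzx, hz, hyz⟩
        · exact Or.inl h5
        rcases hset z hz hz1 hzx with h6 | h6
        · rw [h6] at hyz
          rcases hVn _ hyz with h7 | h7 | h7 | h7
          · exact absurd (eq_of_mul h _ _ h7).symm (mem_RR.1 hyR).2.1
          · exact Or.inl (mul_left_cancel h7)
          · right; left
            rw [← h7, nn h]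
          · right; right
            rw [mul_assoc] at h7
            exact mul_left_cancel h7
        · rw [h6] at hyz
          left
          by_cases hyx : y = x
          · exact hyx
          exfalso
          rcases hV _ hyz with h7 | h7 | h7 | h7
          · exact (mem_RR.1 hyR).2.1 (eq_of_mul h _ _ h7).symm
          · exact RR_neg hno hx (by rw [← h7, nn h]; exact hyR)
          · rw [not_and_or, not_not, not_not] at hgen
            rcases hgen with h8 | h8
            · rw [h8] at h7
              exact (mem_RR.1 hyR).1 (mul_eq_left.1 h7)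
            · rw [h8] at h7
              exact hyx (mul_left_cancel h7)
          · rw [not_and_or, not_not, not_not] at hgen
            rcases hgen with h8 | h8
            · rw [h8, mul_comm x] at h7
              exact hyx (mul_left_cancel h7)
            · rw [h8, mul_comm S.neg x, sq_cancel h] at h7
              exact (mem_RR.1 hyR).1 (mul_eq_left.1 h7)
      · push Not at hp
        refine ⟨{x}, by rw [card_singleton]; norm_num, ?_⟩
        intro y hy
        obtain ⟨hyR, h5⟩ := hbase y hy
        rw [mem_singleton]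
        rcases h5 with h5 | ⟨z, hz1, hzx, hz, hyz⟩
        · exact h5
        by_contra hyx
        rcases hset z hz hz1 hzx with h6 | h6
        · rw [h6] at hyz
          have h7 := hp _ hyz (fun e => (mem_RR.1 hyR).2.1 (eq_of_mul h _ _ e).symm)
          exact hyx (mul_left_cancel h7)
        · rw [h6] at hyz
          rcases hV _ hyz with h7 | h7 | h7 | h7
          · exact (mem_RR.1 hyR).2.1 (eq_of_mul h _ _ h7).symm
          · exact RR_neg hno hx (by rw [← h7, nn h]; exact hyR)
          · rw [not_and_or, not_not, not_not] at hgen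
            rcases hgen with h8 | h8
            · rw [h8] at h7
              exact (mem_RR.1 hyR).1 (mul_eq_left.1 h7)
            · rw [h8] at h7
              exact hyx (mul_left_cancel h7)
          · rw [not_and_or, not_not, not_not] at hgen
            rcases hgen with h8 | h8
            · rw [h8, mul_comm x] at h7
              exact hyx (mul_left_cancel h7)
            · rw [h8, mul_comm S.neg x, sq_cancel h] at h7
              exact (mem_RR.1 hyR).1 (mul_eq_left.1 h7)
  obtain ⟨T, hT3, hT⟩ := hsub
  exact (card_le_card hT).trans hT3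

variable (hg : 32 ≤ Fintype.card S.G)

/-- the elements with small defect -/
def TT (S : QData) [Fintype S.G] : Finset S.G := univ.filter fun a => df S a ≤ 6

theorem mem_TT {a : S.G} : a ∈ TT S ↔ df S a ≤ 6 := by simp [TT]

include h hN hno hg in
theorem card_RR {r : S.G} (hr : r ∈ RR S) : 13 ≤ (RR S).card := by
  have := card_ge h hN hno hr
  omega

include h hN hno in
theorem RR_sub {x : S.G} (hx : x ∈ RR S) : x ∈ TT S := by
  have := df_RR h hN hno hx
  rw [mem_TT]
  omega

include h hN hno hg in
theorem TT_mul {r : S.G} (hr : r ∈ RR S) {a b : S.G} (ha : a ∈ TT S) (hb : b ∈ TT S) :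
    a * b ∈ TT S := by
  rw [mem_TT] at ha hb
  have h1 := df_mul a b
  have h2 := card_RR h hN hno hg hr
  have h3 : ∃ y ∈ RR S, a * b * y ∈ RR S := by
    by_contra hcon
    push Not at hcon
    have : ((RR S).filter fun y => a * b * y ∉ RR S) = RR S := filter_true_of_mem hcon
    unfold df at *
    rw [this] at h1
    omega
  obtain ⟨y, hy, hy'⟩ := h3
  have h4 : a * b = (a * b * y) * y := (mul_right_cancel' h _ _).symm
  rw [h4, mem_TT]
  have h5 := df_mul (a * b * y) y
  have h6 := df_RR h hN hno hy
  have h7 := df_RR h hN hno hy'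
  omega

include h hN hno hg in
theorem neg_notin {r : S.G} (hr : r ∈ RR S) : S.neg ∉ TT S := by
  rw [mem_TT]
  have : ((RR S).filter fun y => S.neg * y ∉ RR S) = RR S :=
    filter_true_of_mem fun y hy => RR_neg hno hy
  unfold df
  rw [this]
  have := card_RR h hN hno hg hr
  omega

include h hN hno hg in
theorem TT_neg {r : S.G} (hr : r ∈ RR S) {a : S.G} (ha : a ∈ TT S) : S.neg * a ∉ TT S := by
  intro hc
  apply neg_notin h hN hno hg hr
  have := TT_mul h hN hno hg hr hc ha
  rwa [mul_right_cancel' h] at this

include h hN hno hg in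
theorem TT_or {r : S.G} (hr : r ∈ RR S) (y : S.G) : y ∈ TT S ∨ S.neg * y ∈ TT S := by
  obtain ⟨A, hA⟩ : ∃ A, A = RR S ∪ (RR S).image (fun z => S.neg * z) := ⟨_, rfl⟩
  have hAc : A.card = 2 * (RR S).card := by
    rw [hA, card_union_of_disjoint, card_image_of_injective _ (mul_right_injective S.neg)]
    · ring
    · rw [disjoint_left]
      intro z hz hz'
      rw [mem_image] at hz'
      obtain ⟨w, hw, rfl⟩ := hz'
      exact RR_neg hno hw hz
  have hge := card_ge h hN hno hr
  have hco : (univ \ A).card ≤ 6 := by
    rw [card_sdiff_of_subset (subset_univ _), card_univ]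
    omega
  have hmem : ∀ a ∈ A, a ∈ TT S ∨ S.neg * a ∈ TT S := by
    intro a ha
    rw [hA, mem_union, mem_image] at ha
    rcases ha with ha | ⟨w, hw, rfl⟩
    · exact Or.inl (RR_sub h hN hno ha)
    · right
      rw [nn h]
      exact RR_sub h hN hno hw
  have hex : ∃ a, a ∈ A ∧ y * a ∈ A := by
    by_contra hcon
    push Not at hcon
    have hsub : (univ : Finset S.G) ⊆ (univ \ A) ∪ (univ \ A).image (fun z => y * z) := by
      intro a _
      rw [mem_union, mem_image]
      by_cases ha : a ∈ A
      · right
        refine ⟨y * a, mem_sdiff.2 ⟨mem_univ _, hcon a ha⟩, sq_cancel h _ _⟩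
      · exact Or.inl (mem_sdiff.2 ⟨mem_univ _, ha⟩)
    have h1 := (card_le_card hsub).trans ((card_union_le _ _).trans
      (Nat.add_le_add_left card_image_le _))
    rw [card_univ] at h1
    omega
  obtain ⟨a, ha, hya⟩ := hex
  have hy : y = a * (y * a) := by
    rw [mul_comm y a, sq_cancel h]
  rcases hmem a ha with h1 | h1 <;> rcases hmem _ hya with h2 | h2
  · left
    have := TT_mul h hN hno hg hr h1 h2
    rwa [← hy] at this
  · right
    have := TT_mul h hN hno hg hr h1 h2
    have e : a * (S.neg * (y * a)) = S.neg * y := by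
      have : a * (S.neg * (y * a)) = S.neg * y * (a * a) := by simp only [mul_comm, mul_left_comm]
      rw [this, h.exp2, mul_one]
    rwa [e] at this
  · right
    have := TT_mul h hN hno hg hr h1 h2
    have e : S.neg * a * (y * a) = S.neg * y := by
      have : S.neg * a * (y * a) = S.neg * y * (a * a) := by simp only [mul_comm, mul_left_comm]
      rw [this, h.exp2, mul_one]
    rwa [e] at this
  · left
    have := TT_mul h hN hno hg hr h1 h2
    have e : S.neg * a * (S.neg * (y * a)) = y := by
      have : S.neg * a * (S.neg * (y * a)) = y * (a * a) * (S.neg * S.neg) := by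
        simp only [mul_comm, mul_left_comm]
      rw [this, h.exp2, h.exp2, mul_one, mul_one]
    rwa [e] at this

include h hN hno hg in
theorem card_TT {r : S.G} (hr : r ∈ RR S) : 2 * (TT S).card ≤ Fintype.card S.G := by
  have h1 : (TT S ∪ (TT S).image (fun z => S.neg * z)).card = 2 * (TT S).card := by
    rw [card_union_of_disjoint, card_image_of_injective _ (mul_right_injective S.neg)]
    · ring
    · rw [disjoint_left]
      intro z hz hz'
      rw [mem_image] at hz'
      obtain ⟨w, hw, rfl⟩ := hz'
      exact TT_neg h hN hno hg hr hw hz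
  rw [← h1]
  exact card_le_univ _

include h hN hno hg in
theorem four_le {y : S.G} (hy : y ∉ TT S) (hyn : y ≠ S.neg) : 4 ≤ (V S y).card := by
  by_contra hcon
  push Not at hcon
  have hr := hr_of_le h (a := y) (by omega) hyn
  apply hy
  refine RR_sub h hN hno (mem_RR.2 ⟨?_, hyn, hr⟩)
  rintro rfl
  apply hy
  rw [mem_TT]
  have : ((RR S).filter fun y => 1 * y ∉ RR S) = ∅ := by
    rw [filter_eq_empty_iff]
    intro y hy hc
    rw [one_mul] at hc
    exact hc hy
  unfold df
  rw [this, card_empty]
  exact Nat.zero_le _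

include h hN hno hg in
/-- many pairs of rigid elements -/
theorem card_M {r : S.G} (hr : r ∈ RR S) {y : S.G} (hy : y ∉ TT S) :
    10 ≤ ((RR S).filter fun x => S.neg * x * y ∈ RR S).card := by
  have h1 : S.neg * y ∈ TT S := (TT_or h hN hno hg hr y).resolve_left hy
  have h3 := card_ge h hN hno hr
  have h4 := card_TT h hN hno hg hr
  have h5 : RR S ∪ (RR S).image (fun z => S.neg * y * z) ⊆ TT S := by
    intro z hz
    rw [mem_union, mem_image] at hz
    rcases hz with hz | ⟨w, hw, rfl⟩
    · exact RR_sub h hN hno hz
    · exact TT_mul h hN hno hg hr h1 (RR_sub h hN hno hw)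
  have h6 := card_le_card h5
  have h7 := card_union_add_card_inter (RR S) ((RR S).image (fun z => S.neg * y * z))
  rw [card_image_of_injective _ (mul_right_injective (S.neg * y))] at h7
  have h8 : RR S ∩ (RR S).image (fun z => S.neg * y * z) ⊆
      (RR S).filter fun x => S.neg * x * y ∈ RR S := by
    intro z hz
    rw [mem_inter, mem_image] at hz
    obtain ⟨hz1, w, hw, hwz⟩ := hz
    rw [mem_filter]
    refine ⟨hz1, ?_⟩
    have : S.neg * z * y = w := by
      have e1 : S.neg * z * y = S.neg * y * z := by simp only [mul_comm, mul_left_comm]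
      rw [e1, ← hwz, sq_cancel h]
    rw [this]
    exact hw
  have h9 := card_le_card h8
  omega

include h hN hno hg in
theorem V_sub_TT {r : S.G} (hr : r ∈ RR S) {y : S.G} (hy : y ∉ TT S) (hyn : y ≠ S.neg) {v : S.G}
    (hv : v ∈ V S y) : v ∈ TT S := by
  by_contra hvT
  have hy1 : y ≠ 1 := by
    rintro rfl
    apply hy
    have := TT_mul h hN hno hg hr (RR_sub h hN hno hr) (RR_sub h hN hno hr)
    rwa [h.exp2] at this
  have hM := card_M h hN hno hg hr hy
  have hsub : ((RR S).filter fun x => S.neg * x * y ∈ RR S) ⊆
      (Bd S y ∪ {S.neg}).image (fun z => v * z) := by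
    intro x hx
    rw [mem_filter] at hx
    rw [mem_image]
    refine ⟨v * x, ?_, sq_cancel h _ _⟩
    rw [mem_union, mem_singleton]
    by_cases hn : v * x = S.neg
    · exact Or.inr hn
    left
    have hxT : v * x ∉ TT S := by
      intro hc
      apply hvT
      have := TT_mul h hN hno hg hr hc (RR_sub h hN hno hx.1)
      rwa [mul_right_cancel' h] at this
    have h4 := four_le h hN hno hg hxT hn
    have hsl : V S (v * x) ⊆ PP S x y := by
      intro z hz
      have h5 : z ∈ DD S (S.q x y) := by
        refine mem_DD.2 ⟨v * x, mem_X.2 ⟨y, ?_⟩, hz⟩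
        rw [h.qs2, q_shift h _ (mem_V.1 hv), h.qs2]
      rcases DD_rigid h hx.1 h5 with h6 | h6
      · exact h6
      · obtain ⟨a, ha, b, hb, rfl⟩ := mem_PP.1 h6
        refine PP_mul h (V_sub_PP_left h x y ha) ?_
        rcases V_RR hx.2 hb with rfl | rfl
        · exact V_sub_PP_left h x y (one_mem_V h x)
        · refine mem_PP.2 ⟨S.neg * x, neg_mul_mem h x, S.neg * y, neg_mul_mem h y, ?_⟩
          simp only [mul_comm, mul_left_comm]
    obtain ⟨z, hz1, hz2, hz3⟩ := exists_ne_one h h4 (half h hx.1 hsl)
    exact mem_Bd.2 ⟨z, hz1, hz3, (V_symm h).1 hz2⟩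
  have h1 := (card_le_card hsub).trans (card_image_le.trans (card_union_le _ _))
  have h2 := card_Bd h hy1 (N := 4) (by norm_num) hN
  rw [card_singleton] at h1
  omega

include h hN hno hg in
theorem no_rigid (r : S.G) : r ∉ RR S := by
  intro hr
  have hrT := RR_sub h hN hno hr
  obtain ⟨y, hy⟩ : ∃ y, y = S.neg * r := ⟨_, rfl⟩
  have hyT : y ∉ TT S := by rw [hy]; exact TT_neg h hN hno hg hr hrT
  have hyn : y ≠ S.neg := by
    rw [hy]
    intro e
    exact (mem_RR.1 hr).1 (mul_eq_left.1 e)
  have h4 := four_le h hN hno hg hyT hyn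
  obtain ⟨σ, hσ, hσ'⟩ : ∃ σ ∈ V S y, σ ∉ ({1, S.neg * y} : Finset S.G) := by
    by_contra hcon
    push Not at hcon
    have := card_le_card (s := V S y) (t := {1, S.neg * y}) hcon
    have h5 : ({1, S.neg * y} : Finset S.G).card ≤ 2 := card_le_two
    omega
  rw [mem_insert, mem_singleton, not_or] at hσ'
  have hσT := V_sub_TT h hN hno hg hr hyT hyn hσ
  have hM := card_M h hN hno hg hr hyT
  have hsub : ((RR S).filter fun x => S.neg * x * y ∈ RR S) ⊆
      (Bd S σ).image (fun z => S.neg * z) ∪ {σ} := by
    intro x hx
    rw [mem_filter] at hx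
    rw [mem_union, mem_image, mem_singleton]
    by_cases hxσ : x = σ
    · exact Or.inr hxσ
    left
    refine ⟨S.neg * x, ?_, nn h x⟩
    have hxT := RR_sub h hN hno hx.1
    have hmT : S.neg * x * σ ∉ TT S := by
      rw [mul_assoc]
      exact TT_neg h hN hno hg hr (TT_mul h hN hno hg hr hxT hσT)
    have hmn : S.neg * x * σ ≠ S.neg := by
      intro e
      rw [mul_assoc] at e
      exact hxσ (eq_of_mul h _ _ (mul_eq_left.1 e))
    rcases rig_split h hx.1 σ with h1 | h1
    · exfalso
      have hyσ : y ∈ V S σ := (V_symm h).1 hσ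
      obtain ⟨a, ha, b, hb, hab⟩ := mem_PP.1 (h1 (V_sub_PP_right h x σ hyσ))
      rcases V_RR hx.1 ha with rfl | rfl
      · rw [one_mul] at hab
        rw [hab] at hb
        exact hmT (V_sub_TT h hN hno hg hr hyT hyn ((V_symm h).1 hb))
      · have hb' : b = S.neg * x * y := by rw [← hab, sq_cancel h]
        rw [hb'] at hb
        rcases V_RR hx.2 ((V_symm h).1 hb) with h2 | h2
        · have h3 : S.neg * x = σ := eq_of_mul h _ _ h2
          exact TT_neg h hN hno hg hr hxT (by rw [h3]; exact hσT)
        · apply hσ'.2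
          have h3 : S.neg * (S.neg * x * y) = x * y := by
            have : S.neg * (S.neg * x * y) = x * y * (S.neg * S.neg) := by
              simp only [mul_comm, mul_left_comm]
            rw [this, h.exp2, mul_one]
          rw [h3] at h2
          have h4 : σ = (S.neg * x) * (S.neg * x * σ) := (sq_cancel h _ _).symm
          rw [h4, h2]
          have : S.neg * x * (x * y) = S.neg * y * (x * x) := by
            simp only [mul_comm, mul_left_comm]
          rw [this, h.exp2, mul_one]
    · have h2 := half h hx.1 ((V_sub_PP_right h x _).trans h1)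
      obtain ⟨z, hz1, hz2, hz3⟩ := exists_ne_one h (four_le h hN hno hg hmT hmn) h2
      have hz4 := V_inf h hz2 hz3
      rw [mul_right_cancel' h] at hz4
      exact mem_Bd.2 ⟨z, hz1, hz3, (V_symm h).1 hz4⟩
  have h1 := (card_le_card hsub).trans ((card_union_le _ _).trans
    (Nat.add_le_add_right card_image_le _))
  have hσ1 : σ ≠ 1 := hσ'.1
  have h2 := card_Bd h hσ1 (N := 4) (by norm_num) hN
  rw [card_singleton] at h1
  omega

end

end Pool.Agent.Q10.ETC3.Four
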