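import Mathlib
import Pool.Agent.Q10.ETC3.OneRigid4
import Pool.Agent.Q10.ETC3.Parity

set_option autoImplicit false
set_option linter.unusedSectionVars false
set_option linter.unusedVariables false

/-!
# Value groups with at most four elements: structures without rigid elements
-/

namespace Pool.Agent.Q10.ETC3.Four

open Finset
open Pool.Agent.H315R3.ETC Pool.Agent.TH673.VG Pool.Agent.Q6.EV
open Pool.Agent.Y920.ETC (Hr Bi)

open Classical

noncomputable section

variable {S : QData} (h : IsQuat S) [Fintype S.G]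

include h in
/-- a third element of a value group -/
theorem third {a : S.G} (h4 : 4 ≤ (V S a).card) : ∃ x ∈ V S a, x ≠ 1 ∧ x ≠ S.neg * a := by
  by_contra hcon
  push Not at hcon
  have hsub : V S a ⊆ {1, S.neg * a} := by
    intro x hx
    rw [mem_insert, mem_singleton]
    by_cases h1 : x = 1
    · exact Or.inl h1
    · exact Or.inr (hcon x hx h1)
  have h1 := card_le_card hsub
  have h2 : ({1, S.neg * a} : Finset S.G).card ≤ 2 := card_le_two
  omega

/-- elements of the group generated by two elements -/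
def In (v : S.G) (τ γ s : Qt h v) : Prop := ∃ i j : ℕ, s = τ ^ i * γ ^ j

theorem In_mul {v : S.G} {τ γ s t : Qt h v} (h1 : In h v τ γ s) (h2 : In h v τ γ t) :
    In h v τ γ (s * t) := by
  obtain ⟨i, j, rfl⟩ := h1
  obtain ⟨k, l, rfl⟩ := h2
  refine ⟨i + k, j + l, ?_⟩
  rw [pow_add, pow_add, mul_mul_mul_comm]

theorem In_one {v : S.G} {τ γ : Qt h v} : In h v τ γ 1 := ⟨0, 0, by simp⟩

theorem In_left {v : S.G} {τ γ : Qt h v} : In h v τ γ τ := ⟨1, 0, by simp⟩

theorem In_right {v : S.G} {τ γ : Qt h v} : In h v τ γ γ := ⟨0, 1, by simp⟩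

theorem Qt_sq {v : S.G} (x : Qt h v) : x * x = 1 := by
  obtain ⟨y, rfl⟩ := pr_surj h v x
  rw [← map_mul, h.exp2, map_one]

theorem Qt_pow {v : S.G} (x : Qt h v) (i : ℕ) : x ^ i = 1 ∨ x ^ i = x := by
  rcases Nat.even_or_odd i with ⟨k, hk⟩ | ⟨k, hk⟩
  · left
    rw [hk, pow_add, Qt_sq]
  · right
    rw [hk, pow_succ, pow_mul, pow_two, Qt_sq, one_pow, one_mul]

theorem In_mem {v : S.G} {τ γ s : Qt h v} (h1 : In h v τ γ s) :
    s ∈ ({1, τ, γ, τ * γ} : Finset (Qt h v)) := by
  obtain ⟨i, j, rfl⟩ := h1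
  simp only [mem_insert, mem_singleton]
  rcases Qt_pow h τ i with h1 | h1 <;> rcases Qt_pow h γ j with h2 | h2 <;> rw [h1, h2] <;> simp

include h in
/-- **No structure with at least 32 elements and value groups with four elements.** -/
theorem no_rigid4 (hN : ∀ b : S.G, b ≠ 1 → (V S b).card ≤ 4)
    (hR : ∀ a : S.G, a ≠ 1 → a ≠ S.neg → 4 ≤ (V S a).card) :
    Fintype.card S.G < 32 := by
  by_contra hg
  push Not at hg
  -- the choice of `v`
  obtain ⟨v, hv1, hvn, hP⟩ : ∃ v : S.G, v ≠ 1 ∧ v ≠ S.neg ∧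
      (S.neg = 1 ∨ (S.neg ∉ V S v ∧ S.neg ∉ V S (S.neg * v))) := by
    by_cases hn : S.neg = 1
    · have h1 : 1 < Fintype.card S.G := by omega
      obtain ⟨v, hv⟩ := Fintype.exists_ne_of_one_lt_card h1 (1 : S.G)
      exact ⟨v, hv, by rw [hn]; exact hv, Or.inl hn⟩
    · by_contra hcon
      push Not at hcon
      have hsub : (univ : Finset S.G) ⊆ {1, S.neg} ∪ (V S S.neg ∪
          (V S S.neg).image (fun z => S.neg * z)) := by
        intro v _
        rw [mem_union, mem_union, mem_image, mem_insert, mem_singleton]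
        by_cases h1 : v = 1
        · exact Or.inl (Or.inl h1)
        by_cases h2 : v = S.neg
        · exact Or.inl (Or.inr h2)
        right
        have h3 := (hcon v h1 h2).2
        by_cases h4 : S.neg ∈ V S v
        · exact Or.inl ((V_symm h).1 h4)
        · exact Or.inr ⟨S.neg * v, (V_symm h).1 (h3 h4), nn h v⟩
      have h1 := card_le_card hsub
      rw [card_univ] at h1
      have h2 := card_union_le ({1, S.neg} : Finset S.G) (V S S.neg ∪
          (V S S.neg).image (fun z => S.neg * z))
      have h3 := card_union_le (V S S.neg) ((V S S.neg).image (fun z => S.neg * z))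
      have h4 := card_image_le (s := V S S.neg) (f := fun z => S.neg * z)
      have h5 := hN _ hn
      have h6 : ({1, S.neg} : Finset S.G).card ≤ 2 := card_le_two
      omega
  have hv4 : (V S v).card = 4 := le_antisymm (hN v hv1) (hR v hv1 hvn)
  have hnv1 : S.neg * v ≠ 1 := fun e => hvn (eq_of_mul h _ _ e).symm
  have hnvn : S.neg * v ≠ S.neg := fun e => hv1 (mul_eq_left.1 e)
  obtain ⟨w, hw, hw1, hwv⟩ := third h (hR v hv1 hvn)
  obtain ⟨c, hc, hc1, hcv'⟩ := third h (hR _ hnv1 hnvn)
  have hcv : c ≠ v := by rw [nn h] at hcv'; exact hcv'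
  have hvV : v ∈ V S (S.neg * v) := (V_symm h).1 (neg_mul_mem h v)
  have hwn : w ≠ S.neg := by
    intro e
    rcases hP with h1 | h1
    · exact hw1 (e.trans h1)
    · exact h1.1 (e ▸ hw)
  have hcn : c ≠ S.neg := by
    rintro rfl
    rcases hP with h1 | h1
    · exact hc1 h1
    · exact h1.2 hc
  have hwv' : w ≠ v := by
    intro e
    have h1 : S.neg ∈ V S v := by
      have := mul_mem_V h (neg_mul_mem h v) (e ▸ hw)
      rwa [mul_right_cancel' h] at this
    rcases hP with h2 | h2
    · apply hwv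
      rw [h2, one_mul]; exact e
    · exact h2.1 h1
  have hcnv : c ≠ S.neg * v := by
    intro e
    have h1 : S.neg ∈ V S (S.neg * v) := by
      have := mul_mem_V h (e ▸ hc) hvV
      rwa [mul_right_cancel' h] at this
    rcases hP with h2 | h2
    · apply hcv
      rw [e, h2, one_mul]
    · exact h2.2 h1
  -- the value groups
  have Vv : ∀ y ∈ V S v, y = 1 ∨ y = S.neg * v ∨ y = w ∨ y = S.neg * v * w := fun y hy =>
    V_four h hN hv1 hw hw1 hwv hvn hy
  have Vnv : ∀ y ∈ V S (S.neg * v), y = 1 ∨ y = v ∨ y = c ∨ y = v * c := by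
    intro y hy
    have := V_four h hN hnv1 hc hc1 hcv' hnvn hy
    rwa [nn h] at this
  have Vw : ∀ y ∈ V S w, y = 1 ∨ y = S.neg * w ∨ y = v ∨ y = S.neg * w * v := fun y hy =>
    V_four h hN hw1 ((V_symm h).1 hw) hv1 (fun e => hwv (by rw [e, nn h])) hwn hy
  have hm1 : S.neg * v * w ≠ 1 := fun e => hwv (eq_of_mul h _ _ e).symm
  have hmn : S.neg * v * w ≠ S.neg := by
    intro e
    rw [mul_assoc] at e
    exact hwv' (eq_of_mul h _ _ (mul_eq_left.1 e)).symm
  have hmV : S.neg * v * w ∈ V S v := mul_mem_V h (neg_mul_mem h v) hw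
  have Vm : ∀ y ∈ V S (S.neg * v * w), y = 1 ∨ y = v * w ∨ y = v ∨ y = w := by
    intro y hy
    have e1 : S.neg * (S.neg * v * w) = v * w := by rw [mul_assoc, nn h]
    have := V_four h hN hm1 ((V_symm h).1 hmV) hv1 (by
      rw [e1]; exact fun e => hw1 (by rwa [eq_comm, mul_eq_left] at e)) hmn hy
    rw [e1] at this
    have e2 : v * w * v = w := by rw [mul_comm v w, mul_right_cancel' h]
    rwa [e2] at this
  have Vc : ∀ y ∈ V S c, y = 1 ∨ y = S.neg * c ∨ y = S.neg * v ∨ y = c * v := by
    intro y hy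
    have := V_four h hN hc1 ((V_symm h).1 hc) hnv1 (fun e => hcv (mul_left_cancel e).symm) hcn hy
    have e1 : S.neg * c * (S.neg * v) = c * v := by
      have : S.neg * c * (S.neg * v) = c * v * (S.neg * S.neg) := by
        simp only [mul_comm, mul_left_comm]
      rw [this, h.exp2, mul_one]
    rwa [e1] at this
  have hvc1 : v * c ≠ 1 := fun e => hcv (eq_of_mul h _ _ e).symm
  have hvcn : v * c ≠ S.neg := by
    intro e
    apply hcnv
    rw [← e, mul_comm v c, mul_right_cancel' h]
  have hvcV : v * c ∈ V S (S.neg * v) := mul_mem_V h hvV hc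
  have Vvc : ∀ y ∈ V S (v * c), y = 1 ∨ y = S.neg * (v * c) ∨ y = S.neg * v ∨ y = c := by
    intro y hy
    have := V_four h hN hvc1 ((V_symm h).1 hvcV) hnv1 (fun e => by
      have e2 := mul_left_cancel e
      exact hc1 (by rwa [eq_comm, mul_eq_left] at e2)) hvcn hy
    have e1 : S.neg * (v * c) * (S.neg * v) = c := by
      have : S.neg * (v * c) * (S.neg * v) = c * (v * v) * (S.neg * S.neg) := by
        simp only [mul_comm, mul_left_comm]
      rw [this, h.exp2, h.exp2, mul_one, mul_one]
    rwa [e1] at this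
  have hnw1 : S.neg * w ≠ 1 := fun e => hwn (eq_of_mul h _ _ e).symm
  have hnwn : S.neg * w ≠ S.neg := fun e => hw1 (mul_eq_left.1 e)
  obtain ⟨d, hd, hd1, hdw⟩ := third h (hR _ hnw1 hnwn)
  have Vnw : ∀ y ∈ V S (S.neg * w), y = 1 ∨ y = w ∨ y = d ∨ y = w * d := by
    intro y hy
    have := V_four h hN hnw1 hd hd1 hdw hnwn hy
    rwa [nn h] at this
  have hvw1 : v * w ≠ 1 := fun e => hwv' (eq_of_mul h _ _ e).symm
  have hvwn : v * w ≠ S.neg := by
    intro e
    apply hwv
    rw [← e, mul_comm v w, mul_right_cancel' h]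
  obtain ⟨e, he, he1, hevw⟩ := third h (hR _ hvw1 hvwn)
  have Vvw : ∀ y ∈ V S (v * w), y = 1 ∨ y = S.neg * (v * w) ∨ y = e ∨ y = S.neg * (v * w) * e :=
    fun y hy => V_four h hN hvw1 he he1 hevw hvwn hy
  -- the images
  have pw1 : pr h v w = 1 := (pr_one h).2 hw
  have pnv : pr h v S.neg * pr h v v = 1 := by
    rw [← map_mul]; exact (pr_one h).2 (neg_mul_mem h v)
  obtain ⟨τ, hτ⟩ : ∃ τ, τ = pr h v v := ⟨_, rfl⟩
  obtain ⟨γ, hγ⟩ : ∃ γ, γ = pr h v c := ⟨_, rfl⟩
  have pn : pr h v S.neg = τ := by
    have h1 : pr h v S.neg * (τ * τ) = τ := by rw [← mul_assoc, hτ, pnv, one_mul]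
    rwa [Qt_sq, mul_one] at h1
  rw [← hτ] at pnv
  have hsubV : ∀ x ∈ V S v, x ≠ 1 → ∀ y ∈ V S x, In h v τ γ (pr h v y) := by
    intro x hx hx1 y hy
    rcases Vv x hx with h1 | h1 | h1 | h1
    · exact absurd h1 hx1
    · rw [h1] at hy
      rcases Vnv y hy with h2 | h2 | h2 | h2 <;> rw [h2]
      · rw [map_one]; exact In_one h
      · rw [← hτ]; exact In_left h
      · rw [← hγ]; exact In_right h
      · rw [map_mul, ← hτ, ← hγ]; exact In_mul h (In_left h) (In_right h)
    · rw [h1] at hy
      rcases Vw y hy with h2 | h2 | h2 | h2 <;> rw [h2]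
      · rw [map_one]; exact In_one h
      · rw [map_mul, pn, pw1, mul_one]; exact In_left h
      · rw [← hτ]; exact In_left h
      · rw [map_mul, map_mul, pn, pw1, ← hτ]
        exact In_mul h (In_mul h (In_left h) (In_one h)) (In_left h)
    · rw [h1] at hy
      rcases Vm y hy with h2 | h2 | h2 | h2 <;> rw [h2]
      · rw [map_one]; exact In_one h
      · rw [map_mul, pw1, ← hτ, mul_one]; exact In_left h
      · rw [← hτ]; exact In_left h
      · rw [pw1]; exact In_one h
  -- all cosets
  have hall : ∀ k : Qt h v, In h v τ γ k ∨ k = pr h v d ∨ k = pr h v e := by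
    intro k
    by_contra hk
    rw [not_or, not_or] at hk
    obtain ⟨hk1, hk2, hk3⟩ := hk
    have hGG : k ∈ GG h v := by
      rw [mem_GG]
      refine ⟨?_, ?_⟩
      · intro u hu hB
        obtain ⟨x, hx1, hx, hux⟩ := mem_Bd.1 hB
        exact hk1 (hu ▸ hsubV x hx hx1 u hux)
      · intro e'
        exact hk1 (by rw [e', pn]; exact In_left h)
    refine clean_false h hv4 le_rfl hR hGG ?_
    intro u hu w' hw' hw'1
    by_contra hne
    have hne' := nonempty_iff_ne_empty.2 hne
    have hu' : pr h v u = k := (mem_cs h).1 hu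
    have hPw := mem_Pw_of_Ov h hw' hne'
    unfold Pw at hPw
    rw [mem_union, mem_biUnion] at hPw
    rcases hPw with hB | ⟨z, hz, hz'⟩
    · obtain ⟨x, hx1, hx, hux⟩ := mem_Bd.1 hB
      -- `u ∈ V(x)`, `x ∈ V(w')`
      have hVv : u ∈ V S v → False := fun h1 => hk1 (by
        rw [← hu', (pr_one h).2 h1]; exact In_one h)
      rcases Vv w' hw' with h1 | h1 | h1 | h1
      · exact hw'1 h1
      · rw [h1] at hx
        rcases Vnv x hx with h2 | h2 | h2 | h2
        · exact hx1 h2
        · rw [h2] at hux; exact hVv hux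
        · rw [h2] at hux
          apply hk1
          rw [← hu']
          rcases Vc u hux with h3 | h3 | h3 | h3 <;> rw [h3]
          · rw [map_one]; exact In_one h
          · rw [map_mul, pn, ← hγ]; exact In_mul h (In_left h) (In_right h)
          · rw [map_mul, pn, ← hτ]; exact In_mul h (In_left h) (In_left h)
          · rw [map_mul, ← hγ, ← hτ]; exact In_mul h (In_right h) (In_left h)
        · rw [h2] at hux
          apply hk1
          rw [← hu']
          rcases Vvc u hux with h3 | h3 | h3 | h3 <;> rw [h3]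
          · rw [map_one]; exact In_one h
          · rw [map_mul, map_mul, pn, ← hγ, ← hτ]
            exact In_mul h (In_left h) (In_mul h (In_left h) (In_right h))
          · rw [map_mul, pn, ← hτ]; exact In_mul h (In_left h) (In_left h)
          · rw [← hγ]; exact In_right h
      · rw [h1] at hx
        rcases Vw x hx with h2 | h2 | h2 | h2
        · exact hx1 h2
        · rw [h2] at hux
          rcases Vnw u hux with h3 | h3 | h3 | h3
          · exact hk1 (by rw [← hu', h3, map_one]; exact In_one h)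
          · exact hk1 (by rw [← hu', h3, pw1]; exact In_one h)
          · exact hk2 (by rw [← hu', h3])
          · exact hk2 (by rw [← hu', h3, map_mul, pw1, one_mul])
        · rw [h2] at hux; exact hVv hux
        · rw [h2] at hux
          have e1 : S.neg * w * v = S.neg * v * w := by simp only [mul_comm, mul_left_comm]
          rw [e1] at hux
          exact hk1 (hu' ▸ hsubV _ hmV hm1 u hux)
      · rw [h1] at hx
        rcases Vm x hx with h2 | h2 | h2 | h2
        · exact hx1 h2
        · rw [h2] at hux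
          rcases Vvw u hux with h3 | h3 | h3 | h3
          · exact hk1 (by rw [← hu', h3, map_one]; exact In_one h)
          · exact hk1 (by
              rw [← hu', h3, map_mul, map_mul, pn, ← hτ, pw1]
              exact In_mul h (In_left h) (In_mul h (In_left h) (In_one h)))
          · exact hk3 (by rw [← hu', h3])
          · exact hk3 (by
              rw [← hu', h3, map_mul, map_mul, map_mul, pn, ← hτ, pw1, mul_one, Qt_sq, one_mul])
        · rw [h2] at hux; exact hVv hux
        · rw [h2] at hux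
          exact hk1 (hu' ▸ hsubV _ hw hw1 u hux)
    · rw [mem_sdiff, mem_insert, mem_singleton, not_or] at hz
      obtain ⟨y, hy, hyu⟩ := mem_image.1 hz'
      obtain ⟨y1, hy1, y2, hy2, hy12⟩ := mem_PP.1 hy
      apply hk1
      rw [← hu', ← hyu, ← hy12, map_mul, map_mul, (pr_one h).2 hw', mul_one]
      exact In_mul h (hsubV z hz.1 hz.2.1 y1 hy1) (hsubV (z * w') (mul_mem_V h hz.1 hw')
        (fun e' => hz.2.2 (eq_of_mul h _ _ e')) y2 hy2)
  have hsub : (univ : Finset (Qt h v)) ⊆ {1, τ, γ, τ * γ} ∪ {pr h v d, pr h v e} := by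
    intro k _
    rw [mem_union]
    rcases hall k with h1 | h1 | h1
    · exact Or.inl (In_mem h h1)
    · right; rw [h1]; exact mem_insert_self _ _
    · right; rw [h1]; exact mem_insert_of_mem (mem_singleton_self _)
  have h1 := (card_le_card hsub).trans (card_union_le _ _)
  rw [card_univ] at h1
  have h2 : ({1, τ, γ, τ * γ} : Finset (Qt h v)).card ≤ 4 := card_le_four
  have h3 : ({pr h v d, pr h v e} : Finset (Qt h v)).card ≤ 2 := card_le_two
  have h4 := card_Qt h v
  rw [hv4] at h4
  omega

include h in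
/-- **Value groups with at most four elements.** -/
theorem exists_bi4 (hN : ∀ b : S.G, b ≠ 1 → (V S b).card ≤ 4)
    (hg : 32 ≤ Fintype.card S.G) : ∃ a : S.G, Bi S a := by
  by_contra hno
  push Not at hno
  have h1 := no_rigid4 h hN (fun a h1 h2 => by
    by_contra hc
    push Not at hc
    exact no_rigid h hN hno hg a (mem_RR.2 ⟨h1, h2, hr_of_le h (by omega) h2⟩))
  omega

end

end Pool.Agent.Q10.ETC3.Four
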