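import Mathlib
import Pool.Agent.Q10.ETC3.Main
import Pool.Agent.Q10.ETC3.NoRigid4
import Pool.Agent.Y920.ETC.FieldR

set_option autoImplicit false

/-!
# Fields with small norm groups
-/

namespace Pool.Agent.Q10.ETC3

open scoped Quaternion
open Pool.Agent.H315R3.ETC Pool.Agent.TH188.ET
open Pool.Agent.Y920.ETC (Hr Bi vs restrN isQuat_restrN vs_restrN bi_ext iso_refl iso_trans iso_ext
  Red finSq_of_index structure_iso iso_symm sqG nG card_eq exists_val chain S_RES mem_sqG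
  Sqr)

/-- the structure of a field, with the orders of its value groups -/
theorem field_data {F : Type} [Field F] (h2 : (2 : F) ≠ 0) (hfin : (sqG F).index ≠ 0) :
    ∃ S : QData, IsStructureOf F S ∧ Finite S.G ∧ IsQuat S ∧ Nat.card S.G = (sqG F).index ∧
      ∃ φ : Fˣ →* S.G, Function.Surjective φ ∧ φ (-1) = S.neg ∧ (∀ a : Fˣ, φ a = 1 ↔ a ∈ sqG F) ∧
        ∀ a : Fˣ, vs S (φ a) = (sqG F).relIndex (nG a) := by
  obtain ⟨S, hS, hSf, hSq⟩ := exists_structure h2 (finSq_of_index hfin)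
  have hS' := hS
  obtain ⟨φ, hs, hk, hn, h0, hq⟩ := hS
  refine ⟨S, hS', hSf, hSq, card_eq hs hk, φ, hs, hn, fun a => ?_, fun a => ?_⟩
  · rw [hk]
    exact mem_sqG.symm
  · exact Pool.Agent.Y920.ETC.vs_eq hs hk h0 hq h2 a

theorem ext_one {T : QData} (hT : T.q 1 1 = T.zero) (k : ℕ) :
    (ext^[k] T).q 1 1 = (ext^[k] T).zero := by
  induction k with
  | zero => exact hT
  | succ k ih =>
    rw [Function.iterate_succ_apply']
    show (((ext^[k] T).q 1 1, pw (pw (ext^[k] T).neg 1) 1 * pw 1 1 * pw 1 1) :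
      (ext^[k] T).Q × (ext^[k] T).G) = ((ext^[k] T).zero, 1)
    rw [ih]
    simp [pw]

/-- reduction to the residue field -/
theorem reduce3 (hres : S_RES) {F : Type} [Field F] (h2 : (2 : F) ≠ 0) {N : ℕ} (hN1 : 2 ≤ N)
    (hfin : (sqG F).index ≠ 0)
    (hsmall : ∀ a : Fˣ, a ∉ sqG F → (sqG F).relIndex (nG a) ≤ N)
    (hlarge : 2 * N ^ 3 < (sqG F).index) :
    ∃ O : ValuationSubring F, Red F O N ∧
      (sqG (IsLocalRing.ResidueField O)).index ≤ 2 * N ^ 3 ∧
      ∃ (k : ℕ) (T : QData), 1 ≤ k ∧ 2 ^ k * (sqG (IsLocalRing.ResidueField O)).index =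
        (sqG F).index ∧ IsStructureOf (IsLocalRing.ResidueField O) T ∧
        IsStructureOf F (ext^[k] T) := by
  obtain ⟨S, hS, hSf, hSq⟩ := exists_structure h2 (finSq_of_index hfin)
  have hS' := hS
  obtain ⟨φ, hs, hk, hn, h0, hq⟩ := hS
  obtain ⟨B, hB⟩ := Pool.Agent.Y67.ET.t_BASIC S hSq
  have hcard : Nat.card S.G = (sqG F).index := card_eq hs hk
  have hvs : ∀ g : S.G, g ≠ 1 → vs S g ≤ N := by
    intro g hg
    obtain ⟨a, rfl⟩ := hs g
    rw [Pool.Agent.Y920.ETC.vs_eq hs hk h0 hq h2]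
    refine hsmall a fun ha => hg ?_
    rw [hk]
    exact mem_sqG.1 ha
  have hBc := card_basic3 hSq B hB hN1 hvs
  obtain ⟨O, hO, hOc, hc⟩ := exists_val hs hk hn h0 hq h2 B hB (by omega)
  obtain ⟨h2k, hstr, hbi⟩ := hres F O hO S φ hs hk hn h0 hq
  have hneg : S.neg ∈ O.unitGroup.map φ := by
    by_contra hc'
    exact (hbi _ hc').2.1 rfl
  have hstr' := hstr hneg
  have hfK : Finite (restrN S (O.unitGroup.map φ) hneg).G :=
    inferInstanceAs (Finite (O.unitGroup.map φ))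
  obtain ⟨k, hk1, hk2⟩ := chain _ S hSq hSf le_rfl (O.unitGroup.map φ) hneg hbi
  have hqK := (isQuat_restrN hSq (O.unitGroup.map φ) hneg hbi).1
  obtain ⟨ψ, hs', hk', hn', h0', hq'⟩ := hstr'
  have hcκ : Nat.card (O.unitGroup.map φ) = (sqG (IsLocalRing.ResidueField O)).index :=
    card_eq hs' hk'
  have hpos : 0 < Nat.card (O.unitGroup.map φ) := Nat.card_pos
  refine ⟨O, ⟨hO, h2k, by omega, ?_⟩, by omega, k, restrN S (O.unitGroup.map φ) hneg, ?_, ?_,
    hstr hneg, ?_⟩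
  · intro a ha
    rw [← Pool.Agent.Y920.ETC.vs_eq hs' hk' h0' hq' h2k,
      vs_restrN hSq (O.unitGroup.map φ) hneg hbi]
    · refine hvs _ fun e => ha ?_
      rw [mem_sqG, ← hk']
      exact Subtype.ext e
    · intro e
      apply ha
      rw [mem_sqG, ← hk']
      exact e
  · by_contra hk0
    have hk0' : k = 0 := by omega
    rw [hk0', pow_zero, one_mul] at hk1
    omega
  · rw [← hcκ, hk1, hcard]
  · refine structure_iso hS' (iso_symm hk2) (ext_one (T := restrN S (O.unitGroup.map φ) hneg) ?_ k)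
    exact h0

/-- value groups with at most four elements -/
theorem iter4 : ∀ n : ℕ, ∀ S : QData, IsQuat S → Finite S.G → Nat.card S.G ≤ n →
      (∀ a : S.G, a ≠ 1 → vs S a ≤ 4) →
      ∃ (T : QData) (k : ℕ), IsQuat T ∧ Finite T.G ∧ Nat.card T.G ≤ 16 ∧
        2 ^ k * Nat.card T.G = Nat.card S.G ∧ (∀ a : T.G, a ≠ 1 → vs T a ≤ 4) ∧
        Iso (ext^[k] T) S := by
  intro n
  induction n with
  | zero =>
    intro S h hf hc
    have : 0 < Nat.card S.G := Nat.card_pos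
    omega
  | succ n ih =>
    intro S h hf hc hN
    by_cases hs : Nat.card S.G ≤ 16
    · exact ⟨S, 0, h, hf, hs, by simp, hN, iso_refl S⟩
    push Not at hs
    have hf' : Fintype S.G := Fintype.ofFinite _
    obtain ⟨m, hm⟩ := Pool.Agent.Y920.ETC.card_pow h
    have h32 := two_mul_le (a := 16) (m := 4) (by norm_num) hm hs
    obtain ⟨b, hb⟩ := Four.exists_bi4 h (fun a ha => by rw [← vs_eq]; exact hN a ha)
      (by rw [← Nat.card_eq_fintype_card]; omega)
    obtain ⟨T, hT, hTf, hTc, hTi, hTN⟩ := bi_ext h hb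
    have hTpos : 0 < Nat.card T.G := Nat.card_pos
    obtain ⟨R, k, hR, hRf, hRc, hRk, hRN, hRi⟩ := ih T hT hTf (by omega) (hTN 4 hN)
    refine ⟨R, k + 1, hR, hRf, hRc, ?_, hRN, ?_⟩
    · rw [pow_succ, mul_comm (2 ^ k) 2, mul_assoc, hRk, hTc]
    · rw [Function.iterate_succ_apply']
      exact iso_trans (iso_ext hRi) hTi

end Pool.Agent.Q10.ETC3
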